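import Pool.Agent.H53_Strange.Crit

/-!
# Strange orbits in `sl_n`: block sizes in `{m, m + 1, m + 2}`, and two blocks with difference 3
-/

set_option autoImplicit false
set_option linter.unusedSectionVars false

namespace Strange53

open Module

variable {k V : Type*} [Field k] [AddCommGroup V] [Module k V]

/-- the matrices supported in `S` -/
def posL (k : Type*) [Field k] {I : Type} (S : I → I → Prop) : Submodule k (Matrix I I k) where
  carrier := {Γ | ∀ l i, ¬ S l i → Γ l i = 0}
  add_mem' := by
    intro Γ Δ h1 h2 l i h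
    rw [Matrix.add_apply, h1 l i h, h2 l i h, add_zero]
  zero_mem' := fun l i _ => rfl
  smul_mem' := by
    intro a Γ h1 l i h
    rw [Matrix.smul_apply, h1 l i h, smul_zero]

theorem posL_mul {I : Type} [Fintype I] {S : I → I → Prop} (hS : ∀ l j i, S l j → S j i → S l i)
    {A B : Matrix I I k} (hA : A ∈ posL k S) (hB : B ∈ posL k S) : A * B ∈ posL k S := by
  intro l i h
  rw [Matrix.mul_apply]
  refine Finset.sum_eq_zero fun j _ => ?_
  by_cases h1 : S l j
  · by_cases h2 : S j i
    · exact absurd (hS l j i h1 h2) h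
    · rw [hB j i h2, mul_zero]
  · rw [hA l j h1, zero_mul]

variable [FiniteDimensional k V]

variable {e : Module.End k V} {I : Type} [Fintype I] [DecidableEq I] {μ : I → ℕ} {g : I → V}

theorem JB.co_sum (J : JB e μ g) (l : I) (r s : ℕ) (a : I → k) :
    J.co l r (∑ j, a j • (e ^ s) (g j)) = if r = s ∧ s < μ l then a l else 0 := by
  rw [map_sum, Finset.sum_eq_single l]
  · rw [map_smul, J.co_gen]
    by_cases h : r = s ∧ s < μ l
    · rw [if_pos h, if_pos ⟨rfl, h⟩, smul_eq_mul, mul_one]
    · rw [if_neg h, if_neg (fun h' => h h'.2), smul_zero]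
  · intro j _ hj
    rw [map_smul, J.co_gen, if_neg (fun h => hj h.1.symm), smul_zero]
  · intro h
    exact absurd (Finset.mem_univ l) h

theorem strange_A2 (J : JB e μ g) {m : ℕ} (hμ : ∀ i, μ i = m ∨ μ i = m + 1 ∨ μ i = m + 2)
    (π : I → I) (hπ : ∀ i, μ i = m → μ (π i) = m + 2)
    (hinj : ∀ i j, μ i = m → μ j = m → π i = π j → i = j) : SG e := by
  classical
  let S : I → I → Prop := fun l i => (μ i = m ∧ μ l ≠ m) ∨ (μ i = m + 1 ∧ μ l = m + 2) ∨
    (μ i = m + 2 ∧ μ l = m + 2 ∧ ∃ j, μ j = m ∧ π j = i)
  have hSt : ∀ l j i, S l j → S j i → S l i := by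
    rintro l j i (h1 | h1 | h1) (h2 | h2 | h2)
    · exact absurd h1.1 h2.2
    · have := h1.1; have := h2.2; omega
    · have := h1.1; have := h2.2.1; omega
    · exact Or.inl ⟨h2.1, by have := h1.2; omega⟩
    · have := h1.1; have := h2.2; omega
    · have := h1.1; have := h2.2.1; omega
    · exact Or.inl ⟨h2.1, by have := h1.2.1; omega⟩
    · exact Or.inr (Or.inl ⟨h2.1, h1.2.1⟩)
    · exact Or.inr (Or.inr ⟨h2.1, h1.2.1, h2.2.2⟩)
  have hSm : ∀ l i, S l i → μ l ≠ m := by
    rintro l i (h | h | h)
    · exact h.2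
    · have := h.2; omega
    · have := h.2.1; omega
  let u : I → V := fun i => if μ i = m then g i - e (g (π i)) else g i
  have hu0 : ∀ i, μ i = m → u i = g i - e (g (π i)) := fun i hi => if_pos hi
  have hu1 : ∀ i, μ i ≠ m → u i = g i := fun i hi => if_neg hi
  have hsum : ∀ Γ ∈ posL k S, ∀ i, ∑ l, Γ l i • u l = ∑ l, Γ l i • (e ^ 0) (g l) := by
    intro Γ hΓ i
    refine Finset.sum_congr rfl fun l _ => ?_
    by_cases h : S l i
    · rw [hu1 l (hSm l i h), pow_zero, Module.End.one_apply]
    · rw [hΓ l i h, zero_smul, zero_smul]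
  have hπm : ∀ i, μ i = m → μ (π i) ≠ m := fun i hi => by have := hπ i hi; omega
  have he1 : ∀ v : V, e v = (e ^ 1) v := fun v => by rw [pow_one]
  refine crit u (posL k S) ?_ ?_ ?_
  · intro A hA B hB
    exact (posL k S).sub_mem (posL_mul hSt hA hB) (posL_mul hSt hB hA)
  · intro y
    let z : I → V := fun i => y i + e (y (π i))
    let Γ : Matrix I I k := fun l i =>
      if S l i then
        if μ i = m then J.co l 0 (z i)
        else if μ i = m + 1 then J.co l 0 (y i)
        else if h : ∃ j, μ j = m ∧ π j = i then J.co l 1 (z h.choose) else 0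
      else 0
    have hΓ : Γ ∈ posL k S := fun l i h => if_neg h
    have hΓ0 : ∀ l i, μ i = m → μ l ≠ m → Γ l i = J.co l 0 (z i) := by
      intro l i h1 h2
      change (if S l i then _ else _) = _
      rw [if_pos (Or.inl ⟨h1, h2⟩), if_pos h1]
    have hΓ1 : ∀ l i, μ i = m + 1 → μ l = m + 2 → Γ l i = J.co l 0 (y i) := by
      intro l i h1 h2
      change (if S l i then _ else _) = _
      rw [if_pos (Or.inr (Or.inl ⟨h1, h2⟩)), if_neg (by omega), if_pos h1]
    have hΓ2 : ∀ l i, μ i = m → μ l = m + 2 → Γ l (π i) = J.co l 1 (z i) := by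
      intro l i h1 h2
      have h3 := hπ i h1
      have h4 : ∃ j, μ j = m ∧ π j = π i := ⟨i, h1, rfl⟩
      change (if S l (π i) then _ else _) = _
      rw [if_pos (Or.inr (Or.inr ⟨h3, h2, h4⟩)), if_neg (by omega), if_neg (by omega), dif_pos h4]
      have h5 : h4.choose = i := hinj _ _ h4.choose_spec.1 h1 h4.choose_spec.2
      rw [h5]
    let w1 : I → V := fun i => y i - ∑ l, Γ l i • (e ^ 0) (g l)
    let w : I → V := fun i => if μ i = m then w1 i + e (w1 (π i)) else w1 i
    have hw0 : ∀ i, μ i = m → w i = w1 i + e (w1 (π i)) := fun i hi => if_pos hi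
    have hw1 : ∀ i, μ i ≠ m → w i = w1 i := fun i hi => if_neg hi
    obtain ⟨c, hc, hcg⟩ := J.exists_cen (w := w) (by
      intro i
      rw [J.pow_eq_zero_iff]
      intro l r hr
      have hl := hμ l
      rcases hμ i with hi | hi | hi
      · rw [hw0 i hi]
        have h1 : w1 i + e (w1 (π i)) = z i - ∑ l, Γ l i • (e ^ 0) (g l) -
            ∑ l, Γ l (π i) • (e ^ 1) (g l) := by
          change y i - _ + e (y (π i) - _) = y i + e (y (π i)) - _ - _
          rw [map_sub, map_sum]
          have h2 : ∀ l, e (Γ l (π i) • (e ^ 0) (g l)) = Γ l (π i) • (e ^ 1) (g l) := by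
            intro l
            rw [map_smul, pow_zero, Module.End.one_apply, he1]
          simp only [h2]
          abel
        rw [h1, map_sub, map_sub, J.co_sum, J.co_sum]
        rcases Nat.lt_or_ge r 1 with h0 | h0
        · have hr0 : r = 0 := by omega
          subst hr0
          rw [if_pos ⟨rfl, by omega⟩, if_neg (by omega), hΓ0 l i hi (by omega), sub_self, sub_zero]
        · have hr1 : r = 1 := by omega
          subst hr1
          rw [if_neg (by omega), if_pos ⟨rfl, by omega⟩, hΓ2 l i hi (by omega), sub_zero, sub_self]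
      · rw [hw1 i (by omega)]
        change J.co l r (y i - _) = 0
        have hr0 : r = 0 := by omega
        subst hr0
        rw [map_sub, J.co_sum, if_pos ⟨rfl, by omega⟩, hΓ1 l i hi (by omega), sub_self]
      · omega)
    refine ⟨c, hc, Γ, hΓ, fun i => ?_⟩
    rw [hsum Γ hΓ]
    by_cases hi : μ i = m
    · rw [hu0 i hi, map_sub, hcg, hw0 i hi]
      have h1 : c (e (g (π i))) = e (w1 (π i)) := by
        rw [he1, cen_pow hc, hcg, hw1 _ (hπm i hi), pow_one]
      rw [h1, add_sub_cancel_right]
      change y i = y i - _ + _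
      rw [sub_add_cancel]
    · rw [hu1 i hi, hcg, hw1 i hi]
      change y i = y i - _ + _
      rw [sub_add_cancel]
  · intro c hc Γ hΓ h
    have h' : ∀ i, c (u i) = ∑ l, Γ l i • (e ^ 0) (g l) := fun i => by rw [h i, hsum Γ hΓ]
    have hk : ∀ i, (e ^ μ i) (c (g i)) = 0 := fun i => by rw [← cen_pow hc, J.kill, map_zero]
    have hΓ1 : ∀ l i, μ i = m + 1 → μ l = m + 2 → Γ l i = 0 := by
      intro l i hi hl
      have h1 := (J.pow_eq_zero_iff).1 (hk i) l 0 (by omega)
      have h2 := h' i
      rw [hu1 i (by omega)] at h2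
      rw [h2, J.co_sum, if_pos ⟨rfl, by omega⟩] at h1
      exact h1
    have hcg0 : ∀ i, μ i = m → c (g i) = ∑ l, Γ l i • (e ^ 0) (g l) +
        ∑ l, Γ l (π i) • (e ^ 1) (g l) := by
      intro i hi
      have h1 := h' i
      rw [hu0 i hi, map_sub, he1, cen_pow hc] at h1
      have h2 := h' (π i)
      rw [hu1 _ (hπm i hi)] at h2
      have h3 : (e ^ 1) (c (g (π i))) = ∑ l, Γ l (π i) • (e ^ 1) (g l) := by
        rw [h2, map_sum]
        refine Finset.sum_congr rfl fun l _ => ?_
        rw [map_smul, pow_pow_apply]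
      rw [h3] at h1
      rw [← h1]
      abel
    have hΓ0 : ∀ l i, μ i = m → μ l ≠ m → Γ l i = 0 := by
      intro l i hi hl
      have hl' := hμ l
      have h1 := (J.pow_eq_zero_iff).1 (hk i) l 0 (by omega)
      rw [hcg0 i hi, map_add, J.co_sum, J.co_sum, if_pos ⟨rfl, by omega⟩, if_neg (by omega),
        add_zero] at h1
      exact h1
    have hΓ2 : ∀ l i, μ i = m → μ l = m + 2 → Γ l (π i) = 0 := by
      intro l i hi hl
      have h1 := (J.pow_eq_zero_iff).1 (hk i) l 1 (by omega)
      rw [hcg0 i hi, map_add, J.co_sum, J.co_sum, if_neg (by omega), if_pos ⟨rfl, by omega⟩,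
        zero_add] at h1
      exact h1
    have hΓz : ∀ l i, Γ l i = 0 := by
      intro l i
      by_cases hS : S l i
      · rcases hS with hS | hS | hS
        · exact hΓ0 l i hS.1 hS.2
        · exact hΓ1 l i hS.1 hS.2
        · obtain ⟨-, h2, j, hj, rfl⟩ := hS
          exact hΓ2 l j hj h2
      · exact hΓ l i hS
    have hcu : ∀ i, c (u i) = 0 := by
      intro i
      rw [h' i]
      exact Finset.sum_eq_zero fun l _ => by rw [hΓz, zero_smul]
    apply J.cen_inj hc
    have hg1 : ∀ i, μ i ≠ m → c (g i) = 0 := fun i hi => hu1 i hi ▸ hcu i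
    intro i
    by_cases hi : μ i = m
    · have h1 := hcu i
      rw [hu0 i hi, map_sub, he1, cen_pow hc, hg1 _ (hπm i hi), map_zero, sub_zero] at h1
      exact h1
    · exact hg1 i hi

/-- two blocks, the difference of the sizes is 3 -/
theorem strange_three [CharZero k] (J : JB e μ g) {i j : I} (hij : i ≠ j)
    (huniv : ∀ l, l = i ∨ l = j) (hμ : μ i = μ j + 3) : SG e := by
  classical
  have hsum2 : ∀ f : I → V, ∑ l, f l = f i + f j := by
    intro f
    have h1 : (Finset.univ : Finset I) = {i, j} := by
      ext l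
      simp [huniv l]
    rw [h1, Finset.sum_pair hij]
  have he1 : ∀ v : V, e v = (e ^ 1) v := fun v => by rw [pow_one]
  have he0 : ∀ v : V, v = (e ^ 0) v := fun v => by rw [pow_zero, Module.End.one_apply]
  let u : I → V := fun l => if l = i then g i else g j + e (g i)
  have hui : u i = g i := if_pos rfl
  have huj : u j = g j + e (g i) := if_neg hij.symm
  have h2k : (2 : k) ≠ 0 := two_ne_zero
  refine crit u (LinearMap.ker (Matrix.traceLinearMap I k k)) ?_ ?_ ?_
  · intro A _ B _
    rw [LinearMap.mem_ker, Matrix.traceLinearMap_apply, Matrix.trace_sub, Matrix.trace_mul_comm,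
      sub_self]
  · intro y
    let z : V := y j - e (y i)
    let Γ : Matrix I I k := fun l l' =>
      if l' = i then (if l = i then -(J.co i 1 z) / 2 else -(J.co i 2 z))
      else (if l = i then J.co i 0 z else (J.co i 1 z) / 2)
    have h1 : Γ i i = -(J.co i 1 z) / 2 := by simp [Γ]
    have h2 : Γ j i = -(J.co i 2 z) := by simp [Γ, hij.symm]
    have h3 : Γ i j = J.co i 0 z := by simp [Γ, hij.symm]
    have h4 : Γ j j = (J.co i 1 z) / 2 := by simp [Γ, hij.symm]
    let wi : V := y i - (Γ i i • u i + Γ j i • u j)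
    let wj : V := y j - (Γ i j • u i + Γ j j • u j) - e wi
    have hwj : wj = z - Γ i j • (e ^ 0) (g i) - Γ j j • (e ^ 0) (g j) +
        (Γ i i - Γ j j) • (e ^ 1) (g i) + Γ j i • (e ^ 1) (g j) + Γ j i • (e ^ 2) (g i) := by
      change y j - _ - e (y i - _) = y j - e (y i) - _ - _ + _ + _ + _
      rw [hui, huj, map_sub, map_add, map_smul, map_smul, map_add, he1 (e (g i)), he1 (g i),
        he1 (g j), pow_pow_apply, ← he0, ← he0, sub_smul, smul_add, smul_add]
      abel
    obtain ⟨c, hc, hcg⟩ := J.exists_cen (w := fun l => if l = i then wi else wj) (by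
      intro l
      rcases huniv l with rfl | rfl
      · rw [if_pos rfl, J.pow_eq_zero_iff]
        intro l' r hr
        rcases huniv l' with rfl | rfl <;> omega
      · rw [if_neg hij.symm, J.pow_eq_zero_iff]
        intro l' r hr
        rcases huniv l' with rfl | rfl
        · rw [hwj]
          simp only [map_add, map_sub, map_smul, J.co_gen, smul_eq_mul]
          have hr3 : r = 0 ∨ r = 1 ∨ r = 2 := by omega
          rcases hr3 with rfl | rfl | rfl
          · simp [hij, h3]
            rw [if_pos (by omega), sub_self]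
          · simp [hij, h1, h4]
            have h5 : 1 < μ l' := by omega
            rw [if_pos h5]
            ring
          · simp [hij, h2]
            rw [if_pos (by omega), add_neg_cancel]
        · omega)
    refine ⟨c, hc, Γ, ?_, fun l => ?_⟩
    · rw [LinearMap.mem_ker, Matrix.traceLinearMap_apply]
      have h5 : Matrix.trace Γ = Γ i i + Γ j j := by
        unfold Matrix.trace
        have h6 : (Finset.univ : Finset I) = {i, j} := by
          ext l
          simp [huniv l]
        rw [h6, Finset.sum_pair hij]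
        rfl
      rw [h5, h1, h4]
      ring
    · rw [hsum2]
      rcases huniv l with rfl | rfl
      · rw [hui, hcg, if_pos rfl]
        change y l = y l - (Γ l l • u l + Γ j l • u j) + _
        rw [hui, sub_add_cancel]
      · have h5 : c (u l) = y l - (Γ i l • u i + Γ l l • u l) := by
          have h6 : c (g l + e (g i)) = wj + e wi := by
            rw [map_add, he1 (g i), cen_pow hc, hcg, hcg, if_neg hij.symm, if_pos rfl, ← he1]
          calc c (u l) = c (g l + e (g i)) := by rw [huj]
            _ = wj + e wi := h6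
            _ = y l - (Γ i l • u i + Γ l l • u l) - e wi + e wi := rfl
            _ = _ := by rw [sub_add_cancel]
        rw [h5, sub_add_cancel]
  · intro c hc Γ hΓ h
    rw [LinearMap.mem_ker, Matrix.traceLinearMap_apply] at hΓ
    have h5 : Matrix.trace Γ = Γ i i + Γ j j := by
      unfold Matrix.trace
      have h6 : (Finset.univ : Finset I) = {i, j} := by
        ext l
        simp [huniv l]
      rw [h6, Finset.sum_pair hij]
      rfl
    rw [h5] at hΓ
    have hi := h i
    have hj := h j
    rw [hsum2, hui, huj] at hi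
    rw [hsum2, hui, huj, map_add, he1 (g i), cen_pow hc, hi] at hj
    have hcj : c (g j) = Γ i j • (e ^ 0) (g i) + Γ j j • (e ^ 0) (g j) +
        (Γ j j - Γ i i) • (e ^ 1) (g i) - Γ j i • (e ^ 1) (g j) - Γ j i • (e ^ 2) (g i) := by
      rw [map_add, map_smul, map_smul, map_add, he1 (g i), pow_pow_apply] at hj
      rw [← he0, ← he0, sub_smul, ← sub_eq_zero]
      rw [← sub_eq_zero] at hj
      rw [← hj, smul_add, smul_add]
      abel
    have hk : (e ^ μ j) (c (g j)) = 0 := by rw [← cen_pow hc, J.kill, map_zero]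
    rw [J.pow_eq_zero_iff] at hk
    have k0 := hk i 0 (by omega)
    have k1 := hk i 1 (by omega)
    have k2 := hk i 2 (by omega)
    rw [hcj] at k0 k1 k2
    simp only [map_add, map_sub, map_smul, J.co_gen, smul_eq_mul] at k0 k1 k2
    have hp0 : 0 < μ i := by omega
    have hp1 : 1 < μ i := by omega
    have hp2 : 2 < μ i := by omega
    simp [hij, hp0] at k0
    simp [hij, hp1] at k1
    simp [hij, hp2] at k2
    have hii : Γ i i = 0 := by
      have h6 : Γ j j = - Γ i i := by
        rw [eq_neg_iff_add_eq_zero, add_comm]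
        exact hΓ
      rw [h6] at k1
      have h7 : (2 : k) * Γ i i = 0 := by
        have : (2 : k) * Γ i i = -(-Γ i i - Γ i i) := by ring
        rw [this, k1, neg_zero]
      exact (mul_eq_zero.1 h7).resolve_left h2k
    have hjj : Γ j j = 0 := by
      rw [hii, zero_add] at hΓ
      exact hΓ
    apply J.cen_inj hc
    intro l
    rcases huniv l with rfl | rfl
    · rw [hi, hii, k2, zero_smul, zero_smul, add_zero]
    · rw [hcj, k0, hjj, hii, k2]
      simp

end Strange53
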