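import Pool.Agent.H53_Strange.Crit

/-!
# Strange orbits in `sl_n`: reduction to the range of a power
-/

set_option autoImplicit false
set_option linter.unusedSectionVars false

namespace Strange53

open Module

variable {k V : Type*} [Field k] [AddCommGroup V] [Module k V] [FiniteDimensional k V]

theorem strange_D {e : Module.End k V} {I : Type} [Fintype I] [DecidableEq I] {μ : I → ℕ}
    {g : I → V} (J : JB e μ g) {m : ℕ} (hm : ∀ i, m ≤ μ i)
    (hc : ∑ i, (μ i - m) ≤ Fintype.card I) (hS : SG (eW e m)) : SG e := by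
  classical
  let α := Σ i, Fin (μ i - m)
  have hcα : Fintype.card α = ∑ i, (μ i - m) := by simp [α]
  let P : Finset I := Finset.univ.filter fun i => m < μ i
  have hP : P.card ≤ Fintype.card α := by
    have h1 : P.card = ∑ i ∈ P, 1 := by simp
    rw [h1, hcα]
    calc ∑ i ∈ P, 1 ≤ ∑ i ∈ P, (μ i - m) := Finset.sum_le_sum fun i hi => by
          have := (Finset.mem_filter.1 hi).2
          omega
      _ ≤ ∑ i, (μ i - m) := Finset.sum_le_sum_of_subset (Finset.subset_univ _)
  obtain ⟨t, hPt, -, ht⟩ := Finset.exists_subsuperset_card_eq (Finset.subset_univ P) hP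
    (by rw [Finset.card_univ, hcα]; exact hc)
  obtain ⟨σ, hσ⟩ := Finset.exists_equiv_extend_of_card_eq (α := α) ht.symm
    (s := Finset.univ.filter fun x : α => (x.2 : ℕ) = 0) (f := fun x => x.1) (by
      intro i hi
      obtain ⟨x, -, rfl⟩ := Finset.mem_image.1 hi
      exact hPt (Finset.mem_filter.2 ⟨Finset.mem_univ _, by have := x.2.2; omega⟩)) (by
      rintro ⟨i, r⟩ hx ⟨j, s⟩ hy h
      have h1 := (Finset.mem_filter.1 (Finset.mem_coe.1 hx)).2
      have h2 := (Finset.mem_filter.1 (Finset.mem_coe.1 hy)).2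
      dsimp only at h h1 h2
      subst h
      rw [Fin.ext (h1.trans h2.symm)])
  have hσ' : ∀ x : α, (x.2 : ℕ) = 0 → (σ x : I) = x.1 := fun x hx =>
    hσ x (Finset.mem_filter.2 ⟨Finset.mem_univ _, hx⟩)
  have hτ : ∀ l : I, ∃ (a : k) (i : I) (r : ℕ), (a ≠ 0 → μ l = m ∧ m < μ i) ∧
      ∀ x : α, (σ x : I) = l → (e ^ m) (g l + a • (e ^ r) (g i)) = (e ^ (m + x.2)) (g x.1) := by
    intro l
    by_cases h : ∃ x : α, (σ x : I) = l ∧ (x.2 : ℕ) ≠ 0
    · obtain ⟨x, hx, hx2⟩ := h
      have hl : μ l = m := by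
        by_contra hcon
        have h1 : m < μ l := lt_of_le_of_ne (hm l) (Ne.symm hcon)
        have h2 := hσ' ⟨l, ⟨0, by omega⟩⟩ rfl
        have h3 : σ ⟨l, ⟨0, by omega⟩⟩ = σ x := Subtype.ext (h2.trans hx.symm)
        have h4 := σ.injective h3
        rw [← h4] at hx2
        exact hx2 rfl
      refine ⟨1, x.1, x.2, fun _ => ⟨hl, by have := x.2.2; omega⟩, fun y hy => ?_⟩
      have h3 : y = x := σ.injective (Subtype.ext (hy.trans hx.symm))
      subst h3
      rw [map_add, one_smul, J.kill_of_le (J.kill l) hl.le, zero_add, pow_pow_apply]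
    · push Not at h
      refine ⟨0, l, 0, fun h => absurd rfl h, fun y hy => ?_⟩
      have h1 := h y hy
      have h2 := hσ' y h1
      rw [zero_smul, add_zero, h1, add_zero, ← h2, hy]
  choose a i0 r0 ha hu using hτ
  let u : I → V := fun l => g l + a l • (e ^ r0 l) (g (i0 l))
  have hul : ∀ l, u l = g l + a l • (e ^ r0 l) (g (i0 l)) := fun l => rfl
  have hu' : ∀ x : α, (e ^ m) (u (σ x)) = (e ^ (m + x.2)) (g x.1) := fun x => hu _ x rfl
  have hug : ∀ l, m < μ l → u l = g l := by
    intro l hl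
    have h1 : a l = 0 := by
      by_contra h
      have := (ha l h).1
      omega
    rw [hul, h1, zero_smul, add_zero]
  let U : Submodule k V := Submodule.span k (Set.range u)
  have huU : ∀ l, u l ∈ U := fun l => Submodule.subset_span ⟨l, rfl⟩
  -- the section
  have hsurj : ∀ v : V, ∃ w ∈ U, (e ^ m) w = (e ^ m) v := by
    have h1 : (⊤ : Submodule k V) ≤ (U.map (e ^ m)).comap (e ^ m) := by
      rw [← J.b.span_eq, Submodule.span_le]
      rintro _ ⟨⟨i, r⟩, rfl⟩
      rw [SetLike.mem_coe, Submodule.mem_comap, J.hb, pow_pow_apply]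
      by_cases hr : (r : ℕ) < μ i - m
      · have h2 := hu' ⟨i, ⟨r, hr⟩⟩
        rw [← h2]
        exact Submodule.mem_map_of_mem (huU _)
      · rw [J.kill_of_le (J.kill i) (by omega)]
        exact Submodule.zero_mem _
    intro v
    have h2 : v ∈ (⊤ : Submodule k V) := trivial
    obtain ⟨w, hw, hwv⟩ := h1 h2
    exact ⟨w, hw, hwv⟩
  let q : U →ₗ[k] LinearMap.range (e ^ m) := (e ^ m).rangeRestrict ∘ₗ U.subtype
  have hq : LinearMap.range q = ⊤ := by
    rw [LinearMap.range_eq_top]
    rintro ⟨_, v, rfl⟩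
    obtain ⟨w, hw, hwv⟩ := hsurj v
    exact ⟨⟨w, hw⟩, Subtype.ext hwv⟩
  obtain ⟨s, hs⟩ := LinearMap.exists_rightInverse_of_surjective q hq
  refine crit_section (m := m) U (U.subtype ∘ₗ s) ?_ (fun w => (s w).2) ?_ ?_ hS
  · intro w
    have h1 := LinearMap.congr_fun hs w
    exact congrArg Subtype.val h1
  · -- the extension property
    intro ψ c' hc' hψ
    have hc1 : ∀ (r : ℕ) (w : LinearMap.range (e ^ m)), (e ^ r) (c' w).1 = (c' ((eW e m ^ r) w)).1 := by
      intro r w
      rw [cen_pow hc', eW_pow]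
    have hψg : ∀ l, m < μ l → (e ^ m) (ψ (g l)) = (c' ⟨(e ^ m) (g l), g l, rfl⟩).1 := by
      intro l hl
      have := hψ (g l) (hug l hl ▸ huU l)
      exact this
    obtain ⟨c, hc, hcg⟩ := J.exists_cen (w := fun l => ψ (u l) - a l • (e ^ r0 l) (ψ (g (i0 l)))) (by
      intro l
      by_cases hl : m < μ l
      · have h1 : a l = 0 := by
          by_contra h
          have := (ha l h).1
          omega
        obtain ⟨d, hd⟩ : ∃ d, μ l = d + m := ⟨μ l - m, by omega⟩
        rw [h1, zero_smul, sub_zero, hug l hl, hd, ← pow_pow_apply, hψg l hl, hc1]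
        have h2 : (eW e m ^ d) ⟨(e ^ m) (g l), g l, rfl⟩ = 0 := by
          apply Subtype.ext
          rw [eW_pow, pow_pow_apply, ← hd, J.kill]
          rfl
        rw [h2, map_zero]
        rfl
      · have hl' : μ l = m := le_antisymm (not_lt.1 hl) (hm l)
        rw [hl', map_sub, map_smul, hψ _ (huU l)]
        by_cases h0 : a l = 0
        · rw [h0, zero_smul, sub_zero]
          have h2 : (⟨(e ^ m) (u l), u l, rfl⟩ : LinearMap.range (e ^ m)) = 0 := by
            apply Subtype.ext
            change (e ^ m) (u l) = 0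
            rw [hul, h0, zero_smul, add_zero, J.kill_of_le (J.kill l) hl'.le]
          rw [h2, map_zero]
          rfl
        · obtain ⟨-, h1⟩ := ha l h0
          rw [pow_pow_apply, add_comm, ← pow_pow_apply, hψg _ h1, hc1]
          have h2 : (⟨(e ^ m) (u l), u l, rfl⟩ : LinearMap.range (e ^ m)) =
              a l • (eW e m ^ r0 l) ⟨(e ^ m) (g (i0 l)), g (i0 l), rfl⟩ := by
            apply Subtype.ext
            change (e ^ m) (u l) = a l • ((eW e m ^ r0 l) ⟨(e ^ m) (g (i0 l)), g (i0 l), rfl⟩).1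
            rw [hul, map_add, J.kill_of_le (J.kill l) hl'.le, zero_add, map_smul, eW_pow,
              pow_pow_apply, pow_pow_apply, add_comm]
          rw [h2, map_smul]
          exact sub_self _)
    have hcu : ∀ l, c (u l) = ψ (u l) := by
      intro l
      rw [hul l, map_add, map_smul, cen_pow hc, hcg, hcg, ← hul l]
      by_cases h0 : a l = 0
      · rw [h0, zero_smul, zero_smul, sub_zero, add_zero]
      · obtain ⟨-, h1⟩ := ha l h0
        have h2 : a (i0 l) = 0 := by
          by_contra h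
          have := (ha _ h).1
          omega
        rw [h2, zero_smul, sub_zero, hug _ h1, sub_add_cancel]
    refine ⟨c, hc, fun w hw => ?_⟩
    have h1 : Set.EqOn c ψ (Set.range u) := by
      rintro _ ⟨l, rfl⟩
      exact hcu l
    exact LinearMap.eqOn_span h1 hw
  · intro c hc hcU
    apply J.cen_inj hc
    have h1 : ∀ l, m < μ l → c (g l) = 0 := fun l hl => hug l hl ▸ hcU _ (huU l)
    intro l
    by_cases h0 : a l = 0
    · have h2 := hcU _ (huU l)
      rw [hul, h0, zero_smul, add_zero] at h2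
      exact h2
    · obtain ⟨-, h3⟩ := ha l h0
      have h2 := hcU _ (huU l)
      rw [hul, map_add, map_smul, cen_pow hc, h1 _ h3, map_zero, smul_zero, add_zero] at h2
      exact h2

end Strange53
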