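import Pool.Agent.H53_Strange.A2
import Pool.Agent.H53_Strange.Dstep

/-!
# Strange orbits in `sl_n`: a class of strange nilpotent elements
-/

set_option autoImplicit false
set_option linter.unusedSectionVars false

namespace Strange53

open Module

/-- the rank of `e ^ i` -/
noncomputable def rk {k V : Type*} [Field k] [AddCommGroup V] [Module k V] (e : Module.End k V)
    (i : ℕ) : ℕ := finrank k (LinearMap.range (e ^ i))

/-- for every size `i ≥ 1` of a Jordan block (of the nilpotent `e`) such that there is a block of
size at least `i + 3`, the rank of `e ^ i` is at most half of the rank of `e ^ (i - 1)` -/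
def ClassC {k V : Type*} [Field k] [AddCommGroup V] [Module k V] (e : Module.End k V) : Prop :=
  ∀ i, 1 ≤ i → rk e (i + 2) ≠ 0 → 2 * rk e i < rk e (i - 1) + rk e (i + 1) →
    2 * rk e i ≤ rk e (i - 1)

universe u

theorem rk_eW {k : Type*} {V : Type*} [Field k] [AddCommGroup V] [Module k V] (e : Module.End k V)
    (m i : ℕ) : rk (eW e m) i = rk e (m + i) := by
  unfold rk
  have h : (LinearMap.range (eW e m ^ i)).map (LinearMap.range (e ^ m)).subtype =
      LinearMap.range (e ^ (m + i)) := by
    ext v
    rw [Submodule.mem_map, LinearMap.mem_range]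
    constructor
    · rintro ⟨_, ⟨⟨_, w, rfl⟩, rfl⟩, rfl⟩
      refine ⟨w, ?_⟩
      rw [Submodule.subtype_apply, eW_pow, pow_pow_apply, add_comm]
    · rintro ⟨w, rfl⟩
      refine ⟨(eW e m ^ i) ⟨(e ^ m) w, w, rfl⟩, ⟨_, rfl⟩, ?_⟩
      rw [Submodule.subtype_apply, eW_pow, pow_pow_apply, add_comm]
  rw [← h]
  exact (LinearEquiv.finrank_eq (Submodule.equivMapOfInjective _ (Submodule.injective_subtype _) _))

theorem strange_aux {k : Type*} [Field k] (n : ℕ) : ∀ (V : Type u) [AddCommGroup V] [Module k V]
    [FiniteDimensional k V] (e : Module.End k V), finrank k V = n → IsNilpotent e → ClassC e →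
    SG e := by
  induction n using Nat.strong_induction_on with
  | _ n ih =>
    intro V _ _ _ e hn he hC
    classical
    obtain ⟨I, _, _, μ, g, ⟨J⟩⟩ := exists_jb e he
    rcases isEmpty_or_nonempty I with hI | hI
    · exact strange_A2 J (m := 0) (fun i => isEmptyElim i) id (fun i => isEmptyElim i)
        (fun i => isEmptyElim i)
    obtain ⟨i0, hi0⟩ := Finite.exists_min μ
    set m := μ i0 with hm
    have hm1 : 1 ≤ m := J.pos i0
    have hρ : ∀ s, rk e s = ∑ i, (μ i - s) := fun s => J.finrank_range s
    by_cases hc : rk e m ≤ Fintype.card I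
    · apply strange_D J hi0 (by rw [← hρ]; exact hc)
      have hlt : finrank k (LinearMap.range (e ^ m)) < n := by
        have h1 := hρ m
        have h2 := J.finrank_eq
        change finrank k (LinearMap.range (e ^ m)) = _ at h1
        rw [h1, ← hn, h2]
        exact Finset.sum_lt_sum (fun i _ => Nat.sub_le _ _)
          ⟨i0, Finset.mem_univ _, by omega⟩
      refine ih _ hlt _ (eW e m) rfl ?_ ?_
      · obtain ⟨N, hN⟩ := he
        refine ⟨N, ?_⟩
        ext w
        rw [eW_pow, hN]
        rfl
      · intro i hi h1 h2
        rw [rk_eW] at h1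
        rw [rk_eW, rk_eW, rk_eW] at h2
        rw [rk_eW, rk_eW]
        have e1 : m + (i - 1) = m + i - 1 := by omega
        rw [e1] at h2 ⊢
        exact hC (m + i) (by omega) h1 h2
    · -- the block sizes are `m`, `m + 1`, `m + 2`
      have hb1 : rk e (m - 1) = rk e m + Fintype.card I := by
        rw [hρ, hρ, ← Finset.card_univ, Finset.card_eq_sum_ones, ← Finset.sum_add_distrib]
        exact Finset.sum_congr rfl fun i _ => by have := hi0 i; omega
      have hb2 : 2 * rk e m < rk e (m - 1) + rk e (m + 1) := by
        rw [hρ, hρ, hρ, Finset.mul_sum, ← Finset.sum_add_distrib]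
        exact Finset.sum_lt_sum (fun i _ => by have := hi0 i; omega)
          ⟨i0, Finset.mem_univ _, by omega⟩
      have hz : rk e (m + 2) = 0 := by
        by_contra hne
        have := hC m hm1 hne hb2
        omega
      rw [hρ, Finset.sum_eq_zero_iff] at hz
      have hμ : ∀ i, μ i = m ∨ μ i = m + 1 ∨ μ i = m + 2 := by
        intro i
        have h1 := hz i (Finset.mem_univ i)
        have h2 := hi0 i
        omega
      have hcount : rk e m + (Finset.univ.filter fun i => μ i = m).card =
          Fintype.card I + (Finset.univ.filter fun i => μ i = m + 2).card := by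
        rw [hρ, Finset.card_filter, Finset.card_filter, ← Finset.card_univ,
          Finset.card_eq_sum_ones, ← Finset.sum_add_distrib, ← Finset.sum_add_distrib]
        refine Finset.sum_congr rfl fun i _ => ?_
        rcases hμ i with h | h | h <;> rw [h]
        · rw [if_pos rfl, if_neg (by omega)]
          omega
        · rw [if_neg (by omega), if_neg (by omega)]
          omega
        · rw [if_neg (by omega), if_pos rfl]
          omega
      have hle : Fintype.card {i // μ i = m} ≤ Fintype.card {i // μ i = m + 2} := by
        rw [Fintype.card_subtype, Fintype.card_subtype]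
        omega
      obtain ⟨f⟩ := Function.Embedding.nonempty_of_card_le hle
      refine strange_A2 J hμ (fun i => if h : μ i = m then (f ⟨i, h⟩).1 else i) ?_ ?_
      · intro i hi
        rw [dif_pos hi]
        exact (f ⟨i, hi⟩).2
      · intro i j hi hj h
        rw [dif_pos hi, dif_pos hj] at h
        exact congrArg Subtype.val (f.injective (Subtype.ext h))

/-- **the elements of the class are strange** -/
theorem strange_of_classC {k : Type*} [Field k] {V : Type*} [AddCommGroup V] [Module k V]
    [FiniteDimensional k V] {e : Module.End k V} (he : IsNilpotent e) (hC : ClassC e) : SG e :=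
  strange_aux _ V e rfl he hC

end Strange53
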