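import Mathlib

/-!
# Strange orbits in `sl_n`: Jordan bases
-/

set_option autoImplicit false
set_option linter.unusedSectionVars false

namespace Strange53

open Module Polynomial

variable {k : Type*} [Field k]

theorem exists_basis_adj (n : ℕ) :
    ∃ B : Basis (Fin n) k (AdjoinRoot (X ^ n : k[X])), ∀ r, B r = AdjoinRoot.mk _ (X ^ (r : ℕ)) := by
  have hm : (X ^ n : k[X]).Monic := monic_X_pow n
  let P := AdjoinRoot.powerBasis' hm
  have hd : P.dim = n := by
    change (X ^ n : k[X]).natDegree = n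
    exact natDegree_X_pow n
  refine ⟨P.basis.reindex (finCongr hd), fun r => ?_⟩
  rw [Basis.reindex_apply, PowerBasis.basis_eq_pow]
  change (AdjoinRoot.root (X ^ n : k[X])) ^ (r : ℕ) = _
  rw [← AdjoinRoot.mk_X, ← map_pow]

/-- the quotient of the polynomial ring -/
theorem exists_basis_quot (n : ℕ) :
    ∃ B : Basis (Fin n) k (k[X] ⧸ Submodule.span k[X] {(X : k[X]) ^ n}),
      ∀ r, B r = (X ^ (r : ℕ) : k[X]) • Submodule.Quotient.mk (1 : k[X]) := by
  obtain ⟨B, hB⟩ := exists_basis_adj (k := k) n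
  refine ⟨B, fun r => (hB r).trans ?_⟩
  rw [← Submodule.Quotient.mk_smul, smul_eq_mul, mul_one]
  rfl

theorem basis_apply {ι : Type*} [DecidableEq ι] {M : ι → Type*} {η : ι → Type*}
    [∀ i, AddCommGroup (M i)] [∀ i, Module k (M i)] (b : ∀ i, Basis (η i) k (M i)) (x : Σ i, η i) :
    DFinsupp.basis b x = DFinsupp.single x.1 (b x.1 x.2) := by
  classical
  rw [Basis.apply_eq_iff]
  change (sigmaFinsuppLequivDFinsupp k).symm
    (DFinsupp.mapRange.linearEquiv (fun i => (b i).repr) (DFinsupp.single x.1 (b x.1 x.2))) = _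
  rw [LinearEquiv.symm_apply_eq]
  change _ = sigmaFinsuppEquivDFinsupp (Finsupp.single x 1)
  rw [sigmaFinsuppEquivDFinsupp_single, DFinsupp.mapRange.linearEquiv_apply,
    DFinsupp.mapRange_single, Basis.repr_self]

variable {V : Type*} [AddCommGroup V] [Module k V] [FiniteDimensional k V]

theorem exists_jb0 (e : Module.End k V) (he : IsNilpotent e) :
    ∃ (d : ℕ) (μ : Fin d → ℕ) (g : Fin d → V) (b : Basis (Σ i, Fin (μ i)) k V),
      (∀ i, (e ^ μ i) (g i) = 0) ∧ ∀ x, b x = (e ^ (x.2 : ℕ)) (g x.1) := by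
  classical
  have hT : Module.IsTorsion' (Module.AEval' e) (Submonoid.powers (X : k[X])) := by
    obtain ⟨n, hn⟩ := he
    intro x
    refine ⟨⟨X ^ n, n, rfl⟩, ?_⟩
    obtain ⟨v, rfl⟩ := (Module.AEval'.of e).surjective x
    change (X ^ n : k[X]) • (Module.AEval'.of e v) = 0
    rw [Module.AEval'.X_pow_smul_of, hn]
    exact map_zero _
  obtain ⟨d, κ, ⟨f⟩⟩ := Module.torsion_by_prime_power_decomposition Polynomial.irreducible_X hT
  choose B hB using fun i => exists_basis_quot (k := k) (κ i)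
  let F : (Π₀ i : Fin d, k[X] ⧸ Submodule.span k[X] {(X : k[X]) ^ κ i}) ≃ₗ[k] V :=
    (f.symm.restrictScalars k).trans (Module.AEval'.of e).symm
  let s : ∀ i : Fin d, (k[X] ⧸ Submodule.span k[X] {(X : k[X]) ^ κ i}) →
      (Π₀ i : Fin d, k[X] ⧸ Submodule.span k[X] {(X : k[X]) ^ κ i}) := fun i x => DFinsupp.single i x
  have hs : ∀ i (p : k[X]) x, s i (p • x) = p • s i x := by
    intro i p x
    exact DFinsupp.single_smul _ _
  have hF : ∀ (n : ℕ) x, F ((X ^ n : k[X]) • x) = (e ^ n) (F x) := by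
    intro n x
    change (Module.AEval'.of e).symm (f.symm ((X ^ n : k[X]) • x)) = (e ^ n) ((Module.AEval'.of e).symm (f.symm x))
    rw [map_smul]
    apply (Module.AEval'.of e).injective
    rw [LinearEquiv.apply_symm_apply]
    have h1 := Module.AEval'.X_pow_smul_of e ((Module.AEval'.of e).symm (f.symm x)) n
    rw [LinearEquiv.apply_symm_apply] at h1
    exact h1
  refine ⟨d, κ, fun i => F (s i (Submodule.Quotient.mk 1)), (DFinsupp.basis B).map F, ?_, ?_⟩
  · intro i
    rw [← hF, ← hs, ← Submodule.Quotient.mk_smul, smul_eq_mul, mul_one]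
    have h1 : (Submodule.Quotient.mk ((X : k[X]) ^ κ i) : k[X] ⧸ Submodule.span k[X] {(X : k[X]) ^ κ i}) = 0 := by
      rw [Submodule.Quotient.mk_eq_zero]
      exact Submodule.mem_span_singleton_self _
    rw [h1]
    change F (DFinsupp.single i 0) = 0
    rw [DFinsupp.single_zero, map_zero]
  · rintro ⟨i, r⟩
    rw [Basis.map_apply, basis_apply, hB, ← hF, ← hs]

/-- a Jordan basis of `e`: the vectors `e ^ r (g i)`, `r < μ i` -/
structure JB (e : Module.End k V) {I : Type} [Fintype I] (μ : I → ℕ) (g : I → V) where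
  /-- the basis -/
  b : Basis (Σ i, Fin (μ i)) k V
  pos : ∀ i, 0 < μ i
  kill : ∀ i, (e ^ μ i) (g i) = 0
  hb : ∀ i (r : Fin (μ i)), b ⟨i, r⟩ = (e ^ (r : ℕ)) (g i)

theorem exists_jb (e : Module.End k V) (he : IsNilpotent e) :
    ∃ (I : Type) (_ : Fintype I) (_ : DecidableEq I) (μ : I → ℕ) (g : I → V), Nonempty (JB e μ g) := by
  classical
  obtain ⟨d, μ, g, b, h1, h2⟩ := exists_jb0 e he
  refine ⟨{i : Fin d // μ i ≠ 0}, inferInstance, inferInstance, fun i => μ i.1, fun i => g i.1, ⟨?_⟩⟩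
  let E : (Σ i : {i : Fin d // μ i ≠ 0}, Fin (μ i.1)) ≃ (Σ i : Fin d, Fin (μ i)) :=
    { toFun := fun x => ⟨x.1.1, x.2⟩
      invFun := fun x => ⟨⟨x.1, (Fin.pos x.2).ne'⟩, x.2⟩
      left_inv := fun x => rfl
      right_inv := fun x => rfl }
  exact
    { b := b.reindex E.symm
      pos := fun i => Nat.pos_of_ne_zero i.2
      kill := fun i => h1 i.1
      hb := fun i r => by
        rw [Basis.reindex_apply, Equiv.symm_symm]
        exact h2 _ }

end Strange53
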