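import Pool.Agent.H53_Strange.Gap
import Pool.Agent.H53_Strange.Jordan

/-!
# Strange orbits in `sl_n`: coordinates with respect to a Jordan basis
-/

set_option autoImplicit false
set_option linter.unusedSectionVars false

namespace Strange53

open Module

variable {k V : Type*} [Field k] [AddCommGroup V] [Module k V]

theorem cen_pow {e c : Module.End k V} (hc : c ∈ cen e) (r : ℕ) (v : V) :
    c ((e ^ r) v) = (e ^ r) (c v) := by
  have h : Commute e c := hc
  exact (LinearMap.congr_fun (h.pow_left r).eq v).symm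

theorem pow_pow_apply (e : Module.End k V) (r s : ℕ) (v : V) :
    (e ^ r) ((e ^ s) v) = (e ^ (r + s)) v := by
  rw [pow_add, Module.End.mul_apply]

variable [FiniteDimensional k V]

namespace JB

variable {e : Module.End k V} {I : Type} [Fintype I] [DecidableEq I] {μ : I → ℕ} {g : I → V}
  (J : JB e μ g)

include J

theorem kill_of_le {w : V} {i : I} (hw : (e ^ μ i) w = 0) {r : ℕ} (hr : μ i ≤ r) : (e ^ r) w = 0 := by
  obtain ⟨s, rfl⟩ := Nat.exists_eq_add_of_le hr
  rw [add_comm, ← pow_pow_apply, hw, map_zero]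

theorem exists_cen {w : I → V} (hw : ∀ i, (e ^ μ i) (w i) = 0) :
    ∃ c ∈ cen e, ∀ i, c (g i) = w i := by
  let c := J.b.constr k (fun x => (e ^ (x.2 : ℕ)) (w x.1))
  have hc : ∀ i (r : ℕ), c ((e ^ r) (g i)) = (e ^ r) (w i) := by
    intro i r
    by_cases hr : r < μ i
    · have := J.b.constr_basis k (fun x => (e ^ (x.2 : ℕ)) (w x.1)) ⟨i, ⟨r, hr⟩⟩
      rw [J.hb] at this
      exact this
    · rw [J.kill_of_le (J.kill i) (not_lt.1 hr), J.kill_of_le (hw i) (not_lt.1 hr), map_zero]
  refine ⟨c, ?_, fun i => by simpa using hc i 0⟩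
  rw [mem_cen]
  apply J.b.ext
  rintro ⟨i, r⟩
  have h1 : ∀ v : V, e v = (e ^ 1) v := fun v => by rw [pow_one]
  rw [Module.End.mul_apply, Module.End.mul_apply, J.hb, hc, h1, h1 ((e ^ (r : ℕ)) (g i)),
    pow_pow_apply, pow_pow_apply, hc]

theorem cen_inj {c : Module.End k V} (hc : c ∈ cen e) (h : ∀ i, c (g i) = 0) : c = 0 := by
  apply J.b.ext
  rintro ⟨i, r⟩
  rw [J.hb, cen_pow hc, h, map_zero, LinearMap.zero_apply]

/-- the coordinate at `e ^ r (g i)` -/
noncomputable def co (i : I) (r : ℕ) : V →ₗ[k] k := if h : r < μ i then J.b.coord ⟨i, ⟨r, h⟩⟩ else 0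

theorem co_gen (i j : I) (r s : ℕ) :
    J.co i r ((e ^ s) (g j)) = if i = j ∧ r = s ∧ s < μ j then 1 else 0 := by
  by_cases hs : s < μ j
  · have h1 : (e ^ s) (g j) = J.b ⟨j, ⟨s, hs⟩⟩ := by rw [J.hb]
    rw [h1]
    unfold co
    by_cases hr : r < μ i
    · rw [dif_pos hr, Basis.coord_apply, Basis.repr_self, Finsupp.single_apply]
      by_cases hij : i = j
      · subst hij
        by_cases hrs : r = s
        · subst hrs
          simp [hr]
        · have : (⟨i, ⟨s, hs⟩⟩ : Σ i, Fin (μ i)) ≠ ⟨i, ⟨r, hr⟩⟩ := by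
            intro h
            have h2 := eq_of_heq (Sigma.mk.inj h).2
            exact hrs (Fin.mk.inj h2).symm
          rw [if_neg this, if_neg (fun h => hrs h.2.1)]
      · have : (⟨j, ⟨s, hs⟩⟩ : Σ i, Fin (μ i)) ≠ ⟨i, ⟨r, hr⟩⟩ := by
          intro h
          exact hij (Sigma.mk.inj h).1.symm
        rw [if_neg this, if_neg (fun h => hij h.1)]
    · rw [dif_neg hr, LinearMap.zero_apply, if_neg]
      rintro ⟨rfl, rfl, h⟩
      exact hr h
  · rw [J.kill_of_le (J.kill j) (not_lt.1 hs), map_zero, if_neg (fun h => hs h.2.2)]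

theorem eq_zero_of_co {v : V} (h : ∀ i r, r < μ i → J.co i r v = 0) : v = 0 := by
  apply J.b.ext_elem
  rintro ⟨i, r⟩
  have h1 := h i r r.2
  unfold co at h1
  rw [dif_pos r.2] at h1
  rw [map_zero]
  exact h1

theorem co_of_le {i : I} {r : ℕ} (h : μ i ≤ r) (v : V) : J.co i r v = 0 := by
  unfold co
  rw [dif_neg (not_lt.2 h), LinearMap.zero_apply]

theorem co_pow_lt {i : I} {r s : ℕ} (h : r < s) (v : V) : J.co i r ((e ^ s) v) = 0 := by
  have h1 : J.co i r ∘ₗ (e ^ s) = 0 := by
    apply J.b.ext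
    rintro ⟨j, t⟩
    rw [LinearMap.comp_apply, J.hb, pow_pow_apply, J.co_gen, LinearMap.zero_apply, if_neg]
    rintro ⟨-, h1, -⟩
    omega
  exact LinearMap.congr_fun h1 v

theorem co_pow_add {i : I} {r s : ℕ} (h : r + s < μ i) (v : V) :
    J.co i (r + s) ((e ^ s) v) = J.co i r v := by
  have h1 : J.co i (r + s) ∘ₗ (e ^ s) = J.co i r := by
    apply J.b.ext
    rintro ⟨j, t⟩
    rw [LinearMap.comp_apply, J.hb, pow_pow_apply, J.co_gen, J.co_gen]
    by_cases hij : i = j
    · subst hij
      have ht := t.2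
      by_cases hrt : r = t
      · rw [if_pos ⟨rfl, by omega, by omega⟩, if_pos ⟨rfl, hrt, ht⟩]
      · rw [if_neg, if_neg (fun h => hrt h.2.1)]
        rintro ⟨-, h1, -⟩
        omega
    · rw [if_neg (fun h => hij h.1), if_neg (fun h => hij h.1)]
  exact LinearMap.congr_fun h1 v

theorem pow_eq_zero_iff {s : ℕ} {v : V} :
    (e ^ s) v = 0 ↔ ∀ i r, r + s < μ i → J.co i r v = 0 := by
  constructor
  · intro h i r hr
    rw [← J.co_pow_add hr, h, map_zero]
  · intro h
    apply J.eq_zero_of_co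
    intro i r hr
    by_cases hs : r < s
    · exact J.co_pow_lt hs v
    · obtain ⟨t, rfl⟩ := Nat.exists_eq_add_of_le (not_lt.1 hs)
      rw [add_comm, J.co_pow_add (by omega)]
      exact h i t (by omega)

theorem finrank_eq : finrank k V = ∑ i, μ i := by
  rw [Module.finrank_eq_card_basis J.b]
  simp

theorem finrank_range (s : ℕ) : finrank k (LinearMap.range (e ^ s)) = ∑ i, (μ i - s) := by
  let T : V →ₗ[k] ((Σ i, Fin (μ i - s)) → k) := LinearMap.pi fun x => J.co x.1 x.2
  have hT : Function.Surjective T := by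
    intro f
    refine ⟨∑ x : Σ i, Fin (μ i - s), f x • (e ^ (x.2 : ℕ)) (g x.1), ?_⟩
    funext x
    change J.co x.1 x.2 (∑ x : Σ i, Fin (μ i - s), f x • (e ^ (x.2 : ℕ)) (g x.1)) = f x
    rw [map_sum, Finset.sum_eq_single x]
    · rw [map_smul, J.co_gen, if_pos ⟨rfl, rfl, by have := x.2.2; omega⟩, smul_eq_mul, mul_one]
    · intro y _ hy
      rw [map_smul, J.co_gen, if_neg, smul_zero]
      rintro ⟨h1, h2, -⟩
      obtain ⟨i, r⟩ := x
      obtain ⟨j, t⟩ := y
      dsimp only at h1 h2
      subst h1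
      exact hy (by rw [Fin.ext h2.symm])
    · intro h
      exact absurd (Finset.mem_univ x) h
  have hker : LinearMap.ker T = LinearMap.ker (e ^ s) := by
    ext v
    rw [LinearMap.mem_ker, LinearMap.mem_ker, J.pow_eq_zero_iff]
    constructor
    · intro h i r hr
      exact congrFun h (⟨i, ⟨r, by omega⟩⟩ : Σ i, Fin (μ i - s))
    · intro h
      funext x
      exact h x.1 x.2 (by have := x.2.2; omega)
  have h1 := LinearMap.finrank_range_add_finrank_ker T
  have h2 := LinearMap.finrank_range_add_finrank_ker (e ^ s)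
  rw [LinearMap.range_eq_top.2 hT, finrank_top, hker, Module.finrank_fintype_fun_eq_card] at h1
  have h3 : Fintype.card (Σ i, Fin (μ i - s)) = ∑ i, (μ i - s) := by simp
  omega

theorem finrank_cen : finrank k (cen e) = ∑ i, finrank k (LinearMap.ker (e ^ μ i)) := by
  let T : cen e →ₗ[k] (∀ i, LinearMap.ker (e ^ μ i)) :=
    { toFun := fun c i => ⟨c.1 (g i), by rw [LinearMap.mem_ker, ← cen_pow c.2, J.kill, map_zero]⟩
      map_add' := fun c d => rfl
      map_smul' := fun a c => rfl }
  have hT : Function.Bijective T := by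
    constructor
    · rw [injective_iff_map_eq_zero]
      intro c hc
      refine Subtype.ext (J.cen_inj c.2 fun i => ?_)
      exact congrArg Subtype.val (congrFun hc i)
    · intro w
      obtain ⟨c, hc, h⟩ := J.exists_cen (w := fun i => (w i).1) (fun i => (w i).2)
      refine ⟨⟨c, hc⟩, ?_⟩
      funext i
      exact Subtype.ext (h i)
  rw [(LinearEquiv.ofBijective T hT).finrank_eq, Module.finrank_pi_fintype]

theorem finrank_ker (s : ℕ) :
    finrank k (LinearMap.ker (e ^ s)) = ∑ i, min (μ i) s := by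
  have h2 := LinearMap.finrank_range_add_finrank_ker (e ^ s)
  rw [J.finrank_range, J.finrank_eq] at h2
  have h3 : ∑ i, μ i = ∑ i, (μ i - s) + ∑ i, min (μ i) s := by
    rw [← Finset.sum_add_distrib]
    exact Finset.sum_congr rfl fun i _ => by omega
  omega

end JB

end Strange53
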