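import Pool.Agent.H53_Strange.Coord

/-!
# Strange orbits in `sl_n`: two criteria
-/

set_option autoImplicit false
set_option linter.unusedSectionVars false

namespace Strange53

open Module

variable {k V : Type*} [Field k] [AddCommGroup V] [Module k V]

/-- the endomorphisms which act on the vectors `u i` by a matrix in `L` -/
def actL {I : Type} [Fintype I] (u : I → V) (L : Submodule k (Matrix I I k)) :
    Submodule k (Module.End k V) where
  carrier := {x | ∃ Γ ∈ L, ∀ i, x (u i) = ∑ l, Γ l i • u l}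
  add_mem' := by
    rintro x y ⟨Γ, hΓ, hx⟩ ⟨Δ, hΔ, hy⟩
    refine ⟨Γ + Δ, L.add_mem hΓ hΔ, fun i => ?_⟩
    rw [LinearMap.add_apply, hx, hy, ← Finset.sum_add_distrib]
    exact Finset.sum_congr rfl fun l _ => by rw [Matrix.add_apply, add_smul]
  zero_mem' := ⟨0, L.zero_mem, fun i => by simp⟩
  smul_mem' := by
    rintro a x ⟨Γ, hΓ, hx⟩
    refine ⟨a • Γ, L.smul_mem a hΓ, fun i => ?_⟩
    rw [LinearMap.smul_apply, hx, Finset.smul_sum]
    exact Finset.sum_congr rfl fun l _ => by rw [Matrix.smul_apply, smul_smul, smul_eq_mul]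

theorem actL_mul {I : Type} [Fintype I] {u : I → V} {x y : Module.End k V} {Γ Δ : Matrix I I k}
    (hx : ∀ i, x (u i) = ∑ l, Γ l i • u l) (hy : ∀ i, y (u i) = ∑ l, Δ l i • u l) (i : I) :
    x (y (u i)) = ∑ l, (Γ * Δ) l i • u l := by
  rw [hy, map_sum]
  simp only [map_smul, hx, Finset.smul_sum, smul_smul]
  rw [Finset.sum_comm]
  refine Finset.sum_congr rfl fun l _ => ?_
  rw [Matrix.mul_apply, Finset.sum_smul]
  exact Finset.sum_congr rfl fun j _ => by rw [mul_comm]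

/-- the first criterion -/
theorem crit {I : Type} [Fintype I] {e : Module.End k V} (u : I → V)
    (L : Submodule k (Matrix I I k)) (hL : ∀ A ∈ L, ∀ B ∈ L, A * B - B * A ∈ L)
    (hex : ∀ y : I → V, ∃ c ∈ cen e, ∃ Γ ∈ L, ∀ i, y i = c (u i) + ∑ l, Γ l i • u l)
    (hun : ∀ c ∈ cen e, ∀ Γ ∈ L, (∀ i, c (u i) = ∑ l, Γ l i • u l) → c = 0) : SG e := by
  refine ⟨actL u L, ?_, ?_⟩
  · rintro x ⟨Γ, hΓ, hx⟩ y ⟨Δ, hΔ, hy⟩
    refine ⟨Γ * Δ - Δ * Γ, hL Γ hΓ Δ hΔ, fun i => ?_⟩
    rw [LinearMap.sub_apply, Module.End.mul_apply, Module.End.mul_apply, actL_mul hx hy,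
      actL_mul hy hx, ← Finset.sum_sub_distrib]
    exact Finset.sum_congr rfl fun l _ => by rw [Matrix.sub_apply, sub_smul]
  · constructor
    · rw [Submodule.disjoint_def]
      rintro c hc ⟨Γ, hΓ, h⟩
      exact hun c hc Γ hΓ h
    · rw [codisjoint_iff, eq_top_iff]
      rintro x -
      obtain ⟨c, hc, Γ, hΓ, h⟩ := hex fun i => x (u i)
      refine Submodule.mem_sup.2 ⟨c, hc, x - c, ⟨Γ, hΓ, fun i => ?_⟩, by abel⟩
      rw [LinearMap.sub_apply, h i]
      abel

/-- the restriction of `e` to the range of `e ^ m` -/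
def eW (e : Module.End k V) (m : ℕ) : Module.End k (LinearMap.range (e ^ m)) :=
  e.restrict (p := LinearMap.range (e ^ m)) (q := LinearMap.range (e ^ m)) (by
    rintro _ ⟨v, rfl⟩
    refine ⟨e v, ?_⟩
    rw [← Module.End.mul_apply, ← Module.End.mul_apply, ← pow_succ, ← pow_succ'])

theorem eW_apply (e : Module.End k V) (m : ℕ) (w : LinearMap.range (e ^ m)) :
    (eW e m w).1 = e w.1 := rfl

theorem eW_pow (e : Module.End k V) (m r : ℕ) (w : LinearMap.range (e ^ m)) :
    ((eW e m ^ r) w).1 = (e ^ r) w.1 := by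
  induction r with
  | zero => rfl
  | succ r ih => rw [pow_succ', Module.End.mul_apply, eW_apply, ih, pow_succ', Module.End.mul_apply]

/-- the second criterion -/
theorem crit_section {e : Module.End k V} {m : ℕ} (U : Submodule k V)
    (s : LinearMap.range (e ^ m) →ₗ[k] V) (hs : ∀ w, (e ^ m) (s w) = w.1) (hsU : ∀ w, s w ∈ U)
    (hext : ∀ (ψ : Module.End k V) (c' : Module.End k (LinearMap.range (e ^ m))),
      c' ∈ cen (eW e m) → (∀ u ∈ U, (e ^ m) (ψ u) = (c' ⟨(e ^ m) u, u, rfl⟩).1) →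
      ∃ c ∈ cen e, ∀ u ∈ U, c u = ψ u)
    (hinj : ∀ c ∈ cen e, (∀ u ∈ U, c u = 0) → c = 0) (hS : SG (eW e m)) : SG e := by
  obtain ⟨hW, hWB, hWC⟩ := hS
  set p : V →ₗ[k] LinearMap.range (e ^ m) := (e ^ m).rangeRestrict with hp
  have hpv : ∀ v, (p v).1 = (e ^ m) v := fun v => rfl
  have hps : ∀ w, p (s w) = w := fun w => Subtype.ext (hs w)
  let h : Submodule k (Module.End k V) :=
    { carrier := {x | (∀ u ∈ U, x u = s (p (x u))) ∧ p ∘ₗ x ∘ₗ s ∈ hW}
      add_mem' := by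
        rintro x y ⟨h1, h2⟩ ⟨h3, h4⟩
        refine ⟨fun u hu => ?_, ?_⟩
        · rw [LinearMap.add_apply, map_add, map_add, ← h1 u hu, ← h3 u hu]
        · have : p ∘ₗ (x + y) ∘ₗ s = p ∘ₗ x ∘ₗ s + p ∘ₗ y ∘ₗ s := by
            rw [LinearMap.add_comp, LinearMap.comp_add]
          rw [this]
          exact hW.add_mem h2 h4
      zero_mem' := by
        refine ⟨fun u _ => by simp, ?_⟩
        have : p ∘ₗ (0 : Module.End k V) ∘ₗ s = 0 := by
          rw [LinearMap.zero_comp, LinearMap.comp_zero]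
        rw [this]
        exact hW.zero_mem
      smul_mem' := by
        rintro a x ⟨h1, h2⟩
        refine ⟨fun u hu => ?_, ?_⟩
        · rw [LinearMap.smul_apply, map_smul, map_smul, ← h1 u hu]
        · have : p ∘ₗ (a • x) ∘ₗ s = a • (p ∘ₗ x ∘ₗ s) := by
            rw [LinearMap.smul_comp, LinearMap.comp_smul]
          rw [this]
          exact hW.smul_mem a h2 }
  have hmem : ∀ x, x ∈ h ↔ (∀ u ∈ U, x u = s (p (x u))) ∧ p ∘ₗ x ∘ₗ s ∈ hW := fun x => Iff.rfl
  have hmul : ∀ x ∈ h, ∀ y ∈ h, (∀ u ∈ U, (x * y) u = s (p ((x * y) u))) ∧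
      p ∘ₗ (x * y) ∘ₗ s = (p ∘ₗ x ∘ₗ s) * (p ∘ₗ y ∘ₗ s) := by
    rintro x ⟨h1, -⟩ y ⟨h3, -⟩
    refine ⟨fun u hu => ?_, ?_⟩
    · rw [Module.End.mul_apply, h3 u hu]
      exact h1 _ (hsU _)
    · ext w
      simp only [LinearMap.comp_apply, Module.End.mul_apply]
      rw [← h3 (s w) (hsU w)]
  refine ⟨h, ?_, ?_⟩
  · intro x hx y hy
    obtain ⟨h1, h2⟩ := hmul x hx y hy
    obtain ⟨h3, h4⟩ := hmul y hy x hx
    refine ⟨fun u hu => ?_, ?_⟩
    · rw [LinearMap.sub_apply, map_sub, map_sub, ← h1 u hu, ← h3 u hu]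
    · have h5 : p ∘ₗ (x * y - y * x) ∘ₗ s = p ∘ₗ (x * y) ∘ₗ s - p ∘ₗ (y * x) ∘ₗ s := by
        rw [LinearMap.sub_comp, LinearMap.comp_sub]
      rw [h5, h2, h4]
      exact hWB _ hx.2 _ hy.2
  · constructor
    · rw [Submodule.disjoint_def]
      rintro c hc ⟨h1, h2⟩
      have h3 : ∀ w : LinearMap.range (e ^ m), ((p ∘ₗ c ∘ₗ s) w).1 = c w.1 := by
        intro w
        rw [LinearMap.comp_apply, LinearMap.comp_apply, hpv, ← cen_pow hc, hs]
      have h4 : p ∘ₗ c ∘ₗ s ∈ cen (eW e m) := by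
        rw [mem_cen]
        ext w
        rw [Module.End.mul_apply, Module.End.mul_apply, eW_apply, h3, h3, eW_apply]
        exact LinearMap.congr_fun (mem_cen.1 hc) w.1
      have h5 : p ∘ₗ c ∘ₗ s = 0 := (Submodule.disjoint_def.1 hWC.disjoint) _ h4 h2
      apply hinj c hc
      intro u hu
      have h6 : p (c u) = 0 := by
        apply Subtype.ext
        rw [hpv, ← cen_pow hc]
        have h7 := h3 ⟨(e ^ m) u, u, rfl⟩
        rw [h5] at h7
        exact h7.symm
      rw [h1 u hu, h6, map_zero]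
    · rw [codisjoint_iff, eq_top_iff]
      rintro x -
      have hY : p ∘ₗ x ∘ₗ s ∈ cen (eW e m) ⊔ hW := by
        rw [hWC.sup_eq_top]
        trivial
      obtain ⟨c', hc', x', hx', hY⟩ := Submodule.mem_sup.1 hY
      let χ : Module.End k V := s ∘ₗ x' ∘ₗ p + s ∘ₗ p ∘ₗ x ∘ₗ (1 - s ∘ₗ p)
      have hχ : ∀ v, χ v = s (x' (p v)) + s (p (x (v - s (p v)))) := fun v => rfl
      obtain ⟨c, hc, hcu⟩ := hext (x - χ) c' hc' (fun u hu => by
        rw [← hpv, LinearMap.sub_apply, hχ, map_sub, map_add, hps, hps, map_sub, map_sub]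
        have h1 := LinearMap.congr_fun hY (p u)
        simp only [LinearMap.add_apply, LinearMap.comp_apply] at h1
        rw [← h1]
        have h2 : (⟨(e ^ m) u, u, rfl⟩ : LinearMap.range (e ^ m)) = p u := rfl
        rw [h2]
        congr 1
        abel)
      have h1 : ∀ u ∈ U, (x - c) u = χ u := by
        intro u hu
        rw [LinearMap.sub_apply, hcu u hu, LinearMap.sub_apply]
        abel
      refine Submodule.mem_sup.2 ⟨c, hc, x - c, ?_, by abel⟩
      rw [hmem]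
      constructor
      · intro u hu
        rw [h1 u hu, hχ, map_add, hps, hps, map_add]
      · have h2 : p ∘ₗ (x - c) ∘ₗ s = x' := by
          ext w
          rw [LinearMap.comp_apply, LinearMap.comp_apply, h1 _ (hsU w), hχ, map_add, hps, hps, hps,
            sub_self, map_zero, map_zero, add_zero]
        rw [h2]
        exact hx'

end Strange53
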