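import Pool.Agent.H53_Strange.Powers

/-!
# Strange orbits in `sl_n`: the centre of the centraliser
-/

set_option autoImplicit false
set_option linter.unusedSectionVars false

namespace Strange53

open Module Polynomial

variable {k V : Type*} [Field k] [AddCommGroup V] [Module k V]

theorem cen_aeval {e c : Module.End k V} (hc : c ∈ cen e) (p : k[X]) : Commute (aeval e p) c := by
  induction p using Polynomial.induction_on' with
  | add p q hp hq =>
    rw [map_add]
    exact hp.add_left hq
  | monomial n a =>
    rw [aeval_monomial]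
    have h : Commute e c := hc
    exact (Algebra.commute_algebraMap_left a c).mul_left (h.pow_left n)

theorem self_mem_cen (e : Module.End k V) : e ∈ cen e := by
  rw [mem_cen]

theorem isUnit_aeval {e : Module.End k V} (he : IsNilpotent e) {q : k[X]} (hq : q.coeff 0 ≠ 0) :
    IsUnit (aeval e q) := by
  have h1 : aeval e q = algebraMap k (Module.End k V) (q.coeff 0) + aeval e q.divX * e := by
    conv_lhs => rw [← divX_mul_X_add q]
    rw [map_add, map_mul, aeval_X, aeval_C, add_comm]
  rw [h1]
  have h2 : Commute (aeval e q.divX) e := cen_aeval (self_mem_cen e) _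
  have h3 : IsNilpotent (aeval e q.divX * e) := h2.isNilpotent_mul_left he
  exact h3.isUnit_add_left_of_commute ((IsUnit.mk0 _ hq).map _)
    (Algebra.commute_algebraMap_right _ _)

theorem rk_mul_unit {e u : Module.End k V} (hu : IsUnit u) (hc : Commute e u) (j i : ℕ) :
    rk (e ^ j * u) i = rk e (j * i) := by
  unfold rk
  have h1 : (e ^ j * u) ^ i = e ^ (j * i) * u ^ i := by
    rw [(hc.pow_left j).mul_pow, ← pow_mul]
  rw [h1]
  have h2 : Function.Surjective (u ^ i) := ((Module.End.isUnit_iff _).1 (hu.pow i)).2
  have h3 : LinearMap.range (e ^ (j * i) * u ^ i) = LinearMap.range (e ^ (j * i)) := by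
    rw [Module.End.mul_eq_comp, LinearMap.range_comp_of_range_eq_top]
    exact LinearMap.range_eq_top.2 h2
  rw [h3]

/-- the centraliser of `e u(e)`, `u(0) ≠ 0` -/
theorem cen_mul_unit {e : Module.End k V} (he : IsNilpotent e) {q : k[X]} (hq : q.coeff 0 ≠ 0) :
    cen (e * aeval e q) = cen e := by
  apply le_antisymm
  · intro c hc
    obtain ⟨N, hN⟩ := he
    have hcx : Commute c (e * aeval e q) := (show Commute (e * aeval e q) c from hc).symm
    have hqe : Commute e (aeval e q) := (cen_aeval (self_mem_cen e) q).symm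
    have key : ∀ d i, N ≤ i + d → ∀ p : k[X], Commute c (e ^ i * aeval e p) := by
      intro d
      induction d with
      | zero =>
        intro i hi p
        obtain ⟨s, rfl⟩ := Nat.exists_eq_add_of_le (show N ≤ i by omega)
        rw [pow_add, hN, zero_mul, zero_mul]
        exact Commute.zero_right c
      | succ d ih =>
        intro i hi p
        set a := p.coeff 0 / (q.coeff 0) ^ i with ha
        have h0 : (p - C a * q ^ i).coeff 0 = 0 := by
          rw [coeff_sub, coeff_C_mul, coeff_zero_eq_eval_zero (q ^ i), eval_pow,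
            ← coeff_zero_eq_eval_zero, ha, div_mul_cancel₀ _ (pow_ne_zero i hq), sub_self]
        obtain ⟨p', hp'⟩ := X_dvd_iff.2 h0
        have h1 : e ^ i * aeval e p = a • (e * aeval e q) ^ i + e ^ (i + 1) * aeval e p' := by
          have h2 : p = C a * q ^ i + X * p' := by
            rw [← hp']
            ring
          conv_lhs => rw [h2]
          rw [map_add, map_mul, map_mul, aeval_C, aeval_X, map_pow, mul_add, hqe.mul_pow, pow_succ,
            mul_assoc, Algebra.algebraMap_eq_smul_one, smul_mul_assoc, one_mul, mul_smul_comm]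
        rw [h1]
        exact ((hcx.pow_right i).smul_right a).add_right (ih (i + 1) (by omega) p')
    have h1 := key N 1 (by omega) 1
    rw [map_one, mul_one, pow_one] at h1
    exact h1.symm
  · intro c hc
    have h1 : Commute e c := hc
    exact h1.mul_left (cen_aeval hc q)

theorem SG_zero : SG (0 : Module.End k V) := by
  refine ⟨⊥, ?_, ?_⟩
  · intro x hx y hy
    rw [Submodule.mem_bot] at hx hy ⊢
    rw [hx, hy, mul_zero, sub_zero]
  · have h1 : cen (0 : Module.End k V) = ⊤ := by
      rw [eq_top_iff]
      intro x _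
      rw [mem_cen, zero_mul, mul_zero]
    rw [h1]
    exact isCompl_top_bot

variable [FiniteDimensional k V]

/-- the double centraliser theorem -/
theorem exists_poly {e : Module.End k V} (he : IsNilpotent e) {x : Module.End k V}
    (hx : ∀ c ∈ cen e, c * x = x * c) : ∃ p : k[X], x = aeval e p := by
  classical
  obtain ⟨I, _, _, μ, g, ⟨J⟩⟩ := exists_jb e he
  rcases isEmpty_or_nonempty I with hI | hI
  · exact ⟨0, J.b.ext fun i => isEmptyElim i.1⟩
  obtain ⟨i1, hi1⟩ := Finite.exists_max μ
  have hxa : ∀ c ∈ cen e, ∀ v, c (x v) = x (c v) := fun c hc v => LinearMap.congr_fun (hx c hc) v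
  have hcs : ∀ i, ∃ c ∈ cen e, ∀ j, c (g j) = if j = i1 then g i else 0 := by
    intro i
    refine J.exists_cen (w := fun j => if j = i1 then g i else 0) fun j => ?_
    by_cases hj : j = i1
    · rw [if_pos hj, hj]
      exact J.kill_of_le (J.kill i) (hi1 i)
    · rw [if_neg hj, map_zero]
  choose c hc hcg using hcs
  let T : k[X] →ₗ[k] V := LinearMap.applyₗ (g i1) ∘ₗ (aeval e : k[X] →ₐ[k] Module.End k V).toLinearMap
  have hT : ∀ p, T p = aeval e p (g i1) := fun p => rfl
  have h1 : ∀ v, c i1 v ∈ LinearMap.range T := by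
    have h2 : (⊤ : Submodule k V) ≤ (LinearMap.range T).comap (c i1) := by
      rw [← J.b.span_eq, Submodule.span_le]
      rintro _ ⟨⟨i, r⟩, rfl⟩
      rw [SetLike.mem_coe, Submodule.mem_comap, J.hb, cen_pow (hc i1), hcg]
      by_cases hi : i = i1
      · rw [if_pos hi]
        refine ⟨X ^ (r : ℕ), ?_⟩
        rw [hT, map_pow, aeval_X]
      · rw [if_neg hi, map_zero]
        exact Submodule.zero_mem _
    exact fun v => h2 trivial
  obtain ⟨p, hp⟩ := h1 (x (g i1))
  rw [hxa _ (hc i1), hcg, if_pos rfl, hT] at hp
  refine ⟨p, ?_⟩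
  rw [← sub_eq_zero]
  apply J.cen_inj
  · refine (cen e).sub_mem ?_ ?_
    · exact hx e (self_mem_cen e)
    · exact (cen_aeval (self_mem_cen e) p).symm
  · intro i
    have h2 : x (g i) = aeval e p (g i) := by
      have h3 : g i = c i (g i1) := by rw [hcg, if_pos rfl]
      rw [h3, ← hxa _ (hc i), ← hp]
      exact (LinearMap.congr_fun (cen_aeval (hc i) p).eq (g i1)).symm
    rw [LinearMap.sub_apply, h2, sub_self]

theorem trace_aeval [CharZero k] {e : Module.End k V} (he : IsNilpotent e) (p : k[X]) :
    LinearMap.trace k V (aeval e p) = p.coeff 0 * finrank k V := by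
  have h1 : aeval e p = aeval e p.divX * e + algebraMap k (Module.End k V) (p.coeff 0) := by
    conv_lhs => rw [← divX_mul_X_add p]
    rw [map_add, map_mul, aeval_X, aeval_C]
  have h2 : Commute (aeval e p.divX) e := cen_aeval (self_mem_cen e) _
  have h3 : IsNilpotent (aeval e p.divX * e) := h2.isNilpotent_mul_left he
  have h4 : LinearMap.trace k V (aeval e p.divX * e) = 0 :=
    (LinearMap.isNilpotent_trace_of_isNilpotent h3).eq_zero
  rw [h1, map_add, h4, zero_add, Algebra.algebraMap_eq_smul_one, map_smul, LinearMap.trace_one,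
    smul_eq_mul]

/-- **Q1** for `gl_n`, provided that the powers with exponent at least 2 are in the class -/
theorem q1_gl [CharZero k] {e x : Module.End k V} (he : IsNilpotent e)
    (hx : ∀ c ∈ cen e, c * x = x * c) (htr : LinearMap.trace k V x = 0)
    (hP : ∀ j, 2 ≤ j → ClassC (e ^ j)) (hS : SG e) : SG x := by
  by_cases hx0 : x = 0
  · rw [hx0]
    exact SG_zero
  obtain ⟨p, rfl⟩ := exists_poly he hx
  have hp0 : p ≠ 0 := by
    rintro rfl
    exact hx0 (map_zero _)
  obtain ⟨q, hq, hqd⟩ := exists_eq_pow_rootMultiplicity_mul_and_not_dvd p hp0 0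
  rw [C_0, sub_zero] at hq hqd
  rw [X_dvd_iff] at hqd
  set j := rootMultiplicity 0 p with hj
  have hu := isUnit_aeval he hqd
  have hqe : Commute e (aeval e q) := (cen_aeval (self_mem_cen e) q).symm
  have hxe : aeval e p = e ^ j * aeval e q := by
    rw [hq, map_mul, map_pow, aeval_X]
  rcases Nat.lt_or_ge j 2 with hj2 | hj2
  · rcases Nat.eq_zero_or_pos j with hj0 | hj0
    · exfalso
      rw [hj0, pow_zero, one_mul] at hq
      rw [trace_aeval he, hq] at htr
      have h1 : (finrank k V : k) = 0 := (mul_eq_zero.1 htr).resolve_left hqd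
      have h2 : finrank k V = 0 := by exact_mod_cast h1
      have h3 : Subsingleton V := Module.finrank_zero_iff.1 h2
      exact hx0 (LinearMap.ext fun v => Subsingleton.elim _ _)
    · have hj1 : j = 1 := by omega
      obtain ⟨h, hB, hC⟩ := hS
      refine ⟨h, hB, ?_⟩
      rw [hxe, hj1, pow_one, cen_mul_unit he hqd]
      exact hC
  · apply strange_of_classC
    · rw [hxe]
      have h1 : IsNilpotent (e ^ j) := he.pow_of_pos (by omega)
      exact (hqe.pow_left j).isNilpotent_mul_right h1
    · refine classC_congr (fun i => ?_) (hP j hj2)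
      rw [rk_pow, hxe, rk_mul_unit hu hqe]

end Strange53
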