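import Mathlib

/-!
# Strange orbits in `sl_n`: dimensions of stabilisers of lines and flags
-/

set_option autoImplicit false
set_option linter.unusedSectionVars false

namespace Strange53

open Module

variable {k V : Type*} [Field k] [AddCommGroup V] [Module k V]

/-- the endomorphisms that stabilise the line of `v` -/
def stabLine (k : Type*) {V : Type*} [Field k] [AddCommGroup V] [Module k V] (v : V) :
    Submodule k (Module.End k V) where
  carrier := {x | ∃ c : k, x v = c • v}
  add_mem' := by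
    rintro x y ⟨c, hc⟩ ⟨d, hd⟩
    exact ⟨c + d, by rw [LinearMap.add_apply, hc, hd, add_smul]⟩
  zero_mem' := ⟨0, by simp⟩
  smul_mem' := by
    rintro a x ⟨c, hc⟩
    exact ⟨a * c, by rw [LinearMap.smul_apply, hc, mul_smul]⟩

theorem mem_stabLine {v : V} {x : Module.End k V} : x ∈ stabLine k v ↔ ∃ c : k, x v = c • v := Iff.rfl

/-- the endomorphisms that stabilise the line of `v` and the subspace `W` -/
def stabFlag (v : V) (W : Submodule k V) : Submodule k (Module.End k V) where
  carrier := {x | (∃ c : k, x v = c • v) ∧ ∀ u ∈ W, x u ∈ W}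
  add_mem' := by
    rintro x y ⟨⟨c, hc⟩, hx⟩ ⟨⟨d, hd⟩, hy⟩
    exact ⟨⟨c + d, by rw [LinearMap.add_apply, hc, hd, add_smul]⟩, fun u hu => W.add_mem (hx u hu) (hy u hu)⟩
  zero_mem' := ⟨⟨0, by simp⟩, fun u _ => by simp⟩
  smul_mem' := by
    rintro a x ⟨⟨c, hc⟩, hx⟩
    exact ⟨⟨a * c, by rw [LinearMap.smul_apply, hc, mul_smul]⟩, fun u hu => W.smul_mem a (hx u hu)⟩

/-- the map with kernel `stabLine` -/
def lineMap (k : Type*) {V : Type*} [Field k] [AddCommGroup V] [Module k V] (v : V) :
    Module.End k V →ₗ[k] (V ⧸ Submodule.span k {v}) :=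
  (Submodule.span k {v}).mkQ ∘ₗ LinearMap.applyₗ v

theorem ker_lineMap (v : V) : LinearMap.ker (lineMap k v) = stabLine k v := by
  ext x
  rw [LinearMap.mem_ker, mem_stabLine]
  simp only [lineMap, LinearMap.comp_apply, LinearMap.applyₗ_apply_apply, Submodule.mkQ_apply,
    Submodule.Quotient.mk_eq_zero, Submodule.mem_span_singleton]
  exact ⟨fun ⟨c, hc⟩ => ⟨c, hc.symm⟩, fun ⟨c, hc⟩ => ⟨c, hc.symm⟩⟩

theorem exists_apply_eq {v : V} (hv : v ≠ 0) (u : V) : ∃ x : Module.End k V, x v = u := by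
  obtain ⟨f, hf⟩ := Module.Projective.exists_dual_eq_one k hv
  exact ⟨f.smulRight u, by rw [LinearMap.smulRight_apply, hf, one_smul]⟩

theorem range_lineMap {v : V} (hv : v ≠ 0) : LinearMap.range (lineMap k v) = ⊤ := by
  rw [LinearMap.range_eq_top]
  intro u
  obtain ⟨u', rfl⟩ := Submodule.mkQ_surjective _ u
  obtain ⟨x, hx⟩ := exists_apply_eq (k := k) hv u'
  exact ⟨x, by simp [lineMap, hx]⟩

variable [FiniteDimensional k V]

theorem finrank_stabLine {v : V} (hv : v ≠ 0) :
    finrank k (stabLine k v) + finrank k V = finrank k V ^ 2 + 1 := by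
  have h1 := LinearMap.finrank_range_add_finrank_ker (lineMap k v)
  rw [range_lineMap hv, ker_lineMap, finrank_top, Module.finrank_linearMap] at h1
  have h2 := Submodule.finrank_quotient_add_finrank (Submodule.span k {v})
  rw [finrank_span_singleton hv] at h2
  rw [sq]
  omega

/-- the restriction to `W` -/
def resMap (v : V) (W : Submodule k V) : stabLine k v →ₗ[k] (W →ₗ[k] V ⧸ W) where
  toFun x := W.mkQ ∘ₗ x.1 ∘ₗ W.subtype
  map_add' x y := by
    ext u
    simp
  map_smul' a x := by
    ext u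
    simp

theorem map_ker_resMap {v : V} {W : Submodule k V} :
    (LinearMap.ker (resMap v W)).map (stabLine k v).subtype = stabFlag v W := by
  ext x
  simp only [Submodule.mem_map, LinearMap.mem_ker, Submodule.subtype_apply, Subtype.exists,
    exists_and_right, exists_eq_right]
  constructor
  · rintro ⟨hx, h⟩
    refine ⟨hx, fun u hu => ?_⟩
    have h2 := LinearMap.congr_fun h ⟨u, hu⟩
    simpa [resMap] using h2
  · rintro ⟨hx, h⟩
    refine ⟨hx, ?_⟩
    ext u
    simpa [resMap] using h u.1 u.2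

theorem range_resMap {v : V} {W : Submodule k V} (hvW : v ∈ W) :
    LinearMap.range (resMap v W) =
      LinearMap.ker (LinearMap.applyₗ (⟨v, hvW⟩ : W) : (W →ₗ[k] V ⧸ W) →ₗ[k] V ⧸ W) := by
  ext ψ
  simp only [LinearMap.mem_range, LinearMap.mem_ker, LinearMap.applyₗ_apply_apply]
  constructor
  · rintro ⟨⟨x, c, hc⟩, rfl⟩
    simp [resMap, hc, hvW]
  · intro hψ
    obtain ⟨s, hs⟩ := LinearMap.exists_rightInverse_of_surjective W.mkQ (by simp)
    obtain ⟨x, hx⟩ := LinearMap.exists_extend (s ∘ₗ ψ)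
    have hxv : x v = 0 := by
      have := LinearMap.congr_fun hx ⟨v, hvW⟩
      simpa [hψ] using this
    refine ⟨⟨x, 0, by simp [hxv]⟩, ?_⟩
    change W.mkQ ∘ₗ x ∘ₗ W.subtype = ψ
    rw [hx, ← LinearMap.comp_assoc, hs, LinearMap.id_comp]

theorem finrank_stabFlag {v : V} (hv : v ≠ 0) {W : Submodule k V} (hvW : v ∈ W) :
    finrank k (stabFlag v W) + finrank k W * (finrank k V - finrank k W) + finrank k V =
      finrank k V ^ 2 + 1 + (finrank k V - finrank k W) := by
  have h0 := finrank_stabLine (k := k) hv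
  have h1 := LinearMap.finrank_range_add_finrank_ker (resMap v W)
  have h2 : finrank k (LinearMap.ker (resMap v W)) = finrank k (stabFlag v W) := by
    rw [← map_ker_resMap]
    exact (Submodule.finrank_map_subtype_eq _ _).symm
  have hv' : (⟨v, hvW⟩ : W) ≠ 0 := by
    intro h
    exact hv (congrArg Subtype.val h)
  have h3 := LinearMap.finrank_range_add_finrank_ker
    (LinearMap.applyₗ (⟨v, hvW⟩ : W) : (W →ₗ[k] V ⧸ W) →ₗ[k] V ⧸ W)
  have h4 : LinearMap.range (LinearMap.applyₗ (⟨v, hvW⟩ : W) : (W →ₗ[k] V ⧸ W) →ₗ[k] V ⧸ W) = ⊤ := by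
    rw [LinearMap.range_eq_top]
    intro u
    obtain ⟨f, hf⟩ := Module.Projective.exists_dual_eq_one k hv'
    exact ⟨f.smulRight u, by simp [hf]⟩
  have h5 := Submodule.finrank_quotient_add_finrank W
  have h6 : finrank k (V ⧸ W) = finrank k V - finrank k W := by omega
  rw [h4, finrank_top, Module.finrank_linearMap, h6, ← range_resMap hvW] at h3
  rw [h2] at h1
  omega

/-- the stabiliser of a line in a proper subspace which is not the line -/
theorem finrank_stabFlag_le {v : V} (hv : v ≠ 0) {W : Submodule k V} (hvW : v ∈ W)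
    (h1 : W ≠ Submodule.span k {v}) (h2 : W ≠ ⊤) :
    finrank k (stabFlag v W) + 2 * finrank k V ≤ finrank k V ^ 2 + 3 := by
  have h3 := finrank_stabFlag hv hvW
  have h4 : finrank k W < finrank k V := Submodule.finrank_lt h2
  have h5 : Submodule.span k {v} < W := lt_of_le_of_ne
    ((Submodule.span_singleton_le_iff_mem v W).2 hvW) (Ne.symm h1)
  have h6 := Submodule.finrank_lt_finrank_of_lt h5
  rw [finrank_span_singleton hv] at h6
  obtain ⟨a, ha⟩ : ∃ a, finrank k W = a + 2 := ⟨finrank k W - 2, by omega⟩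
  obtain ⟨b, hb⟩ : ∃ b, finrank k V = a + 2 + (b + 1) := ⟨finrank k V - (a + 3), by omega⟩
  have h7 : finrank k V - finrank k W = b + 1 := by omega
  rw [h7, ha] at h3
  have h8 : a + b + 1 ≤ (a + 1) * (b + 1) := by nlinarith
  have h9 : (a + 2) * (b + 1) = (a + 1) * (b + 1) + (b + 1) := by ring
  omega

end Strange53
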