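import Pool.Agent.H53_Strange.Irr

/-!
# Strange orbits in `sl_n`: the gap theorem
-/

set_option autoImplicit false
set_option linter.unusedSectionVars false

namespace Strange53

open Module

variable {k V : Type*} [Field k] [AddCommGroup V] [Module k V]

theorem exists_gen {E : Type*} [AddCommGroup E] [Module k E] (W : Submodule k E)
    (hA : finrank k W = 1) : ∃ v : W, v ≠ 0 ∧ ∀ w : W, ∃ c : k, c • v = w := by
  obtain ⟨v, hv, h⟩ := (finrank_eq_one_iff').1 hA
  exact ⟨v, hv, h⟩

/-- the stabiliser of a subspace -/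
def stabSub (W : Submodule k V) : Submodule k (Module.End k V) where
  carrier := {x | ∀ u ∈ W, x u ∈ W}
  add_mem' := fun {x y} hx hy u hu => W.add_mem (hx u hu) (hy u hu)
  zero_mem' := fun u _ => by simp
  smul_mem' := fun a x hx u hu => W.smul_mem a (hx u hu)

/-- the map with kernel `stabSub W` -/
def subMap (W : Submodule k V) : Module.End k V →ₗ[k] (W →ₗ[k] V ⧸ W) where
  toFun x := W.mkQ ∘ₗ x ∘ₗ W.subtype
  map_add' x y := by
    ext u
    simp
  map_smul' a x := by
    ext u
    simp

theorem ker_subMap (W : Submodule k V) : LinearMap.ker (subMap W) = stabSub W := by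
  ext x
  rw [LinearMap.mem_ker]
  constructor
  · intro h u hu
    have h2 := LinearMap.congr_fun h ⟨u, hu⟩
    simpa [subMap] using h2
  · intro h
    ext u
    simpa [subMap] using h u.1 u.2

theorem range_subMap (W : Submodule k V) : LinearMap.range (subMap W) = ⊤ := by
  rw [LinearMap.range_eq_top]
  intro ψ
  obtain ⟨s, hs⟩ := LinearMap.exists_rightInverse_of_surjective W.mkQ (by simp)
  obtain ⟨x, hx⟩ := LinearMap.exists_extend (s ∘ₗ ψ)
  refine ⟨x, ?_⟩
  change W.mkQ ∘ₗ x ∘ₗ W.subtype = ψ
  rw [hx, ← LinearMap.comp_assoc, hs, LinearMap.id_comp]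

variable [FiniteDimensional k V]

theorem finrank_stabSub (W : Submodule k V) :
    finrank k (stabSub W) + finrank k W * (finrank k V - finrank k W) = finrank k V ^ 2 := by
  have h1 := LinearMap.finrank_range_add_finrank_ker (subMap W)
  rw [range_subMap, ker_subMap, finrank_top, Module.finrank_linearMap, Module.finrank_linearMap] at h1
  have h5 := Submodule.finrank_quotient_add_finrank W
  have h6 : finrank k (V ⧸ W) = finrank k V - finrank k W := by omega
  rw [h6] at h1
  rw [sq]
  omega

/-- the transpose -/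
theorem transpose_injective :
    Function.Injective (Module.Dual.transpose (R := k) (M := V) (M' := V)) := by
  intro x y h
  ext v
  have h2 : ∀ f : Dual k V, f (x v - y v) = 0 := by
    intro f
    have h3 := LinearMap.congr_fun (LinearMap.congr_fun h f) v
    simp only [Module.Dual.transpose_apply, LinearMap.comp_apply] at h3
    rw [map_sub, h3, sub_self]
  exact sub_eq_zero.1 ((Module.forall_dual_apply_eq_zero_iff k _).1 h2)

theorem transpose_bracket (x y : Module.End k V) :
    (Module.Dual.transpose (R := k) x : Module.End k (Dual k V)) * Module.Dual.transpose (R := k) y -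
      Module.Dual.transpose (R := k) y * Module.Dual.transpose (R := k) x =
      Module.Dual.transpose (R := k) (y * x - x * y) := by
  ext f v
  simp [Module.Dual.transpose_apply, Module.End.mul_apply]

/-- **Lemma M** for hyperplanes -/
theorem finrank_of_hyperplane [CharZero k] {q : Submodule k (Module.End k V)} (hq : BClosed q)
    (h1 : (1 : Module.End k V) ∈ q) {W : Submodule k V} (hW : finrank k W + 1 = finrank k V)
    (hs : q ≤ stabSub W)
    (hd : finrank k V ^ 2 + 4 ≤ finrank k q + 2 * finrank k V) :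
    finrank k V ^ 2 ≤ finrank k q + finrank k V := by
  let T : Module.End k V →ₗ[k] Module.End k (Dual k V) := Module.Dual.transpose (R := k)
  have hTi : Function.Injective T := transpose_injective
  have hT : ∀ (x : Module.End k V) (f : Dual k V), T x f = f ∘ₗ x := fun x f => rfl
  have hq' : finrank k (q.map T) = finrank k q :=
    (LinearEquiv.finrank_eq (Submodule.equivMapOfInjective T hTi q)).symm
  have hdim : finrank k (Dual k V) = finrank k V := Subspace.dual_finrank_eq
  have hA : finrank k W.dualAnnihilator = 1 := by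
    have := Subspace.finrank_add_finrank_dualAnnihilator_eq W
    omega
  obtain ⟨φ, hφ0, hφ⟩ := exists_gen W.dualAnnihilator hA
  have hφ1 : φ.1 ≠ 0 := fun h => hφ0 (Subtype.ext h)
  have h3 := finrank_of_line (k := k) (V := Dual k V) (q := q.map T) ?_ ?_ hφ1 ?_ ?_
  · rw [hdim, hq'] at h3
    exact h3
  · rintro _ ⟨x, hx, rfl⟩ _ ⟨y, hy, rfl⟩
    rw [transpose_bracket]
    exact Submodule.mem_map_of_mem (hq _ hy _ hx)
  · refine ⟨1, h1, ?_⟩
    ext f v
    rfl
  · rintro _ ⟨x, hx, rfl⟩
    rw [mem_stabLine]
    have h4 : T x φ.1 ∈ W.dualAnnihilator := by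
      rw [Submodule.mem_dualAnnihilator]
      intro u hu
      rw [hT, LinearMap.comp_apply]
      exact (Submodule.mem_dualAnnihilator _).1 φ.2 _ (hs hx u hu)
    obtain ⟨c, hc⟩ := hφ ⟨_, h4⟩
    exact ⟨c, (congrArg Subtype.val hc).symm⟩
  · rw [hdim, hq']
    exact hd

/-- subalgebras which contain `1`, have a stable subspace and a small codimension -/
theorem finrank_of_stable [CharZero k] {q : Submodule k (Module.End k V)} (hq : BClosed q)
    (h1 : (1 : Module.End k V) ∈ q) {W : Submodule k V} (hW0 : W ≠ ⊥) (hW1 : W ≠ ⊤)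
    (hs : q ≤ stabSub W)
    (hd : finrank k V ^ 2 + 4 ≤ finrank k q + 2 * finrank k V) :
    finrank k V ^ 2 ≤ finrank k q + finrank k V ∨
      ((finrank k W = 2 ∨ finrank k W + 2 = finrank k V) ∧ q = stabSub W ∧
        finrank k V ^ 2 + 4 = finrank k q + 2 * finrank k V) := by
  have h2 : finrank k W < finrank k V := Submodule.finrank_lt hW1
  have h3 : finrank k W ≠ 0 := fun h => hW0 (Submodule.finrank_eq_zero.1 h)
  by_cases hw1 : finrank k W = 1
  · left
    obtain ⟨v, hv0, hv⟩ := exists_gen W hw1
    refine finrank_of_line hq h1 (v := v.1) (fun h => hv0 (Subtype.ext h)) ?_ hd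
    intro x hx
    obtain ⟨c, hc⟩ := hv ⟨_, hs hx v.1 v.2⟩
    exact ⟨c, (congrArg Subtype.val hc).symm⟩
  by_cases hw2 : finrank k W + 1 = finrank k V
  · exact Or.inl (finrank_of_hyperplane hq h1 hw2 hs hd)
  right
  have h4 := finrank_stabSub W
  have h5 := Submodule.finrank_mono hs
  obtain ⟨a, ha⟩ : ∃ a, finrank k W = a + 2 := ⟨finrank k W - 2, by omega⟩
  obtain ⟨b, hb⟩ : ∃ b, finrank k V = a + 2 + (b + 2) := ⟨finrank k V - (a + 4), by omega⟩
  have h7 : finrank k V - finrank k W = b + 2 := by omega
  rw [h7, ha] at h4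
  have h8 : (a + 2) * (b + 2) = a * b + 2 * (a + b) + 4 := by ring
  have h9 : a * b = 0 := by omega
  refine ⟨?_, Submodule.eq_of_le_of_finrank_le hs (by omega), by omega⟩
  rcases Nat.mul_eq_zero.1 h9 with h | h <;> omega

/-- **Gap theorem**, precise form -/
theorem gap' [IsAlgClosed k] [CharZero k] {e : Module.End k V} (hS : SG e) :
    finrank k (cen e) ≤ finrank k V + 1 ∨ 2 * finrank k V ≤ finrank k (cen e) + 2 ∨
      (2 * finrank k V = finrank k (cen e) + 3 ∧ ∃ W : Submodule k V,
        (finrank k W = 2 ∨ finrank k W + 2 = finrank k V) ∧ cen e ⊔ stabSub W = ⊤) := by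
  by_contra hcon
  push Not at hcon
  obtain ⟨hc1, hc2, hc3⟩ := hcon
  obtain ⟨h, hh, hc⟩ := hS
  have hpos : 0 < finrank k V := by omega
  have : Nontrivial V := Module.finrank_pos_iff.1 hpos
  have hE : finrank k (Module.End k V) = finrank k V ^ 2 := by
    rw [Module.finrank_linearMap, sq]
  have hsum := Submodule.finrank_add_eq_of_isCompl hc
  rw [hE] at hsum
  obtain ⟨W, hW, hW0, hW1⟩ : ∃ W : Submodule k V, (∀ x ∈ h, ∀ w ∈ W, x w ∈ W) ∧ W ≠ ⊥ ∧ W ≠ ⊤ := by
    by_contra hcon
    push Not at hcon
    have h1 := eq_bot_of_irreducible hh hc (fun W hW => by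
      by_cases hW0 : W = ⊥
      · exact Or.inl hW0
      · exact Or.inr (hcon W hW hW0))
    rw [h1, finrank_bot] at hsum
    nlinarith
  let q : Submodule k (Module.End k V) := h ⊔ Submodule.span k {1}
  have h1q : (1 : Module.End k V) ∈ q :=
    Submodule.mem_sup_right (Submodule.mem_span_singleton_self 1)
  have hqB : BClosed q := by
    intro x hx y hy
    obtain ⟨x1, hx1, x2, hx2, rfl⟩ := Submodule.mem_sup.1 hx
    obtain ⟨y1, hy1, y2, hy2, rfl⟩ := Submodule.mem_sup.1 hy
    obtain ⟨a, rfl⟩ := Submodule.mem_span_singleton.1 hx2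
    obtain ⟨b, rfl⟩ := Submodule.mem_span_singleton.1 hy2
    have h2 : (x1 + a • (1 : Module.End k V)) * (y1 + b • 1) - (y1 + b • 1) * (x1 + a • 1) =
        x1 * y1 - y1 * x1 := by
      ext v
      simp only [LinearMap.sub_apply, Module.End.mul_apply, LinearMap.add_apply,
        LinearMap.smul_apply, Module.End.one_apply, map_add, map_smul, smul_add, smul_smul]
      rw [mul_comm b a]
      abel
    rw [h2]
    exact Submodule.mem_sup_left (hh _ hx1 _ hy1)
  have hqs : q ≤ stabSub W := by
    refine sup_le (fun x hx u hu => hW x hx u hu) ?_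
    rw [Submodule.span_singleton_le_iff_mem]
    exact fun u hu => hu
  have h1ne : (1 : Module.End k V) ≠ 0 := one_ne_zero
  have hinf : h ⊓ Submodule.span k {(1 : Module.End k V)} = ⊥ := by
    rw [eq_bot_iff, ← hc.inf_eq_bot]
    rintro x ⟨hx1, hx2⟩
    refine ⟨?_, hx1⟩
    obtain ⟨a, rfl⟩ := Submodule.mem_span_singleton.1 hx2
    exact (cen e).smul_mem a (one_mem_cen e)
  have hqf : finrank k q = finrank k h + 1 := by
    have h2 := Submodule.finrank_sup_add_finrank_inf_eq h (Submodule.span k {(1 : Module.End k V)})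
    rw [hinf, finrank_bot, finrank_span_singleton h1ne] at h2
    exact h2
  rcases finrank_of_stable hqB h1q hW0 hW1 hqs (by omega) with h3 | ⟨h3, h4, h5⟩
  · omega
  · apply hc3 (by omega) W h3
    rw [← h4, eq_top_iff, ← hc.sup_eq_top]
    exact sup_le_sup_left le_sup_left _

/-- **Gap theorem**: the dimension of the centraliser of a strange element of `gl_n` is not in the
interval from `n + 2` to `2 n - 4` -/
theorem gap [IsAlgClosed k] [CharZero k] {e : Module.End k V} (hS : SG e) :
    finrank k (cen e) ≤ finrank k V + 1 ∨ 2 * finrank k V ≤ finrank k (cen e) + 3 := by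
  rcases gap' hS with h | h | h
  · exact Or.inl h
  · exact Or.inr (by omega)
  · exact Or.inr h.1.le

end Strange53
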