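import Pool.Agent.H53_Strange.LemL

/-!
# Strange orbits in `sl_n`: a complementary subalgebra is reducible
-/

set_option autoImplicit false
set_option linter.unusedSectionVars false

namespace Strange53

open Module

variable {k V : Type*} [Field k] [AddCommGroup V] [Module k V]

/-- the centraliser in `gl(V)` -/
def cen (e : Module.End k V) : Submodule k (Module.End k V) where
  carrier := {x | e * x = x * e}
  add_mem' := by
    intro x y (hx : e * x = x * e) (hy : e * y = y * e)
    change e * (x + y) = (x + y) * e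
    rw [mul_add, add_mul, hx, hy]
  zero_mem' := by
    change e * 0 = 0 * e
    rw [mul_zero, zero_mul]
  smul_mem' := by
    intro a x (hx : e * x = x * e)
    change e * (a • x) = (a • x) * e
    rw [mul_smul_comm, smul_mul_assoc, hx]

theorem mem_cen {e x : Module.End k V} : x ∈ cen e ↔ e * x = x * e := Iff.rfl

theorem one_mem_cen (e : Module.End k V) : (1 : Module.End k V) ∈ cen e := by
  rw [mem_cen, mul_one, one_mul]

/-- `x` is strange in `gl(V)` -/
def SG (e : Module.End k V) : Prop :=
  ∃ h : Submodule k (Module.End k V), BClosed h ∧ IsCompl (cen e) h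

variable [FiniteDimensional k V]

theorem eq_zero_of_trace {a : Module.End k V} (h : ∀ y : Module.End k V, LinearMap.trace k V (a * y) = 0) :
    a = 0 := by
  ext v
  rw [LinearMap.zero_apply]
  by_contra hne
  obtain ⟨f, hf⟩ := Module.Projective.exists_dual_eq_one k hne
  have h1 := h (f.smulRight v)
  have h2 : a * f.smulRight v = f.smulRight (a v) := by
    ext u
    simp [Module.End.mul_apply]
  rw [h2, LinearMap.trace_smulRight, hf] at h1
  exact one_ne_zero h1

/-- the form `tr(e [x, y])` is nondegenerate on a complement of the centraliser -/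
theorem form_nondeg {e : Module.End k V} {h : Submodule k (Module.End k V)}
    (hc : IsCompl (cen e) h) {x : Module.End k V} (hx : x ∈ h)
    (ht : ∀ y ∈ h, LinearMap.trace k V (e * (x * y - y * x)) = 0) : x = 0 := by
  have h1 : e * x - x * e = 0 := by
    apply eq_zero_of_trace
    intro y
    have hy : y ∈ cen e ⊔ h := by rw [hc.sup_eq_top]; trivial
    obtain ⟨y1, hy1, y2, hy2, rfl⟩ := Submodule.mem_sup.1 hy
    rw [mem_cen] at hy1
    have h2 : LinearMap.trace k V (x * (e * y1)) = LinearMap.trace k V (x * (y1 * e)) := by rw [hy1]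
    have h3 := ht y2 hy2
    have h4 : LinearMap.trace k V ((e * x) * y1) = LinearMap.trace k V (x * (y1 * e)) := by
      rw [mul_assoc, LinearMap.trace_mul_comm, mul_assoc]
    have h5 : LinearMap.trace k V ((x * e) * y1) = LinearMap.trace k V (x * (e * y1)) := by
      rw [mul_assoc]
    have h6 : LinearMap.trace k V ((x * e) * y2) = LinearMap.trace k V (e * (y2 * x)) := by
      rw [mul_assoc, LinearMap.trace_mul_comm, mul_assoc]
    rw [mul_sub, map_sub, sub_eq_zero] at h3
    rw [mul_add, map_add, sub_mul, sub_mul, map_sub, map_sub, h4, h5, h2, h6, sub_self, zero_add,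
      mul_assoc, h3, sub_self]
  have h2 : x ∈ cen e ⊓ h := ⟨mem_cen.2 (sub_eq_zero.1 h1), hx⟩
  rwa [hc.inf_eq_bot, Submodule.mem_bot] at h2

attribute [local instance 100] LieRing.ofAssociativeRing

/-- closed submodules as Lie subalgebras -/
def toLie (h : Submodule k (Module.End k V)) (hh : BClosed h) :
    LieSubalgebra k (Module.End k V) :=
  { h with lie_mem' := fun {x y} hx hy => hh x hx y hy }

theorem mem_toLie {h : Submodule k (Module.End k V)} {hh : BClosed h} {x : Module.End k V} :
    x ∈ toLie h hh ↔ x ∈ h := Iff.rfl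

/-- **the irreducible case** -/
theorem eq_bot_of_irreducible [IsAlgClosed k] [CharZero k] [Nontrivial V] {e : Module.End k V}
    {h : Submodule k (Module.End k V)} (hh : BClosed h) (hc : IsCompl (cen e) h)
    (hirr : ∀ W : Submodule k V, (∀ x ∈ h, ∀ w ∈ W, x w ∈ W) → W = ⊥ ∨ W = ⊤) : h = ⊥ := by
  let L := toLie h hh
  have : LieModule.IsIrreducible k L V := by
    apply LieModule.IsIrreducible.mk
    intro N hN
    rcases hirr N.toSubmodule (fun x hx w hw => N.lie_mem (x := (⟨x, hx⟩ : L)) hw) with h1 | h1
    · exact absurd ((LieSubmodule.toSubmodule_eq_bot N).1 h1) hN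
    · exact (LieSubmodule.toSubmodule_eq_top N).1 h1
  obtain ⟨hcr, hcen⟩ := LieAlgebra.hasCentralRadical_and_of_isIrreducible_of_isFaithful k L V
  have hcb : ∀ x : L, x ∈ LieAlgebra.center k L → x = 0 := by
    intro x hx
    obtain ⟨c, hc1⟩ := Submodule.mem_span_singleton.1 ((hcen x).1 hx)
    have h1 : x.1 = c • (1 : Module.End k V) := by
      ext v
      exact (LinearMap.congr_fun hc1 v).symm
    have h2 : x.1 ∈ cen e ⊓ h := ⟨h1 ▸ (cen e).smul_mem c (one_mem_cen e), x.2⟩
    rw [hc.inf_eq_bot, Submodule.mem_bot] at h2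
    exact Subtype.ext h2
  have : LieAlgebra.HasTrivialRadical k L := by
    rw [LieAlgebra.hasTrivialRadical_iff, (LieAlgebra.hasCentralRadical_iff k L).mp hcr,
      LieSubmodule.eq_bot_iff]
    exact hcb
  -- the functional
  let f : L →ₗ[k] k := LinearMap.trace k V ∘ₗ LinearMap.mulLeft k e ∘ₗ h.subtype
  have hf : ∀ z : L, f z = LinearMap.trace k V (e * z.1) := fun z => rfl
  obtain ⟨u, hu⟩ : ∃ u : L, ∀ z, killingForm k L u z = f z := by
    refine ⟨(LinearMap.BilinForm.toDual (killingForm k L)
      (LieAlgebra.IsKilling.killingForm_nondegenerate k L)).symm f, fun z => ?_⟩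
    rw [← LinearMap.BilinForm.toDual_def (LieAlgebra.IsKilling.killingForm_nondegenerate k L),
      LinearEquiv.apply_symm_apply]
  have hu0 : u.1 = 0 := by
    apply form_nondeg hc u.2
    intro y hy
    have h1 := hu ⁅u, (⟨y, hy⟩ : L)⁆
    have h2 := LieModule.traceForm_apply_lie_apply k L L u u (⟨y, hy⟩ : L)
    rw [lie_self, map_zero, LinearMap.zero_apply] at h2
    have h3 : killingForm k L u ⁅u, (⟨y, hy⟩ : L)⁆ = 0 := h2.symm
    rw [h3, hf] at h1
    exact h1.symm
  have hu1 : u = 0 := Subtype.ext hu0
  rw [eq_bot_iff]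
  intro x hx
  rw [Submodule.mem_bot]
  apply form_nondeg hc hx
  intro y hy
  have h1 := hu ⁅(⟨x, hx⟩ : L), (⟨y, hy⟩ : L)⁆
  rw [hu1, map_zero, LinearMap.zero_apply, hf] at h1
  exact h1.symm

end Strange53
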