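import Pool.Agent.H53_Strange.Line

/-!
# Strange orbits in `sl_n`: subalgebras of small codimension
-/

set_option autoImplicit false
set_option linter.unusedSectionVars false

namespace Strange53

open Module

variable {k V : Type*} [Field k] [AddCommGroup V] [Module k V] [FiniteDimensional k V]

/-- two subspaces of `U` -/
theorem finrank_add_le {E : Type*} [AddCommGroup E] [Module k E] [FiniteDimensional k E]
    (A B U : Submodule k E) (hA : A ≤ U) (hB : B ≤ U) :
    finrank k A + finrank k B ≤ finrank k U + finrank k (A ⊓ B : Submodule k E) := by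
  have h1 := Submodule.finrank_sup_add_finrank_inf_eq A B
  have h2 : finrank k (A ⊔ B : Submodule k E) ≤ finrank k U :=
    Submodule.finrank_mono (sup_le hA hB)
  omega

/-- if the common kernel of `zet q v` is always the line of `v`, then `q` is everything -/
theorem eq_top_of_nil1 [CharZero k] {q : Submodule k (Module.End k V)} (hq : BClosed q)
    (h1 : (1 : Module.End k V) ∈ q) (hn : ∀ v : V, v ≠ 0 → ∀ ζ : Dual k V, ζ v = 0 → ζ.smulRight v ∈ q) :
    q = ⊤ := by
  classical
  let b := Module.finBasis k V
  have hij : ∀ i j, i ≠ j → (b.coord j).smulRight (b i) ∈ q := by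
    intro i j hne
    apply hn _ (b.ne_zero i)
    simp [hne]
  have hsub : ∀ i j, (b.coord i).smulRight (b i) - (b.coord j).smulRight (b j) ∈ q := by
    intro i j
    by_cases hne : i = j
    · subst hne
      simp [q.zero_mem]
    · have h2 := hq _ (hij i j hne) _ (hij j i (Ne.symm hne))
      convert h2 using 1
      ext u
      simp [Module.End.mul_apply]
  have hone : (1 : Module.End k V) = ∑ j, (b.coord j).smulRight (b j) := by
    ext u
    simp [LinearMap.sum_apply, b.sum_repr]
  have hii : ∀ i, (b.coord i).smulRight (b i) ∈ q := by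
    intro i
    have h2 : (∑ j, ((b.coord i).smulRight (b i) - (b.coord j).smulRight (b j))) + 1 ∈ q :=
      q.add_mem (q.sum_mem fun j _ => hsub i j) h1
    rw [Finset.sum_sub_distrib, hone, sub_add_cancel, Finset.sum_const, Finset.card_univ,
      Fintype.card_fin] at h2
    have hpos : finrank k V ≠ 0 := by
      intro h0
      have := i.2
      omega
    have h3 : ((finrank k V : ℕ) : k) ≠ 0 := by exact_mod_cast hpos
    have h4 := q.smul_mem ((finrank k V : ℕ) : k)⁻¹ h2
    rw [← Nat.cast_smul_eq_nsmul k, smul_smul, inv_mul_cancel₀ h3, one_smul] at h4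
    exact h4
  rw [eq_top_iff]
  rintro x -
  have hx : x = ∑ j, ∑ i, (b.repr (x (b j)) i) • (b.coord j).smulRight (b i) := by
    apply b.ext
    intro l
    simp only [LinearMap.sum_apply, LinearMap.smul_apply, LinearMap.smulRight_apply]
    rw [Finset.sum_eq_single l]
    · simp [b.sum_repr]
    · intro j _ hj
      simp [hj]
    · simp
  rw [hx]
  refine q.sum_mem fun j _ => q.sum_mem fun i _ => q.smul_mem _ ?_
  by_cases hne : i = j
  · subst hne
    exact hii i
  · exact hij i j hne

theorem nil1_le_stabFlag {v : V} {W : Submodule k V} (hvW : v ∈ W) : nil1 k v ≤ stabFlag v W := by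
  intro x hx
  obtain ⟨ζ, h, rfl⟩ := mem_nil1.1 hx
  exact ⟨⟨0, by simp [h]⟩, fun u _ => W.smul_mem _ hvW⟩

theorem coann_of_nil1_le {q : Submodule k (Module.End k V)} {v : V} (h : nil1 k v ≤ q) :
    (zet q v).dualCoannihilator = Submodule.span k {v} := by
  have h1 : zet q v = (Submodule.span k {v}).dualAnnihilator := by
    ext ζ
    rw [mem_zet, Submodule.mem_dualAnnihilator]
    constructor
    · rintro ⟨h1, -⟩ u hu
      obtain ⟨c, rfl⟩ := Submodule.mem_span_singleton.1 hu
      rw [map_smul, h1, smul_zero]
    · intro h1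
      have h2 := h1 v (Submodule.mem_span_singleton_self v)
      exact ⟨h2, h (mem_nil1.2 ⟨ζ, h2, rfl⟩)⟩
  rw [h1, Subspace.dualAnnihilator_dualCoannihilator_eq]

/-- **Lemma L** -/
theorem eq_top_of_finrank [CharZero k] {q : Submodule k (Module.End k V)} (hq : BClosed q)
    (h1 : (1 : Module.End k V) ∈ q) (hd : finrank k V ^ 2 + 2 ≤ finrank k q + finrank k V) :
    q = ⊤ := by
  apply eq_top_of_nil1 hq h1
  intro v hv ζ hζ
  refine zet_of_coann_eq ?_ hζ
  by_contra hne
  have hvW := self_mem_coann q v
  have hS := finrank_stabLine (k := k) hv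
  have hE : finrank k (Module.End k V) = finrank k V ^ 2 := by
    rw [Module.finrank_linearMap, sq]
  by_cases htop : (zet q v).dualCoannihilator = ⊤
  · have h2 := nil1_inf_eq_bot hv htop
    have h3 := finrank_add_le (nil1 k v) q ⊤ le_top le_top
    rw [h2, finrank_bot, finrank_top, hE] at h3
    have h4 := finrank_nil1 (k := k) hv
    omega
  · have h2 := finrank_stabFlag_le hv hvW hne htop
    have h3 := finrank_add_le q (stabLine k v) ⊤ le_top le_top
    rw [finrank_top, hE] at h3
    have h4 : q ⊓ stabLine k v ≤ stabFlag v (zet q v).dualCoannihilator := by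
      rintro x ⟨hx, c, hc⟩
      exact ⟨⟨c, hc⟩, fun u hu => coann_stable hq hx hc hu⟩
    have h5 : q ⊓ stabLine k v = stabFlag v (zet q v).dualCoannihilator :=
      Submodule.eq_of_le_of_finrank_le h4 (by omega)
    apply hne
    apply coann_of_nil1_le
    exact (nil1_le_stabFlag hvW).trans (h5 ▸ inf_le_left)

/-- the action of the stabiliser of a line on the quotient -/
def quoMap (v : V) : stabLine k v →ₗ[k] Module.End k (V ⧸ Submodule.span k {v}) where
  toFun x := (Submodule.span k {v}).mapQ (Submodule.span k {v}) x.1 (by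
    rw [Submodule.span_singleton_le_iff_mem, Submodule.mem_comap, Submodule.mem_span_singleton]
    obtain ⟨c, hc⟩ := x.2
    exact ⟨c, hc.symm⟩)
  map_add' x y := by
    ext u
    simp
  map_smul' a x := by
    ext u
    simp

theorem quoMap_mk (v : V) (x : stabLine k v) (u : V) :
    quoMap v x (Submodule.Quotient.mk u) = Submodule.Quotient.mk (x.1 u) := rfl

theorem one_mem_stabLine (v : V) : (1 : Module.End k V) ∈ stabLine k v := ⟨1, by simp⟩

theorem comm_mem_stabLine {v : V} {x y : Module.End k V} (hx : x ∈ stabLine k v)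
    (hy : y ∈ stabLine k v) : x * y - y * x ∈ stabLine k v := by
  obtain ⟨c, hc⟩ := hx
  obtain ⟨d, hd⟩ := hy
  refine ⟨0, ?_⟩
  simp only [LinearMap.sub_apply, Module.End.mul_apply, hc, hd, map_smul, smul_smul, mul_comm,
    sub_self, zero_smul]

/-- the kernel of the action on the quotient -/
theorem finrank_ker_quoMap_le {v : V} (hv : v ≠ 0) :
    finrank k (LinearMap.ker (quoMap (k := k) v)) ≤ finrank k V := by
  have h1 : ∃ f : Dual k V →ₗ[k] Module.End k V, ∀ ζ, f ζ = ζ.smulRight v :=
    ⟨{ toFun := fun ζ => ζ.smulRight v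
       map_add' := fun a b => by ext u; simp [add_smul]
       map_smul' := fun c a => by ext u; simp [mul_smul] }, fun ζ => rfl⟩
  obtain ⟨f, hf⟩ := h1
  have h2 : (LinearMap.ker (quoMap (k := k) v)).map (stabLine k v).subtype ≤
      LinearMap.range f := by
    rintro x hx
    obtain ⟨y, hy, rfl⟩ := Submodule.mem_map.1 hx
    obtain ⟨g, hg⟩ := Module.Projective.exists_dual_eq_one k hv
    refine ⟨g ∘ₗ y.1, ?_⟩
    rw [hf]
    ext u
    have h3 := LinearMap.congr_fun (LinearMap.mem_ker.1 hy) (Submodule.Quotient.mk u)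
    rw [quoMap_mk, LinearMap.zero_apply, Submodule.Quotient.mk_eq_zero,
      Submodule.mem_span_singleton] at h3
    obtain ⟨c, hc⟩ := h3
    simp only [LinearMap.smulRight_apply, LinearMap.comp_apply, Submodule.subtype_apply]
    rw [← hc, map_smul, hg, smul_eq_mul, mul_one]
  have h4 := Submodule.finrank_mono h2
  rw [Submodule.finrank_map_subtype_eq] at h4
  have h5 := LinearMap.finrank_range_le f
  rw [Subspace.dual_finrank_eq] at h5
  omega

/-- **Lemma M**: subalgebras with a stable line -/
theorem finrank_of_line [CharZero k] {q : Submodule k (Module.End k V)} (hq : BClosed q)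
    (h1 : (1 : Module.End k V) ∈ q) {v : V} (hv : v ≠ 0) (hs : q ≤ stabLine k v)
    (hd : finrank k V ^ 2 + 4 ≤ finrank k q + 2 * finrank k V) :
    finrank k V ^ 2 ≤ finrank k q + finrank k V := by
  set n := finrank k V with hn
  have hS := finrank_stabLine (k := k) hv
  rw [← hn] at hS
  have hquo := Submodule.finrank_quotient_add_finrank (Submodule.span k {v})
  rw [finrank_span_singleton hv, ← hn] at hquo
  -- the image
  let q1 : Submodule k (stabLine k v) := q.comap (stabLine k v).subtype
  have hq1 : finrank k q1 = finrank k q := by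
    have h2 : q1.map (stabLine k v).subtype = q := by
      rw [Submodule.map_comap_subtype, inf_eq_right]
      exact hs
    rw [← Submodule.finrank_map_subtype_eq, h2]
  let q2 : Submodule k (Module.End k (V ⧸ Submodule.span k {v})) := q1.map (quoMap v)
  have hker : finrank k (LinearMap.ker ((quoMap v).comp q1.subtype)) ≤ n := by
    have h2 : (LinearMap.ker ((quoMap v).comp q1.subtype)).map q1.subtype ≤
        LinearMap.ker (quoMap (k := k) v) := by
      rintro x hx
      obtain ⟨y, hy, rfl⟩ := Submodule.mem_map.1 hx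
      exact hy
    have h3 := Submodule.finrank_mono h2
    rw [Submodule.finrank_map_subtype_eq] at h3
    exact h3.trans (finrank_ker_quoMap_le hv)
  have hrn := LinearMap.finrank_range_add_finrank_ker (K := k) (V := q1) ((quoMap v).comp q1.subtype)
  rw [LinearMap.range_comp, Submodule.range_subtype] at hrn
  have hq2 : q2 = ⊤ := by
    apply eq_top_of_finrank
    · rintro x hx y hy
      obtain ⟨x', hx', rfl⟩ := Submodule.mem_map.1 hx
      obtain ⟨y', hy', rfl⟩ := Submodule.mem_map.1 hy
      refine Submodule.mem_map.2 ⟨⟨x'.1 * y'.1 - y'.1 * x'.1, comm_mem_stabLine x'.2 y'.2⟩, ?_, ?_⟩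
      · exact hq _ hx' _ hy'
      · ext u
        rfl
    · refine Submodule.mem_map.2 ⟨⟨1, one_mem_stabLine v⟩, h1, ?_⟩
      ext u
      rfl
    · have h4 : finrank k q2 + n ≥ finrank k q := by
        have : finrank k q2 = finrank k (q1.map (quoMap v)) := rfl
        omega
      obtain ⟨m, hm⟩ : ∃ m, n = m + 1 := ⟨n - 1, by omega⟩
      have h5 : finrank k (V ⧸ Submodule.span k {v}) = m := by omega
      rw [h5]
      rw [hm] at hd h4
      have h6 : (m + 1) ^ 2 = m ^ 2 + 2 * m + 1 := by ring
      omega
  -- the kernel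
  have hvW := self_mem_coann q v
  have hmem : (zet q v).dualCoannihilator = Submodule.span k {v} := by
    by_contra hne
    by_cases htop : (zet q v).dualCoannihilator = ⊤
    · have h2 := nil1_inf_eq_bot hv htop
      have h3 := finrank_add_le (nil1 k v) q (stabLine k v) (by
        intro x hx
        obtain ⟨ζ, h, rfl⟩ := mem_nil1.1 hx
        exact ⟨0, by simp [h]⟩) hs
      rw [h2, finrank_bot] at h3
      have h4 := finrank_nil1 (k := k) hv
      omega
    · have h2 := finrank_stabFlag_le hv hvW hne htop
      have h4 : q ≤ stabFlag v (zet q v).dualCoannihilator := by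
        intro x hx
        obtain ⟨c, hc⟩ := hs hx
        exact ⟨⟨c, hc⟩, fun u hu => coann_stable hq hx hc hu⟩
      have h5 := Submodule.finrank_mono h4
      rw [← hn] at h2
      omega
  have hnil : nil1 k v ≤ q := by
    intro x hx
    obtain ⟨ζ, h, rfl⟩ := mem_nil1.1 hx
    exact zet_of_coann_eq hmem h
  have hker2 : finrank k (nil1 k v) ≤
      finrank k (LinearMap.ker ((quoMap v).comp q1.subtype)) := by
    have h2 : nil1 k v ≤ ((LinearMap.ker ((quoMap v).comp q1.subtype)).map
        q1.subtype).map (stabLine k v).subtype := by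
      intro x hx
      refine Submodule.mem_map.2 ⟨⟨x, hs (hnil hx)⟩, Submodule.mem_map.2
        ⟨⟨⟨x, hs (hnil hx)⟩, hnil hx⟩, ?_, rfl⟩, rfl⟩
      rw [LinearMap.mem_ker]
      obtain ⟨ζ, h, rfl⟩ := mem_nil1.1 hx
      ext u
      change (Submodule.Quotient.mk (ζ u • v) : V ⧸ Submodule.span k {v}) = 0
      rw [Submodule.Quotient.mk_eq_zero]
      exact Submodule.smul_mem _ _ (Submodule.mem_span_singleton_self v)
    have h3 := Submodule.finrank_mono h2
    rw [Submodule.finrank_map_subtype_eq, Submodule.finrank_map_subtype_eq] at h3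
    exact h3
  have hnl := finrank_nil1 (k := k) hv
  rw [← hn] at hnl
  have hfin : finrank k (q1.map (quoMap v)) = finrank k (V ⧸ Submodule.span k {v}) ^ 2 := by
    have : q1.map (quoMap v) = ⊤ := hq2
    rw [this, finrank_top, Module.finrank_linearMap, sq]
  obtain ⟨m, hm⟩ : ∃ m, n = m + 1 := ⟨n - 1, by omega⟩
  have h5 : finrank k (V ⧸ Submodule.span k {v}) = m := by omega
  rw [h5] at hfin
  have h6 : (m + 1) ^ 2 = m ^ 2 + 2 * m + 1 := by ring
  rw [hm] at hnl ⊢
  rw [h6]
  omega

end Strange53
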