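import Pool.Agent.H53_Strange.Dim

/-!
# Strange orbits in `sl_n`: rank one elements of big subalgebras
-/

set_option autoImplicit false
set_option linter.unusedSectionVars false

namespace Strange53

open Module

variable {k V : Type*} [Field k] [AddCommGroup V] [Module k V]

/-- closed under brackets -/
def BClosed (q : Submodule k (Module.End k V)) : Prop := ∀ x ∈ q, ∀ y ∈ q, x * y - y * x ∈ q

/-- the functionals `ζ` with `ζ v = 0` and `v ⊗ ζ ∈ q` -/
def zet (q : Submodule k (Module.End k V)) (v : V) : Submodule k (Dual k V) where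
  carrier := {ζ | ζ v = 0 ∧ ζ.smulRight v ∈ q}
  add_mem' := by
    rintro a b ⟨h1, h2⟩ ⟨h3, h4⟩
    refine ⟨by simp [h1, h3], ?_⟩
    have : (a + b).smulRight v = a.smulRight v + b.smulRight v := by
      ext u
      simp [add_smul]
    rw [this]
    exact q.add_mem h2 h4
  zero_mem' := by
    refine ⟨by simp, ?_⟩
    have : (0 : Dual k V).smulRight v = 0 := by
      ext u
      simp
    rw [this]
    exact q.zero_mem
  smul_mem' := by
    rintro c a ⟨h1, h2⟩
    refine ⟨by simp [h1], ?_⟩
    have : (c • a).smulRight v = c • a.smulRight v := by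
      ext u
      simp [mul_smul]
    rw [this]
    exact q.smul_mem c h2

theorem mem_zet {q : Submodule k (Module.End k V)} {v : V} {ζ : Dual k V} :
    ζ ∈ zet q v ↔ ζ v = 0 ∧ ζ.smulRight v ∈ q := Iff.rfl

theorem zet_stable {q : Submodule k (Module.End k V)} (hq : BClosed q) {v : V} {x : Module.End k V}
    (hx : x ∈ q) {c : k} (hc : x v = c • v) {ζ : Dual k V} (hζ : ζ ∈ zet q v) :
    ζ ∘ₗ x ∈ zet q v := by
  refine ⟨by simp [hc, hζ.1], ?_⟩
  have h1 := hq x hx _ hζ.2
  have h2 : (ζ ∘ₗ x).smulRight v = c • ζ.smulRight v - (x * ζ.smulRight v - ζ.smulRight v * x) := by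
    ext u
    simp only [LinearMap.smulRight_apply, LinearMap.comp_apply, LinearMap.sub_apply,
      LinearMap.smul_apply, Module.End.mul_apply, map_smul, hc]
    rw [smul_comm c (ζ u) v]
    simp
  rw [h2]
  exact q.sub_mem (q.smul_mem c hζ.2) h1

/-- the common kernel of `zet q v` is stable under the elements of `q` which stabilise the line of `v` -/
theorem coann_stable {q : Submodule k (Module.End k V)} (hq : BClosed q) {v : V} {x : Module.End k V}
    (hx : x ∈ q) {c : k} (hc : x v = c • v) {u : V} (hu : u ∈ (zet q v).dualCoannihilator) :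
    x u ∈ (zet q v).dualCoannihilator := by
  rw [Submodule.mem_dualCoannihilator] at hu ⊢
  intro ζ hζ
  exact hu _ (zet_stable hq hx hc hζ)

theorem self_mem_coann (q : Submodule k (Module.End k V)) (v : V) :
    v ∈ (zet q v).dualCoannihilator := by
  rw [Submodule.mem_dualCoannihilator]
  exact fun ζ hζ => hζ.1

variable [FiniteDimensional k V]

theorem zet_of_coann_eq {q : Submodule k (Module.End k V)} {v : V}
    (h : (zet q v).dualCoannihilator = Submodule.span k {v}) {ζ : Dual k V} (hζ : ζ v = 0) :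
    ζ.smulRight v ∈ q := by
  have h1 : (zet q v).dualCoannihilator.dualAnnihilator = zet q v :=
    Subspace.dualCoannihilator_dualAnnihilator_eq
  rw [h] at h1
  have h2 : ζ ∈ (Submodule.span k {v}).dualAnnihilator := by
    rw [Submodule.mem_dualAnnihilator]
    intro u hu
    obtain ⟨c, rfl⟩ := Submodule.mem_span_singleton.1 hu
    simp [hζ]
  rw [h1] at h2
  exact h2.2

/-- the endomorphisms `v ⊗ ζ`, `ζ v = 0` -/
def nil1 (k : Type*) {V : Type*} [Field k] [AddCommGroup V] [Module k V] (v : V) :
    Submodule k (Module.End k V) :=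
  (Submodule.span k {v}).dualAnnihilator.map
    ({ toFun := fun ζ => ζ.smulRight v
       map_add' := fun a b => by ext u; simp [add_smul]
       map_smul' := fun c a => by ext u; simp [mul_smul] } : Dual k V →ₗ[k] Module.End k V)

theorem mem_nil1 {v : V} {x : Module.End k V} :
    x ∈ nil1 k v ↔ ∃ ζ : Dual k V, ζ v = 0 ∧ ζ.smulRight v = x := by
  simp only [nil1, Submodule.mem_map, Submodule.mem_dualAnnihilator, LinearMap.coe_mk, AddHom.coe_mk]
  constructor
  · rintro ⟨ζ, h1, h2⟩
    exact ⟨ζ, h1 v (Submodule.mem_span_singleton_self v), h2⟩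
  · rintro ⟨ζ, h1, h2⟩
    refine ⟨ζ, fun u hu => ?_, h2⟩
    obtain ⟨c, rfl⟩ := Submodule.mem_span_singleton.1 hu
    simp [h1]

theorem finrank_nil1 {v : V} (hv : v ≠ 0) : finrank k (nil1 k v) + 1 = finrank k V := by
  unfold nil1
  rw [LinearEquiv.finrank_eq (Submodule.equivMapOfInjective _ ?_ _).symm]
  · have h1 := Subspace.finrank_add_finrank_dualAnnihilator_eq (Submodule.span k {v})
    rw [finrank_span_singleton hv] at h1
    omega
  · intro a b hab
    ext u
    have := LinearMap.congr_fun hab u
    simp only [LinearMap.coe_mk, AddHom.coe_mk, LinearMap.smulRight_apply] at this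
    exact smul_left_injective k hv this

theorem nil1_inf_eq_bot {q : Submodule k (Module.End k V)} {v : V} (hv : v ≠ 0)
    (h : (zet q v).dualCoannihilator = ⊤) : nil1 k v ⊓ q = ⊥ := by
  rw [eq_bot_iff]
  rintro x ⟨h1, h2⟩
  obtain ⟨ζ, h3, rfl⟩ := mem_nil1.1 h1
  have h4 : ζ ∈ zet q v := ⟨h3, h2⟩
  have h5 : ζ = 0 := by
    ext u
    have h6 : u ∈ (zet q v).dualCoannihilator := by rw [h]; trivial
    exact (Submodule.mem_dualCoannihilator _ ).1 h6 ζ h4
  rw [h5, Submodule.mem_bot]
  ext u
  simp

end Strange53
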