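import Pool.Agent.H53_Strange.Sl

/-!
# Strange orbits in `sl_n`: main results
-/

set_option autoImplicit false
set_option linter.unusedSectionVars false

namespace Strange53

open Module

/-- a small centraliser -/
theorem ker_le_one {k V : Type*} [Field k] [AddCommGroup V] [Module k V] [FiniteDimensional k V]
    {e : Module.End k V} (he : IsNilpotent e) (h : finrank k (cen e) ≤ finrank k V + 1) :
    finrank k (LinearMap.ker e) ≤ 1 := by
  classical
  obtain ⟨I, _, _, μ, g, ⟨J⟩⟩ := exists_jb e he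
  rw [J.card_eq]
  by_contra hcon
  have h1 : ∀ i, μ i + (Fintype.card I - 1) ≤ finrank k (LinearMap.ker (e ^ μ i)) := by
    intro i
    rw [J.finrank_ker, ← Finset.add_sum_erase _ _ (Finset.mem_univ i), min_self]
    have h2 : ∑ l ∈ Finset.univ.erase i, 1 ≤ ∑ l ∈ Finset.univ.erase i, min (μ l) (μ i) :=
      Finset.sum_le_sum fun l _ => le_min (J.pos l) (J.pos i)
    rw [← Finset.card_eq_sum_ones, Finset.card_erase_of_mem (Finset.mem_univ i),
      Finset.card_univ] at h2
    omega
  have h2 : ∑ i, (μ i + (Fintype.card I - 1)) ≤ finrank k (cen e) := by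
    rw [J.finrank_cen]
    exact Finset.sum_le_sum fun i _ => h1 i
  rw [Finset.sum_add_distrib, ← J.finrank_eq, Finset.sum_const, Finset.card_univ,
    smul_eq_mul] at h2
  obtain ⟨a, ha⟩ : ∃ a, Fintype.card I = a + 2 := ⟨Fintype.card I - 2, by omega⟩
  rw [ha, Nat.add_sub_assoc (by omega)] at h2
  nlinarith

open LieAlgebra.SpecialLinear

/-- `M` is a nilpotent matrix with the following property: for every size `i` of a Jordan block
of `M`, if some block has the size at least `i + 3`, then the rank of `M ^ i` is at most half of the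
rank of `M ^ (i - 1)` -/
def InC {k : Type*} [Field k] {n : ℕ} (M : Matrix (Fin n) (Fin n) k) : Prop :=
  ∀ i, 1 ≤ i → (M ^ (i + 2)).rank ≠ 0 →
    2 * (M ^ i).rank < (M ^ (i - 1)).rank + (M ^ (i + 1)).rank →
    2 * (M ^ i).rank ≤ (M ^ (i - 1)).rank

variable {k : Type*} [Field k] {n : ℕ}

theorem inC_iff (M : Matrix (Fin n) (Fin n) k) : InC M ↔ ClassC (fe M) := by
  unfold InC ClassC
  simp only [rk_fe]

theorem nilp_fe {M : Matrix (Fin n) (Fin n) k} (h : IsNilpotent M) : IsNilpotent (fe M) :=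
  h.map fe

theorem finrank_ker_fe (M : Matrix (Fin n) (Fin n) k) :
    finrank k (LinearMap.ker (fe M)) + M.rank = n := by
  have h1 := LinearMap.finrank_range_add_finrank_ker (fe M)
  have h2 : finrank k (LinearMap.range (fe M)) = M.rank := by
    have := rk_fe M 1
    unfold rk at this
    rwa [pow_one, pow_one] at this
  rw [h2, finrank_fin_fun] at h1
  omega

/-- **Q1 for `sl_n`** in many cases -/
theorem q1_sl [IsAlgClosed k] [CharZero k] {e e' : sl (Fin n) k} (he : IsNilpotent e.1)
    (hs : Strange k e) (hz : ∀ y : sl (Fin n) k, ⁅e, y⁆ = 0 → ⁅e', y⁆ = 0)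
    (hc : (∀ j, 2 ≤ j → InC (e.1 ^ j)) ∨ InC e.1 ∨ n ≤ 10 ∨ n ≤ e.1.rank + 2 ∨ e.1 ^ 6 = 0 ∨
      (∃ m, e.1 ^ (m + 4) = 0 ∧ ∀ v, e.1.mulVec v = 0 → ∃ w, v = (e.1 ^ m).mulVec w) ∨
      finrank k (centr k e) + 5 ≤ 2 * n) :
    Strange k e' := by
  rw [strange_iff] at hs ⊢
  rcases Nat.eq_zero_or_pos n with hn | hn
  · subst hn
    have h0 : fe e'.1 = 0 := Subsingleton.elim _ _
    rw [h0]
    exact SG_zero
  have hN := nilp_fe he
  refine q1_gl hN (comm_of_centre hn.ne' hz) ?_ ?_ hs
  · rw [trace_fe, trace_val]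
  intro j hj
  have hrank := finrank_ker_fe e.1
  rcases hc with hc | hc | hc | hc | hc | hc | hc
  · rw [← map_pow]
    exact (inC_iff _).1 (hc j hj)
  · exact classC_pow hN ((inC_iff _).1 hc) (by omega)
  · exact classC_small hN hs (by rw [finrank_fin_fun]; exact hc) hj
  · exact classC_ker_two hN hs (by omega) hj
  · exact classC_six (by rw [← map_pow, hc, map_zero]) hj
  · obtain ⟨m, h1, h2⟩ := hc
    refine classC_spread hN (m := m) ?_ (by rw [← map_pow, h1, map_zero]) hj
    intro v hv
    obtain ⟨w, hw⟩ := h2 v hv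
    refine ⟨w, ?_⟩
    rw [← map_pow]
    exact hw.symm
  · have h1 := finrank_centr hn.ne' e
    have h2 : finrank k (Fin n → k) = n := finrank_fin_fun k
    have h3 := gap hs
    rw [h2] at h3
    have h4 := ker_le_one hN (by rw [h2]; omega)
    exact classC_ker_two hN hs (by omega) hj

/-- **the gap theorem** for `sl_n` -/
theorem gap_sl [IsAlgClosed k] [CharZero k] {x : sl (Fin n) k} (hs : Strange k x) :
    finrank k (centr k x) ≤ n ∨ 2 * n ≤ finrank k (centr k x) + 4 := by
  rcases Nat.eq_zero_or_pos n with hn | hn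
  · right
    omega
  have h1 := finrank_centr hn.ne' x
  have h2 : finrank k (Fin n → k) = n := finrank_fin_fun k
  have h3 := gap ((strange_iff x).1 hs)
  rw [h2] at h3
  omega

/-- **two Jordan blocks** -/
theorem two_sl [IsAlgClosed k] [CharZero k] {e : sl (Fin n) k} (he : IsNilpotent e.1)
    (hr : e.1.rank + 2 = n) : Strange k e ↔ e.1 ^ ((n + 3) / 2) = 0 := by
  have h1 := finrank_ker_fe e.1
  have h2 := strange_two (nilp_fe he) (by omega)
  rw [strange_iff, h2, finrank_fin_fun, ← map_pow]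
  exact map_eq_zero_iff fe fe.injective

end Strange53
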