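import Pool.Agent.H53_Strange.ClassC

/-!
# Strange orbits in `sl_n`: powers and the class of strange elements
-/

set_option autoImplicit false
set_option linter.unusedSectionVars false

namespace Strange53

open Module

/-! ## Arithmetic -/

section arith

variable {ρ c : ℕ → ℕ}

theorem ar_sum (h : ∀ s, ρ s = ρ (s + 1) + c (s + 1)) (a d : ℕ) :
    ρ a = ρ (a + d) + ∑ s ∈ Finset.range d, c (a + s + 1) := by
  induction d with
  | zero => simp
  | succ d ih =>
    rw [Finset.sum_range_succ, ih, h (a + d)]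
    have : a + (d + 1) = a + d + 1 := rfl
    rw [this]
    ring

theorem ar_anti (h : ∀ s, ρ s = ρ (s + 1) + c (s + 1)) {a b : ℕ} (hab : a ≤ b) : ρ b ≤ ρ a := by
  obtain ⟨d, rfl⟩ := Nat.exists_eq_add_of_le hab
  rw [ar_sum h a d]
  omega

/-- if `c` is constant between `a + 1` and `a + 2 j` then `ρ` is linear there -/
theorem ar_const (h : ∀ s, ρ s = ρ (s + 1) + c (s + 1)) {a j : ℕ}
    (hc : ∀ t, a < t → t < a + 2 * j → c t = c (t + 1)) : ρ a + ρ (a + 2 * j) = 2 * ρ (a + j) := by
  have h1 : ∀ s, s < 2 * j → c (a + s + 1) = c (a + 1) := by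
    intro s
    induction s with
    | zero => exact fun _ => rfl
    | succ s ih =>
      intro hs
      rw [← ih (by omega)]
      exact (hc (a + s + 1) (by omega) (by omega)).symm
  have h2 := ar_sum h a j
  have h3 := ar_sum h (a + j) j
  have h4 : ∑ s ∈ Finset.range j, c (a + s + 1) = ∑ s ∈ Finset.range j, c (a + j + s + 1) := by
    refine Finset.sum_congr rfl fun s hs => ?_
    rw [Finset.mem_range] at hs
    have h5 := h1 s (by omega)
    have h6 := h1 (j + s) (by omega)
    rw [show a + (j + s) + 1 = a + j + s + 1 by ring] at h6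
    rw [h5, h6]
  rw [h4] at h2
  have h5 : a + j + j = a + 2 * j := by ring
  rw [h5] at h3
  omega

theorem ar_pow (h : ∀ s, ρ s = ρ (s + 1) + c (s + 1)) (hc : Antitone c)
    (hC : ∀ i, 1 ≤ i → ρ (i + 2) ≠ 0 → 2 * ρ i < ρ (i - 1) + ρ (i + 1) → 2 * ρ i ≤ ρ (i - 1))
    {j : ℕ} (hj : 1 ≤ j) (a : ℕ) (h1 : ρ (a + 3 * j) ≠ 0)
    (h2 : 2 * ρ (a + j) < ρ a + ρ (a + 2 * j)) : 2 * ρ (a + j) ≤ ρ a := by
  obtain ⟨t, ht1, ht2, ht3⟩ : ∃ t, a < t ∧ t < a + 2 * j ∧ c t ≠ c (t + 1) := by
    by_contra hcon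
    push Not at hcon
    have := ar_const h (a := a) (j := j) hcon
    omega
  have ht4 : c (t + 1) < c t := lt_of_le_of_ne (hc (Nat.le_succ t)) (Ne.symm ht3)
  have ht5 : ρ (t + 2) ≠ 0 := by
    have := ar_anti h (show t + 2 ≤ a + 3 * j by omega)
    omega
  have ht6 : t - 1 + 1 = t := by omega
  have ht7 := h (t - 1)
  rw [ht6] at ht7
  have ht8 := h t
  have ht9 := hC t (by omega) ht5 (by omega)
  have hρt : ρ t ≤ c t := by omega
  have hs := ar_sum h a j
  suffices hh : ρ (a + j) ≤ ∑ s ∈ Finset.range j, c (a + s + 1) by omega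
  rcases Nat.lt_or_ge (a + j) t with hlt | hge
  · obtain ⟨d, rfl⟩ := Nat.exists_eq_add_of_lt hlt
    have h3 := ar_sum h (a + j) (d + 1)
    have h4 : ∑ s ∈ Finset.range (d + 1), c (a + j + s + 1) ≤ (d + 1) * c (a + j) := by
      refine (Finset.sum_le_card_nsmul _ _ (c (a + j)) fun s _ => hc (by omega)).trans ?_
      rw [Finset.card_range, smul_eq_mul]
    have h5 : j * c (a + j) ≤ ∑ s ∈ Finset.range j, c (a + s + 1) := by
      have := Finset.card_nsmul_le_sum (Finset.range j) (fun s => c (a + s + 1)) (c (a + j))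
        (fun s hs => hc (by rw [Finset.mem_range] at hs; omega))
      rwa [Finset.card_range, smul_eq_mul] at this
    have h6 : c (a + j + d + 1) ≤ c (a + j) := hc (by omega)
    have h7 : (d + 1 + 1) * c (a + j) ≤ j * c (a + j) := Nat.mul_le_mul_right _ (by omega)
    have h8 : (d + 1 + 1) * c (a + j) = (d + 1) * c (a + j) + c (a + j) := by ring
    have h9 : a + j + (d + 1) = a + j + d + 1 := by ring
    rw [h9] at h3
    omega
  · have h3 : ρ (a + j) ≤ ρ t := ar_anti h hge
    have h4 : c t ≤ c (a + 0 + 1) := hc (by omega)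
    have h5 : c (a + 0 + 1) ≤ ∑ s ∈ Finset.range j, c (a + s + 1) :=
      Finset.single_le_sum (f := fun s => c (a + s + 1)) (fun _ _ => Nat.zero_le _)
        (Finset.mem_range.2 (by omega))
    omega

end arith

variable {k V : Type*} [Field k] [AddCommGroup V] [Module k V]

theorem rk_pow (e : Module.End k V) (j i : ℕ) : rk (e ^ j) i = rk e (j * i) := by
  unfold rk
  rw [← pow_mul]

variable [FiniteDimensional k V]

theorem exists_c {e : Module.End k V} (he : IsNilpotent e) :
    ∃ c : ℕ → ℕ, (∀ s, rk e s = rk e (s + 1) + c (s + 1)) ∧ Antitone c := by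
  obtain ⟨I, _, _, μ, g, ⟨J⟩⟩ := exists_jb e he
  refine ⟨fun s => (Finset.univ.filter fun i => s ≤ μ i).card, fun s => ?_, ?_⟩
  · have h1 : ∀ s, rk e s = ∑ i, (μ i - s) := fun s => J.finrank_range s
    rw [h1, h1]
    change _ = _ + (Finset.univ.filter fun i => s + 1 ≤ μ i).card
    rw [Finset.card_filter, ← Finset.sum_add_distrib]
    refine Finset.sum_congr rfl fun i _ => ?_
    by_cases h : s + 1 ≤ μ i
    · rw [if_pos h]
      omega
    · rw [if_neg h]
      omega
  · intro s t hst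
    exact Finset.card_le_card fun i hi => by
      rw [Finset.mem_filter] at hi ⊢
      exact ⟨hi.1, hst.trans hi.2⟩

theorem rk_anti (e : Module.End k V) {a b : ℕ} (hab : a ≤ b) : rk e b ≤ rk e a := by
  obtain ⟨d, rfl⟩ := Nat.exists_eq_add_of_le hab
  unfold rk
  apply Submodule.finrank_mono
  rintro _ ⟨v, rfl⟩
  exact ⟨(e ^ d) v, by rw [pow_pow_apply]⟩

theorem classC_congr {e e' : Module.End k V} (h : ∀ i, rk e i = rk e' i) (hC : ClassC e) :
    ClassC e' := by
  intro i hi h1 h2
  rw [← h] at h1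
  rw [← h, ← h, ← h] at h2
  rw [← h, ← h]
  exact hC i hi h1 h2

/-- the class is closed under powers -/
theorem classC_pow {e : Module.End k V} (he : IsNilpotent e) (hC : ClassC e) {j : ℕ} (hj : 1 ≤ j) :
    ClassC (e ^ j) := by
  obtain ⟨c, h, hc⟩ := exists_c he
  intro i hi h1 h2
  rw [rk_pow] at h1
  rw [rk_pow, rk_pow, rk_pow] at h2
  rw [rk_pow, rk_pow]
  obtain ⟨a, rfl⟩ : ∃ a, i = a + 1 := ⟨i - 1, by omega⟩
  rw [Nat.add_sub_cancel] at h2 ⊢
  have e1 : j * (a + 1) = j * a + j := by ring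
  have e2 : j * (a + 1 + 1) = j * a + 2 * j := by ring
  have e3 : j * (a + 1 + 2) = j * a + 3 * j := by ring
  rw [e3] at h1
  rw [e1, e2] at h2
  rw [e1]
  exact ar_pow h hc hC hj (j * a) h1 h2

/-- if the block sizes are between `m + 1` and `m + 4` then all powers with exponent at least 2 are
in the class -/
theorem classC_spread {e : Module.End k V} (he : IsNilpotent e) {m : ℕ}
    (h1 : LinearMap.ker e ≤ LinearMap.range (e ^ m)) (h2 : e ^ (m + 4) = 0) {j : ℕ} (hj : 2 ≤ j) :
    ClassC (e ^ j) := by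
  obtain ⟨I, _, _, μ, g, ⟨J⟩⟩ := exists_jb e he
  have hρ : ∀ s, rk e s = ∑ i, (μ i - s) := fun s => J.finrank_range s
  have hμ : ∀ i, m + 1 ≤ μ i := by
    intro i
    have hp := J.pos i
    have h3 : (e ^ (μ i - 1)) (g i) ∈ LinearMap.ker e := by
      rw [LinearMap.mem_ker, ← Module.End.mul_apply, ← pow_succ']
      have : μ i - 1 + 1 = μ i := by omega
      rw [this, J.kill]
    obtain ⟨v, hv⟩ := h1 h3
    by_contra hcon
    have h4 := J.co_pow_lt (i := i) (r := μ i - 1) (s := m) (by omega) v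
    rw [hv, J.co_gen, if_pos ⟨rfl, rfl, by omega⟩] at h4
    exact one_ne_zero h4
  intro i hi h3 h4
  exfalso
  rw [rk_pow] at h3
  rw [rk_pow, rk_pow, rk_pow] at h4
  obtain ⟨a, rfl⟩ : ∃ a, i = a + 1 := ⟨i - 1, by omega⟩
  rw [Nat.add_sub_cancel] at h4
  have e1 : j * (a + 1) = j * a + j := by ring
  have e2 : j * (a + 1 + 1) = j * a + 2 * j := by ring
  have e3 : j * (a + 1 + 2) = j * a + 3 * j := by ring
  rw [e3] at h3
  rw [e1, e2] at h4
  have h5 : j * a + 3 * j < m + 4 := by
    by_contra hcon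
    apply h3
    have h6 := rk_anti e (not_lt.1 hcon)
    have h7 : rk e (m + 4) = 0 := by
      unfold rk
      rw [h2, LinearMap.range_zero, finrank_bot]
    omega
  have hlin : ∀ s, s ≤ m + 1 → rk e s + s * Fintype.card I = finrank k V := by
    intro s hs
    rw [hρ, J.finrank_eq, mul_comm, ← smul_eq_mul, ← Finset.card_univ, ← Finset.sum_const,
      ← Finset.sum_add_distrib]
    exact Finset.sum_congr rfl fun i _ => by have := hμ i; omega
  have k0 := hlin (j * a) (by omega)
  have k1 := hlin (j * a + j) (by omega)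
  have k2 := hlin (j * a + 2 * j) (by omega)
  have k3 : (j * a + 2 * j) * Fintype.card I + j * a * Fintype.card I =
      2 * ((j * a + j) * Fintype.card I) := by ring
  omega

/-- if `e ^ 6 = 0` then all powers with exponent at least 2 are in the class -/
theorem classC_six {e : Module.End k V} (h6 : e ^ 6 = 0) {j : ℕ} (hj : 2 ≤ j) : ClassC (e ^ j) := by
  intro i hi h3
  exfalso
  apply h3
  rw [rk_pow]
  have h1 : 6 ≤ j * (i + 2) := by nlinarith
  have h7 := rk_anti e h1
  have h8 : rk e 6 = 0 := by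
    unfold rk
    rw [h6, LinearMap.range_zero, finrank_bot]
  omega

end Strange53
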