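import Pool.Agent.H53_Strange.Main

/-!
# Strange orbits in `sl_n`: parity, and sharpness of the gap theorem
-/

set_option autoImplicit false
set_option linter.unusedSectionVars false

namespace Strange53

open Module

/-- an alternating form without radical lives on a space of even dimension -/
theorem even_finrank {k C : Type*} [Field k] [CharZero k] [AddCommGroup C] [Module k C]
    [FiniteDimensional k C] (B : C →ₗ[k] C →ₗ[k] k) (hB : ∀ y z, B z y = - B y z)
    (hn : ∀ y, (∀ z, B y z = 0) → y = 0) : Even (finrank k C) := by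
  classical
  by_contra hodd
  rw [Nat.not_even_iff_odd] at hodd
  let b := finBasis k C
  let M : Matrix (Fin (finrank k C)) (Fin (finrank k C)) k := Matrix.of fun i j => B (b i) (b j)
  have h1 : M.transpose = -M := by
    ext i j
    exact hB _ _
  have h2 : M.det = 0 := by
    have h3 := congrArg Matrix.det h1
    rw [Matrix.det_transpose, Matrix.det_neg, Fintype.card_fin, hodd.neg_one_pow, neg_one_mul] at h3
    exact self_eq_neg.1 h3
  obtain ⟨v, hv, h3⟩ := Matrix.exists_vecMul_eq_zero_iff.2 h2
  apply hv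
  have h4 : ∑ i, v i • b i = 0 := by
    apply hn
    intro z
    have h5 : ∀ j, B (∑ i, v i • b i) (b j) = (0 : C →ₗ[k] k) (b j) := by
      intro j
      have h6 := congrFun h3 j
      rw [map_sum, LinearMap.sum_apply, LinearMap.zero_apply]
      simp only [map_smul, LinearMap.smul_apply, smul_eq_mul]
      exact h6
    exact LinearMap.congr_fun (b.ext h5) z
  exact funext (Fintype.linearIndependent_iff.1 b.linearIndependent v h4)

variable {k V : Type*} [Field k] [AddCommGroup V] [Module k V] [FiniteDimensional k V]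

/-- the dimension of an orbit is even -/
theorem parity [CharZero k] (e : Module.End k V) :
    ∃ m, finrank k (cen e) + 2 * m = finrank k V ^ 2 := by
  obtain ⟨C, hC⟩ := Submodule.exists_isCompl (cen e)
  let T := LinearMap.trace k V
  have hT : ∀ a b : Module.End k V, T (a * b) = T (b * a) := fun a b => LinearMap.trace_mul_comm k a b
  let B : C →ₗ[k] C →ₗ[k] k := LinearMap.mk₂ k (fun y z => T (e * (y.1 * z.1 - z.1 * y.1)))
    (by
      intro y y' z
      rw [← map_add, ← mul_add]
      congr 2
      change (y.1 + y'.1) * z.1 - z.1 * (y.1 + y'.1) = _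
      rw [add_mul, mul_add]
      abel)
    (by
      intro c y z
      rw [← map_smul, ← mul_smul_comm]
      congr 2
      change (c • y.1) * z.1 - z.1 * (c • y.1) = _
      rw [smul_mul_assoc, mul_smul_comm, smul_sub])
    (by
      intro y z z'
      rw [← map_add, ← mul_add]
      congr 2
      change y.1 * (z.1 + z'.1) - (z.1 + z'.1) * y.1 = _
      rw [add_mul, mul_add]
      abel)
    (by
      intro c y z
      rw [← map_smul, ← mul_smul_comm]
      congr 2
      change y.1 * (c • z.1) - (c • z.1) * y.1 = _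
      rw [smul_mul_assoc, mul_smul_comm, smul_sub])
  have hBa : ∀ y z : C, B y z = T (e * (y.1 * z.1 - z.1 * y.1)) := fun y z => rfl
  have h1 : Even (finrank k C) := by
    refine even_finrank B (fun y z => ?_) (fun y hy => ?_)
    · rw [hBa, hBa, ← map_neg, ← mul_neg, neg_sub]
    · have h2 : ∀ z, T ((e * y.1 - y.1 * e) * z) = 0 := by
        intro z
        have h3 : z ∈ cen e ⊔ C := by rw [hC.sup_eq_top]; trivial
        obtain ⟨z1, hz1, z2, hz2, rfl⟩ := Submodule.mem_sup.1 h3
        have h4 : T ((e * y.1 - y.1 * e) * z1) = 0 := by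
          rw [sub_mul, map_sub, mul_assoc, mul_assoc, mem_cen.1 hz1, ← mul_assoc y.1,
            hT (y.1 * z1) e, sub_self]
        have h5 : T ((e * y.1 - y.1 * e) * z2) = 0 := by
          have h6 := hy ⟨z2, hz2⟩
          rw [hBa] at h6
          change T (e * (y.1 * z2 - z2 * y.1)) = 0 at h6
          rw [mul_sub, map_sub] at h6
          rw [sub_mul, map_sub, mul_assoc, mul_assoc, hT y.1 (e * z2), mul_assoc]
          exact h6
        rw [mul_add, map_add, h4, h5, add_zero]
      have h5 : e * y.1 - y.1 * e = 0 := eq_zero_of_trace h2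
      have h6 : y.1 ∈ cen e := mem_cen.2 (sub_eq_zero.1 h5)
      exact Subtype.ext ((Submodule.disjoint_def.1 hC.disjoint) _ h6 y.2)
  obtain ⟨m, hm⟩ := h1
  have h2 := Submodule.finrank_add_eq_of_isCompl hC
  rw [Module.finrank_linearMap, ← sq] at h2
  exact ⟨m, by omega⟩

/-- the centraliser of a strange element of `gl_n` has dimension at least `n` -/
theorem le_finrank_cen [IsAlgClosed k] [CharZero k] {e : Module.End k V} (hS : SG e) :
    finrank k V ≤ finrank k (cen e) := by
  by_contra hcon
  obtain ⟨h, hh, hc⟩ := hS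
  have hpos : 0 < finrank k V := by omega
  have : Nontrivial V := Module.finrank_pos_iff.1 hpos
  have hE : finrank k (Module.End k V) = finrank k V ^ 2 := by
    rw [Module.finrank_linearMap, sq]
  have hsum := Submodule.finrank_add_eq_of_isCompl hc
  rw [hE] at hsum
  obtain ⟨W, hW, hW0, hW1⟩ : ∃ W : Submodule k V, (∀ x ∈ h, ∀ w ∈ W, x w ∈ W) ∧ W ≠ ⊥ ∧ W ≠ ⊤ := by
    by_contra hcon
    push Not at hcon
    have h1 := eq_bot_of_irreducible hh hc (fun W hW => by
      by_cases hW0 : W = ⊥
      · exact Or.inl hW0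
      · exact Or.inr (hcon W hW hW0))
    rw [h1, finrank_bot] at hsum
    nlinarith
  have hqs : h ⊔ Submodule.span k {(1 : Module.End k V)} ≤ stabSub W := by
    refine sup_le (fun x hx u hu => hW x hx u hu) ?_
    rw [Submodule.span_singleton_le_iff_mem]
    exact fun u hu => hu
  have h1ne : (1 : Module.End k V) ≠ 0 := one_ne_zero
  have hinf : h ⊓ Submodule.span k {(1 : Module.End k V)} = ⊥ := by
    rw [eq_bot_iff, ← hc.inf_eq_bot]
    rintro x ⟨hx1, hx2⟩
    refine ⟨?_, hx1⟩
    obtain ⟨a, rfl⟩ := Submodule.mem_span_singleton.1 hx2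
    exact (cen e).smul_mem a (one_mem_cen e)
  have h2 := Submodule.finrank_sup_add_finrank_inf_eq h (Submodule.span k {(1 : Module.End k V)})
  rw [hinf, finrank_bot, finrank_span_singleton h1ne] at h2
  have h3 := Submodule.finrank_mono hqs
  have h4 := finrank_stabSub W
  have h5 : finrank k W < finrank k V := Submodule.finrank_lt hW1
  have h6 : finrank k W ≠ 0 := fun h => hW0 (Submodule.finrank_eq_zero.1 h)
  obtain ⟨a, ha⟩ : ∃ a, finrank k W = a + 1 := ⟨finrank k W - 1, by omega⟩
  obtain ⟨b, hb⟩ : ∃ b, finrank k V = a + 1 + (b + 1) := ⟨finrank k V - (a + 2), by omega⟩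
  have h7 : finrank k V - finrank k W = b + 1 := by omega
  rw [h7, ha] at h4
  have h8 : (a + 1) * (b + 1) = a * b + (a + b) + 1 := by ring
  omega

/-- nilpotent elements with prescribed sizes of the Jordan blocks -/
theorem exists_jb_of {I : Type} [Fintype I] [DecidableEq I] {μ : I → ℕ} (hpos : ∀ i, 0 < μ i)
    (hV : finrank k V = ∑ i, μ i) :
    ∃ (e : Module.End k V) (g : I → V), Nonempty (JB e μ g) := by
  classical
  have hc : Fintype.card (Fin (finrank k V)) = Fintype.card (Σ i, Fin (μ i)) := by
    rw [Fintype.card_sigma, Fintype.card_fin, hV]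
    exact Finset.sum_congr rfl fun i _ => (Fintype.card_fin _).symm
  let b : Basis (Σ i, Fin (μ i)) k V := (finBasis k V).reindex (Fintype.equivOfCardEq hc)
  let f : (Σ i, Fin (μ i)) → V :=
    fun x => if h : (x.2 : ℕ) + 1 < μ x.1 then b ⟨x.1, ⟨x.2 + 1, h⟩⟩ else 0
  let e : Module.End k V := b.constr k f
  have he : ∀ x, e (b x) = f x := fun x => b.constr_basis k f x
  have hp : ∀ i (r : ℕ) (hr : r < μ i), (e ^ r) (b ⟨i, ⟨0, hpos i⟩⟩) = b ⟨i, ⟨r, hr⟩⟩ := by
    intro i r
    induction r with
    | zero => intro hr; rfl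
    | succ r ih =>
      intro hr
      rw [pow_succ', Module.End.mul_apply, ih (by omega), he]
      exact dif_pos hr
  refine ⟨e, fun i => b ⟨i, ⟨0, hpos i⟩⟩, ⟨⟨b, hpos, fun i => ?_, fun i r => (hp i r r.2).symm⟩⟩⟩
  obtain ⟨m, hm⟩ : ∃ m, μ i = m + 1 := ⟨μ i - 1, by have := hpos i; omega⟩
  have h1 : e ^ μ i = e * e ^ m := by rw [hm, pow_succ']
  rw [h1, Module.End.mul_apply, hp i m (by omega), he]
  exact dif_neg (by dsimp only; omega)

open LieAlgebra.SpecialLinear

variable {n : ℕ}

/-- the gap theorem for `sl_n`, with parity -/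
theorem gap_sl_parity [IsAlgClosed k] [CharZero k] {x : sl (Fin n) k} (hs : Strange k x) :
    (finrank k (centr k x) + 1 = n ∧ (IsNilpotent x.1 → x.1.rank + 1 = n)) ∨
      2 * n ≤ finrank k (centr k x) + 3 + n % 2 := by
  rcases Nat.eq_zero_or_pos n with hn | hn
  · right
    omega
  have h1 := finrank_centr hn.ne' x
  have h2 : finrank k (Fin n → k) = n := finrank_fin_fun k
  have h3 := gap ((strange_iff x).1 hs)
  have h4 := le_finrank_cen ((strange_iff x).1 hs)
  obtain ⟨m, h5⟩ := parity (fe x.1)
  rw [h2] at h3 h4 h5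
  have h6 : n ^ 2 % 2 = n % 2 := by
    rw [Nat.pow_mod]
    rcases Nat.mod_two_eq_zero_or_one n with h | h <;> rw [h]
  by_cases h7 : finrank k (cen (fe x.1)) ≤ n + 1
  · left
    refine ⟨by omega, fun hN => ?_⟩
    have h8 := ker_le_one (nilp_fe hN) (by rw [h2]; omega)
    have h9 := finrank_ker_fe x.1
    have h10 : finrank k (LinearMap.ker (fe x.1)) ≠ 0 := by
      intro h
      have h11 : LinearMap.ker (fe x.1) = ⊥ := Submodule.finrank_eq_zero.1 h
      obtain ⟨N, hN⟩ := nilp_fe hN
      have h12 : Function.Injective (fe x.1) := LinearMap.ker_eq_bot.1 h11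
      have h13 : Function.Injective ((fe x.1) ^ N) := by
        rw [Module.End.coe_pow]
        exact h12.iterate N
      have : Nontrivial (Fin n → k) := (Module.finrank_pos_iff (R := k)).1 (by rw [h2]; exact hn)
      obtain ⟨v, hv⟩ := exists_ne (0 : Fin n → k)
      apply hv
      apply h13
      rw [hN, LinearMap.zero_apply, LinearMap.zero_apply]
    omega
  · right
    omega

/-- sharpness -/
theorem sharp_sl [CharZero k] (hn : 4 ≤ n) :
    ∃ e : sl (Fin n) k, IsNilpotent e.1 ∧ Strange k e ∧
      2 * n = finrank k (centr k e) + 3 + n % 2 := by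
  classical
  let μ : Bool → ℕ := fun i => if i then (n + 3) / 2 else n - (n + 3) / 2
  have ht : μ true = (n + 3) / 2 := rfl
  have hf : μ false = n - (n + 3) / 2 := rfl
  have hpos : ∀ i, 0 < μ i := by
    rintro (_ | _)
    · rw [hf]; omega
    · rw [ht]; omega
  have hu : ∀ l : Bool, l = true ∨ l = false := fun l => by cases l <;> simp
  have hne : true ≠ false := by simp
  have h2 : finrank k (Fin n → k) = n := finrank_fin_fun k
  obtain ⟨e, g, ⟨J⟩⟩ := exists_jb_of (k := k) (V := Fin n → k) hpos (by
    rw [h2, sum_pair hne hu]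
    omega)
  have hN : IsNilpotent e := ⟨n, J.pow_eq_zero fun i => by cases i <;> omega⟩
  have htr : (fe.symm e).trace = 0 := by
    rw [← trace_fe, AlgEquiv.apply_symm_apply]
    exact (LinearMap.isNilpotent_trace_of_isNilpotent hN).eq_zero
  have hS : SG e := strange_two_le J hne hu (by omega) (by omega)
  have hd : finrank k (cen e) = μ true + 3 * μ false := by
    rw [J.finrank_cen, sum_pair hne hu, J.finrank_ker, J.finrank_ker, sum_pair hne hu,
      sum_pair hne hu]
    omega
  let x : sl (Fin n) k := ⟨fe.symm e, htr⟩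
  have hx : fe x.1 = e := fe.apply_symm_apply e
  refine ⟨x, hN.map fe.symm, ?_, ?_⟩
  · rw [strange_iff, hx]
    exact hS
  · have h3 := finrank_centr (by omega) x
    rw [hx, hd] at h3
    omega

end Strange53
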