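import Pool.Agent.H53_Strange.Small

/-!
# Strange orbits in `sl_n`: from `gl_n` to `sl_n`
-/

set_option autoImplicit false
set_option linter.unusedSectionVars false

namespace Strange53

open Module

/-- the centraliser of `x` in the Lie algebra `L` -/
def centr (k : Type*) [Field k] {L : Type*} [LieRing L] [LieAlgebra k L] (x : L) :
    Submodule k L where
  carrier := {y | ⁅x, y⁆ = 0}
  add_mem' := by
    intro a b (ha : ⁅x, a⁆ = 0) (hb : ⁅x, b⁆ = 0)
    change ⁅x, a + b⁆ = 0
    rw [lie_add, ha, hb, add_zero]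
  zero_mem' := lie_zero x
  smul_mem' := by
    intro c a (ha : ⁅x, a⁆ = 0)
    change ⁅x, c • a⁆ = 0
    rw [lie_smul, ha, smul_zero]

/-- The orbit of `x` is strange: the centraliser of `x` has a complementary subalgebra. -/
def Strange (k : Type*) [Field k] {L : Type*} [LieRing L] [LieAlgebra k L] (x : L) : Prop :=
  ∃ h : LieSubalgebra k L, IsCompl (centr k x) h.toSubmodule

theorem mem_centr {k : Type*} [Field k] {L : Type*} [LieRing L] [LieAlgebra k L] {x y : L} :
    y ∈ centr k x ↔ ⁅x, y⁆ = 0 := Iff.rfl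

attribute [local instance 100] LieRing.ofAssociativeRing

open LieAlgebra.SpecialLinear

variable {k : Type*} [Field k] {n : ℕ}

/-- the algebra isomorphism -/
noncomputable abbrev fe : Matrix (Fin n) (Fin n) k ≃ₐ[k] Module.End k (Fin n → k) :=
  Matrix.toLinAlgEquiv'

theorem trace_fe (M : Matrix (Fin n) (Fin n) k) :
    LinearMap.trace k (Fin n → k) (fe M) = M.trace := Matrix.trace_toLin'_eq M

theorem mem_sl {M : Matrix (Fin n) (Fin n) k} : M ∈ sl (Fin n) k ↔ M.trace = 0 := Iff.rfl

theorem trace_val (x : sl (Fin n) k) : x.1.trace = 0 := mem_sl.1 x.2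

theorem rk_fe (M : Matrix (Fin n) (Fin n) k) (i : ℕ) : rk (fe M) i = (M ^ i).rank := by
  unfold rk Matrix.rank
  rw [← map_pow]
  rfl

/-- the traceless part -/
noncomputable def tl (M : Matrix (Fin n) (Fin n) k) : Matrix (Fin n) (Fin n) k :=
  M - (M.trace / n) • 1

theorem tl_mem [CharZero k] (hn : n ≠ 0) (M : Matrix (Fin n) (Fin n) k) : tl M ∈ sl (Fin n) k := by
  rw [mem_sl, tl, Matrix.trace_sub, Matrix.trace_smul, Matrix.trace_one, Fintype.card_fin,
    smul_eq_mul, div_mul_cancel₀ _ (Nat.cast_ne_zero.2 hn), sub_self]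

theorem mem_centr_iff {x y : sl (Fin n) k} :
    y ∈ centr k x ↔ fe y.1 ∈ cen (fe x.1) := by
  rw [mem_centr, mem_cen, ← map_mul, ← map_mul, fe.injective.eq_iff]
  constructor
  · intro h
    have h1 := congrArg Subtype.val h
    rw [sl_bracket] at h1
    exact sub_eq_zero.1 h1
  · intro h
    apply Subtype.ext
    rw [sl_bracket, h, sub_self]
    rfl

theorem tl_mem_centr [CharZero k] (hn : n ≠ 0) {x : sl (Fin n) k} {M : Matrix (Fin n) (Fin n) k}
    (h : fe M ∈ cen (fe x.1)) : (⟨tl M, tl_mem hn M⟩ : sl (Fin n) k) ∈ centr k x := by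
  rw [mem_centr_iff]
  change fe (M - (M.trace / n) • 1) ∈ _
  rw [map_sub, map_smul, map_one]
  exact (cen _).sub_mem h ((cen _).smul_mem _ (one_mem_cen _))

/-- the inclusion of `sl` -/
noncomputable def slF (k : Type*) [Field k] (n : ℕ) :
    sl (Fin n) k →ₗ[k] Module.End k (Fin n → k) where
  toFun z := fe z.1
  map_add' a b := map_add fe a.1 b.1
  map_smul' c a := map_smul fe c a.1

theorem slF_apply (z : sl (Fin n) k) : slF k n z = fe z.1 := rfl

theorem slF_injective : Function.Injective (slF k n) := by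
  intro a b hab
  exact Subtype.ext (fe.injective hab)

/-- **transfer** -/
theorem strange_iff [CharZero k] (x : sl (Fin n) k) : Strange k x ↔ SG (fe x.1) := by
  rcases Nat.eq_zero_or_pos n with hn | hn
  · subst hn
    constructor
    · intro _
      have h0 : fe x.1 = 0 := Subsingleton.elim _ _
      rw [h0]
      exact SG_zero
    · intro _
      refine ⟨⊤, ?_⟩
      have h1 : Subsingleton (Submodule k (sl (Fin 0) k)) := by
        rw [Submodule.subsingleton_iff]
        infer_instance
      constructor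
      · rw [Submodule.disjoint_def]
        intro y _ _
        exact Subsingleton.elim _ _
      · rw [codisjoint_iff]
        exact Subsingleton.elim _ _
  have hn' : n ≠ 0 := hn.ne'
  have hnk : (n : k) ≠ 0 := Nat.cast_ne_zero.2 hn'
  constructor
  · rintro ⟨h, hc⟩
    have hF : ∀ z, slF k n z = fe z.1 := fun z => rfl
    refine ⟨h.toSubmodule.map (slF k n), ?_, ?_⟩
    · rintro _ ⟨a, ha, rfl⟩ _ ⟨b, hb, rfl⟩
      refine ⟨⁅a, b⁆, h.lie_mem ha hb, ?_⟩
      rw [hF, hF, hF, sl_bracket, map_sub, map_mul, map_mul]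
    · constructor
      · rw [Submodule.disjoint_def]
        rintro _ h1 ⟨z, hz, rfl⟩
        rw [hF] at h1
        have h2 : z = 0 := (Submodule.disjoint_def.1 hc.disjoint) z (mem_centr_iff.2 h1) hz
        rw [h2, map_zero]
      · rw [codisjoint_iff, eq_top_iff]
        rintro y -
        obtain ⟨M, rfl⟩ := fe.surjective y
        have h1 : (⟨tl M, tl_mem hn' M⟩ : sl (Fin n) k) ∈ centr k x ⊔ h.toSubmodule := by
          rw [hc.sup_eq_top]
          trivial
        obtain ⟨a, ha, b, hb, hab⟩ := Submodule.mem_sup.1 h1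
        refine Submodule.mem_sup.2 ⟨fe a.1 + (M.trace / n) • 1, ?_, slF k n b,
          Submodule.mem_map_of_mem hb, ?_⟩
        · exact (cen _).add_mem (mem_centr_iff.1 ha) ((cen _).smul_mem _ (one_mem_cen _))
        · have h2 : a.1 + b.1 = tl M := congrArg Subtype.val hab
          have h3 : M = a.1 + b.1 + (M.trace / n) • 1 := by rw [h2, tl, sub_add_cancel]
          rw [hF]
          conv_rhs => rw [h3]
          rw [map_add, map_add, map_smul, map_one]
          abel
  · rintro ⟨h, hB, hc⟩
    let h' : LieSubalgebra k (sl (Fin n) k) :=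
      { carrier := {z | ∃ c : k, fe z.1 + c • 1 ∈ h}
        add_mem' := by
          rintro a b ⟨c, hc⟩ ⟨d, hd⟩
          refine ⟨c + d, ?_⟩
          have h1 := h.add_mem hc hd
          have h2 : fe (a + b).1 + (c + d) • (1 : Module.End k (Fin n → k)) =
              fe a.1 + c • 1 + (fe b.1 + d • 1) := by
            change fe (a.1 + b.1) + _ = _
            rw [map_add, add_smul]
            abel
          rw [h2]
          exact h1
        zero_mem' := by
          refine ⟨0, ?_⟩
          change fe (0 : Matrix (Fin n) (Fin n) k) + _ ∈ h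
          rw [map_zero, zero_smul, add_zero]
          exact h.zero_mem
        smul_mem' := by
          rintro a b ⟨c, hc⟩
          refine ⟨a * c, ?_⟩
          have h2 : fe (a • b).1 + (a * c) • (1 : Module.End k (Fin n → k)) =
              a • (fe b.1 + c • 1) := by
            change fe (a • b.1) + _ = _
            rw [map_smul, smul_add, mul_smul]
          rw [h2]
          exact h.smul_mem a hc
        lie_mem' := by
          rintro a b ⟨c, hc⟩ ⟨d, hd⟩
          refine ⟨0, ?_⟩
          have h1 := hB _ hc _ hd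
          have h2 : (fe a.1 + c • 1) * (fe b.1 + d • 1) - (fe b.1 + d • 1) * (fe a.1 + c • 1) =
              fe a.1 * fe b.1 - fe b.1 * fe a.1 := by
            simp only [add_mul, mul_add, smul_mul_assoc, mul_smul_comm, one_mul, mul_one,
              smul_add, smul_smul, mul_comm d c]
            abel
          rw [h2] at h1
          rw [zero_smul, add_zero, sl_bracket, map_sub, map_mul, map_mul]
          exact h1 }
    have hmem : ∀ z : sl (Fin n) k, z ∈ h'.toSubmodule ↔ ∃ c : k, fe z.1 + c • 1 ∈ h :=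
      fun z => Iff.rfl
    refine ⟨h', ?_, ?_⟩
    · rw [Submodule.disjoint_def]
      rintro z hz1 hz2
      obtain ⟨c, hz2⟩ := (hmem z).1 hz2
      have h1 : fe z.1 + c • 1 ∈ cen (fe x.1) :=
        (cen _).add_mem (mem_centr_iff.1 hz1) ((cen _).smul_mem _ (one_mem_cen _))
      have h2 : fe z.1 + c • 1 = 0 := (Submodule.disjoint_def.1 hc.disjoint) _ h1 hz2
      have h3 : z.1 + c • 1 = 0 := by
        apply fe.injective
        rw [map_add, map_smul, map_one, h2, map_zero]
      have h4 := congrArg Matrix.trace h3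
      rw [Matrix.trace_add, trace_val, Matrix.trace_smul, Matrix.trace_one, Fintype.card_fin,
        zero_add, Matrix.trace_zero, smul_eq_mul] at h4
      have h5 : c = 0 := (mul_eq_zero.1 h4).resolve_right hnk
      rw [h5, zero_smul, add_zero] at h3
      exact Subtype.ext h3
    · rw [codisjoint_iff, eq_top_iff]
      rintro z -
      have h1 : fe z.1 ∈ cen (fe x.1) ⊔ h := by
        rw [hc.sup_eq_top]
        trivial
      obtain ⟨a, ha, b, hb, hab⟩ := Submodule.mem_sup.1 h1
      obtain ⟨A, rfl⟩ := fe.surjective a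
      obtain ⟨B, rfl⟩ := fe.surjective b
      have h2 : A + B = z.1 := fe.injective (by rw [map_add, hab])
      refine Submodule.mem_sup.2 ⟨⟨tl A, tl_mem hn' A⟩, tl_mem_centr hn' ha,
        ⟨tl B, tl_mem hn' B⟩, ?_, ?_⟩
      · rw [hmem]
        refine ⟨B.trace / n, ?_⟩
        change fe (B - (B.trace / n) • 1) + _ ∈ h
        rw [map_sub, map_smul, map_one, sub_add_cancel]
        exact hb
      · apply Subtype.ext
        change tl A + tl B = z.1
        have h3 : A.trace + B.trace = 0 := by rw [← Matrix.trace_add, h2, trace_val]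
        rw [tl, tl, ← h2]
        have h4 : A - (A.trace / n) • (1 : Matrix (Fin n) (Fin n) k) + (B - (B.trace / n) • 1) =
            A + B - ((A.trace + B.trace) / n) • 1 := by
          rw [add_div, add_smul]
          abel
        rw [h4, h3, zero_div, zero_smul, sub_zero]

theorem cen_eq [CharZero k] (hn : n ≠ 0) (x : sl (Fin n) k) :
    cen (fe x.1) = (centr k x).map (slF k n) ⊔ Submodule.span k {1} := by
  apply le_antisymm
  · intro y hy
    obtain ⟨M, rfl⟩ := fe.surjective y
    refine Submodule.mem_sup.2 ⟨slF k n ⟨tl M, tl_mem hn M⟩,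
      Submodule.mem_map_of_mem (tl_mem_centr hn hy), (M.trace / n) • 1,
      Submodule.smul_mem _ _ (Submodule.mem_span_singleton_self _), ?_⟩
    rw [slF_apply]
    change fe (M - (M.trace / n) • 1) + _ = _
    rw [map_sub, map_smul, map_one, sub_add_cancel]
  · refine sup_le ?_ ?_
    · rintro _ ⟨z, hz, rfl⟩
      exact mem_centr_iff.1 hz
    · rw [Submodule.span_singleton_le_iff_mem]
      exact one_mem_cen _

theorem finrank_centr [CharZero k] (hn : n ≠ 0) (x : sl (Fin n) k) :
    finrank k (centr k x) + 1 = finrank k (cen (fe x.1)) := by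
  have hnk : (n : k) ≠ 0 := Nat.cast_ne_zero.2 hn
  have : Nonempty (Fin n) := ⟨⟨0, Nat.pos_of_ne_zero hn⟩⟩
  have h1ne : (1 : Module.End k (Fin n → k)) ≠ 0 := one_ne_zero
  have h1 : finrank k ((centr k x).map (slF k n)) = finrank k (centr k x) :=
    (LinearEquiv.finrank_eq (Submodule.equivMapOfInjective _ slF_injective _)).symm
  have h2 : (centr k x).map (slF k n) ⊓ Submodule.span k {1} = ⊥ := by
    rw [eq_bot_iff]
    rintro _ ⟨⟨z, hz, rfl⟩, h3⟩
    obtain ⟨c, hc⟩ := Submodule.mem_span_singleton.1 h3
    rw [slF_apply] at hc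
    have h4 := congrArg (LinearMap.trace k (Fin n → k)) hc
    rw [trace_fe, trace_val, map_smul, LinearMap.trace_one, finrank_fin_fun, smul_eq_mul] at h4
    have h5 : c = 0 := (mul_eq_zero.1 h4).resolve_right hnk
    rw [slF_apply, ← hc, h5, zero_smul]
    exact Submodule.zero_mem _
  have h3 := Submodule.finrank_sup_add_finrank_inf_eq ((centr k x).map (slF k n))
    (Submodule.span k {1})
  rw [h2, finrank_bot, finrank_span_singleton h1ne, h1, ← cen_eq hn] at h3
  exact h3.symm

/-- the condition on the centre -/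
theorem comm_of_centre [CharZero k] (hn : n ≠ 0) {x x' : sl (Fin n) k}
    (hz : ∀ y : sl (Fin n) k, ⁅x, y⁆ = 0 → ⁅x', y⁆ = 0) (c : Module.End k (Fin n → k)) (hc : c ∈ cen (fe x.1)) :
    c * fe x'.1 = fe x'.1 * c := by
  obtain ⟨M, rfl⟩ := fe.surjective c
  have h1 := hz _ (tl_mem_centr hn hc)
  have h2 : (⟨tl M, tl_mem hn M⟩ : sl (Fin n) k) ∈ centr k x' := h1
  rw [mem_centr_iff] at h2
  have h3 : fe M ∈ cen (fe x'.1) := by
    have h4 : M = tl M + (M.trace / n) • 1 := by rw [tl, sub_add_cancel]
    rw [h4, map_add, map_smul, map_one]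
    exact (cen _).add_mem h2 ((cen _).smul_mem _ (one_mem_cen _))
  exact (mem_cen.1 h3).symm

end Strange53
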