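import Pool.Agent.H53_Strange.TwoBlock

/-!
# Strange orbits in `sl_n`: small `n`
-/

set_option autoImplicit false
set_option linter.unusedSectionVars false

namespace Strange53

open Module

variable {k V : Type*} [Field k] [AddCommGroup V] [Module k V]

/-! ## Subspaces with an open orbit -/

/-- a subspace with an open orbit is transversal to the stable subspaces -/
theorem transv {e : Module.End k V} {W N : Submodule k V} (h : cen e ⊔ stabSub W = ⊤)
    (hN : ∀ c ∈ cen e, ∀ x ∈ N, c x ∈ N) : W ⊓ N = ⊥ ∨ W ⊔ N = ⊤ := by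
  by_contra hcon
  push Not at hcon
  obtain ⟨h1, h2⟩ := hcon
  obtain ⟨w, ⟨hw1, hw2⟩, hw0⟩ := Submodule.exists_mem_ne_zero_of_ne_bot h1
  obtain ⟨u, hu⟩ : ∃ u, u ∉ W ⊔ N := by
    by_contra hcon
    push Not at hcon
    exact h2 (eq_top_iff.2 fun u _ => hcon u)
  obtain ⟨x, hx⟩ := exists_apply_eq (k := k) hw0 u
  have h3 : x ∈ cen e ⊔ stabSub W := by rw [h]; trivial
  obtain ⟨c, hc, y, hy, rfl⟩ := Submodule.mem_sup.1 h3
  apply hu
  rw [← hx, LinearMap.add_apply]
  exact Submodule.add_mem _ (Submodule.mem_sup_right (hN c hc w hw2))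
    (Submodule.mem_sup_left (hy w hw1))

theorem exists_restrict {e c : Module.End k V} (hc : c ∈ cen e) (s : ℕ) :
    ∃ c' ∈ cen (eW e s), ∀ w, (c' w).1 = c w.1 := by
  refine ⟨c.restrict (p := LinearMap.range (e ^ s)) (q := LinearMap.range (e ^ s)) ?_, ?_, ?_⟩
  · rintro _ ⟨v, rfl⟩
    exact ⟨c v, (cen_pow hc s v).symm⟩
  · rw [mem_cen]
    ext w
    rw [Module.End.mul_apply, Module.End.mul_apply, eW_apply]
    exact LinearMap.congr_fun (mem_cen.1 hc) w.1
  · intro w
    rfl

theorem open_comap {e : Module.End k V} {W : Submodule k V} (h : cen e ⊔ stabSub W = ⊤) (s : ℕ) :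
    cen (eW e s) ⊔ stabSub (W.comap (LinearMap.range (e ^ s)).subtype) = ⊤ := by
  rw [eq_top_iff]
  rintro x' -
  obtain ⟨x, hx⟩ := LinearMap.exists_extend ((LinearMap.range (e ^ s)).subtype ∘ₗ x')
  have hx' : ∀ w : LinearMap.range (e ^ s), x w.1 = (x' w).1 := fun w => LinearMap.congr_fun hx w
  have h3 : x ∈ cen e ⊔ stabSub W := by rw [h]; trivial
  obtain ⟨c, hc, y, hy, hxy⟩ := Submodule.mem_sup.1 h3
  obtain ⟨c', hc', hcc⟩ := exists_restrict hc s
  refine Submodule.mem_sup.2 ⟨c', hc', x' - c', ?_, by abel⟩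
  intro w hw
  rw [Submodule.mem_comap, Submodule.subtype_apply] at hw ⊢
  have h4 : ((x' - c') w).1 = y w.1 := by
    rw [LinearMap.sub_apply, Submodule.coe_sub, hcc, ← hx', ← hxy, LinearMap.add_apply]
    abel
  rw [h4]
  exact hy _ hw

theorem open_map {e : Module.End k V} {W : Submodule k V} (h : cen e ⊔ stabSub W = ⊤) (s : ℕ) :
    cen (eW e s) ⊔ stabSub (W.map (e ^ s).rangeRestrict) = ⊤ := by
  rw [eq_top_iff]
  rintro x' -
  set p : V →ₗ[k] LinearMap.range (e ^ s) := (e ^ s).rangeRestrict with hp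
  have hpv : ∀ v, (p v).1 = (e ^ s) v := fun v => rfl
  obtain ⟨σ, hσ⟩ := LinearMap.exists_rightInverse_of_surjective p (LinearMap.range_rangeRestrict _)
  have hσ' : ∀ w, p (σ w) = w := fun w => LinearMap.congr_fun hσ w
  have h3 : σ ∘ₗ x' ∘ₗ p ∈ cen e ⊔ stabSub W := by rw [h]; trivial
  obtain ⟨c, hc, y, hy, hxy⟩ := Submodule.mem_sup.1 h3
  obtain ⟨c', hc', hcc⟩ := exists_restrict hc s
  refine Submodule.mem_sup.2 ⟨c', hc', x' - c', ?_, by abel⟩
  rintro _ ⟨w, hw, rfl⟩
  refine ⟨y w, hy w hw, ?_⟩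
  have h4 : y w = σ (x' (p w)) - c w := by
    have h5 := LinearMap.congr_fun hxy w
    rw [LinearMap.add_apply, LinearMap.comp_apply, LinearMap.comp_apply] at h5
    rw [← h5]
    abel
  have h6 : p (c w) = c' (p w) := by
    apply Subtype.ext
    rw [hpv, hcc, hpv, cen_pow hc]
  rw [h4, map_sub, hσ', h6, LinearMap.sub_apply]

variable [FiniteDimensional k V]

theorem open_bound [Nontrivial V] {e : Module.End k V} {W : Submodule k V}
    (h : cen e ⊔ stabSub W = ⊤) :
    finrank k W * (finrank k V - finrank k W) + 1 ≤ finrank k (cen e) := by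
  have h1 := Submodule.finrank_sup_add_finrank_inf_eq (cen e) (stabSub W)
  rw [h, finrank_top, Module.finrank_linearMap, ← sq] at h1
  have h2 := finrank_stabSub W
  have h3 : 0 < finrank k (cen e ⊓ stabSub W : Submodule k (Module.End k V)) := by
    rw [Module.finrank_pos_iff]
    refine ⟨⟨⟨1, one_mem_cen e, fun u hu => hu⟩, 0, fun h => ?_⟩⟩
    exact one_ne_zero (congrArg Subtype.val h)
  omega

theorem finrank_cen_one {e : Module.End k V} (he : IsNilpotent e)
    (hk : finrank k (LinearMap.ker e) ≤ 1) : finrank k (cen e) ≤ finrank k V := by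
  classical
  obtain ⟨I, _, _, μ, g, ⟨J⟩⟩ := exists_jb e he
  have hc : Fintype.card I ≤ 1 := J.card_eq.symm.trans_le hk
  rw [J.finrank_cen]
  calc ∑ i, finrank k (LinearMap.ker (e ^ μ i)) ≤ ∑ _i : I, finrank k V :=
        Finset.sum_le_sum fun i _ => Submodule.finrank_le _
    _ = Fintype.card I * finrank k V := by rw [Finset.sum_const, smul_eq_mul, Finset.card_univ]
    _ ≤ 1 * finrank k V := Nat.mul_le_mul_right _ hc
    _ = finrank k V := one_mul _

/-- the exclusion of subspaces of dimension or codimension 2 in the case `7 + 1 + 1` -/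
theorem no_open_two {e : Module.End k V} (he : IsNilpotent e) (hn : finrank k V = 9)
    (h1 : rk e 1 = 6) (h2 : rk e 2 = 5) {W : Submodule k V}
    (hW : finrank k W = 2 ∨ finrank k W + 2 = finrank k V) (h : cen e ⊔ stabSub W = ⊤) : False := by
  have hM : finrank k (LinearMap.range (e ^ 1)) = 6 := h1
  have : Nontrivial (LinearMap.range (e ^ 1)) :=
    (Module.finrank_pos_iff (R := k)).1 (by rw [hM]; norm_num)
  have hrk : rk (eW e 1) 1 = 5 := by rw [rk_eW]; exact h2
  have hker : finrank k (LinearMap.ker (eW e 1)) = 1 := by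
    have h3 := LinearMap.finrank_range_add_finrank_ker (eW e 1)
    have h4 : finrank k (LinearMap.range (eW e 1)) = 5 := by
      have h5 : eW e 1 = (eW e 1) ^ 1 := (pow_one _).symm
      rw [h5]
      exact hrk
    rw [h4, hM] at h3
    omega
  have hcen : finrank k (cen (eW e 1)) ≤ 6 := by
    rw [← hM]
    refine finrank_cen_one ?_ hker.le
    obtain ⟨N, hN⟩ := he
    refine ⟨N, ?_⟩
    ext w
    rw [eW_pow, hN]
    rfl
  have hkn : finrank k (LinearMap.ker (e ^ 1)) = 3 := by
    have h3 := LinearMap.finrank_range_add_finrank_ker (e ^ 1)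
    omega
  rcases hW with hW | hW
  · have h3 : W ⊓ LinearMap.ker (e ^ 1) = ⊥ := by
      rcases transv h (N := LinearMap.ker (e ^ 1)) (fun c hc x hx => by
        rw [LinearMap.mem_ker] at hx ⊢
        rw [← cen_pow hc, hx, map_zero]) with h4 | h4
      · exact h4
      · exfalso
        have h5 := Submodule.finrank_sup_add_finrank_inf_eq W (LinearMap.ker (e ^ 1))
        rw [h4, finrank_top] at h5
        omega
    have h4 := open_bound (open_map h 1)
    have h5 : finrank k (W.map (e ^ 1).rangeRestrict) = 2 := by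
      rw [← hW]
      have h6 := LinearMap.finrank_range_add_finrank_ker ((e ^ 1).rangeRestrict.domRestrict W)
      have h7 : LinearMap.ker ((e ^ 1).rangeRestrict.domRestrict W) = ⊥ := by
        rw [LinearMap.ker_eq_bot']
        intro w hw
        have h8 : (e ^ 1) w.1 = 0 := congrArg Subtype.val hw
        have h9 : w.1 ∈ W ⊓ LinearMap.ker (e ^ 1) := ⟨w.2, h8⟩
        rw [h3, Submodule.mem_bot] at h9
        exact Subtype.ext h9
      rw [h7, finrank_bot, LinearMap.range_domRestrict] at h6
      omega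
    rw [h5, hM] at h4
    omega
  · have h3 : W ⊔ LinearMap.range (e ^ 1) = ⊤ := by
      rcases transv h (N := LinearMap.range (e ^ 1)) (fun c hc x hx => by
        obtain ⟨v, rfl⟩ := hx
        exact ⟨c v, (cen_pow hc 1 v).symm⟩) with h4 | h4
      · exfalso
        have h5 := Submodule.finrank_sup_add_finrank_inf_eq W (LinearMap.range (e ^ 1))
        rw [h4, finrank_bot] at h5
        have h6 := Submodule.finrank_le (W ⊔ LinearMap.range (e ^ 1))
        omega
      · exact h4
    have h4 := open_bound (open_comap h 1)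
    have h5 : finrank k (W.comap (LinearMap.range (e ^ 1)).subtype) = 4 := by
      have h6 := Submodule.finrank_sup_add_finrank_inf_eq W (LinearMap.range (e ^ 1))
      rw [h3, finrank_top] at h6
      have h7 : (W.comap (LinearMap.range (e ^ 1)).subtype).map (LinearMap.range (e ^ 1)).subtype =
          W ⊓ LinearMap.range (e ^ 1) := by
        rw [Submodule.map_comap_eq, Submodule.range_subtype, inf_comm]
      have h8 := LinearEquiv.finrank_eq (Submodule.equivMapOfInjective _
        (Submodule.injective_subtype (LinearMap.range (e ^ 1)))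
        (W.comap (LinearMap.range (e ^ 1)).subtype))
      rw [h7] at h8
      omega
    rw [h5, hM] at h4
    omega

/-! ## `n ≤ 10` -/

theorem classC_small [IsAlgClosed k] [CharZero k] {e : Module.End k V} (he : IsNilpotent e)
    (hS : SG e) (hn : finrank k V ≤ 10) {j : ℕ} (hj : 2 ≤ j) : ClassC (e ^ j) := by
  classical
  rcases Nat.lt_or_ge (finrank k (LinearMap.ker e)) 3 with h3 | h3
  · exact classC_ker_two he hS (by omega) hj
  obtain ⟨I, _, _, μ, g, ⟨J⟩⟩ := exists_jb e he
  have hK := J.card_eq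
  have hρ : ∀ s, rk e s = ∑ l, (μ l - s) := fun s => J.finrank_range s
  intro i hi h1 h2
  rw [rk_pow] at h1
  rw [rk_pow, rk_pow, rk_pow] at h2
  rw [rk_pow, rk_pow]
  -- a large block
  have hlarge : ∀ s, rk e s ≠ 0 → ∃ l, s < μ l := by
    intro s hs
    by_contra hcon
    push Not at hcon
    apply hs
    rw [hρ]
    exact Finset.sum_eq_zero fun l _ => by have := hcon l; omega
  obtain ⟨i0, hi0⟩ := hlarge _ h1
  have hn1 : finrank k V = μ i0 + ∑ l ∈ Finset.univ.erase i0, μ l := by
    rw [J.finrank_eq, Finset.add_sum_erase _ _ (Finset.mem_univ i0)]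
  have hcard : (Finset.univ.erase i0).card + 1 = Fintype.card I := by
    rw [Finset.card_erase_of_mem (Finset.mem_univ i0), Finset.card_univ]
    omega
  have hS1 : ∑ l ∈ Finset.univ.erase i0, μ l =
      ∑ l ∈ Finset.univ.erase i0, (μ l - 1) + (Finset.univ.erase i0).card := by
    rw [Finset.card_eq_sum_ones, ← Finset.sum_add_distrib]
    exact Finset.sum_congr rfl fun l _ => by have := J.pos l; omega
  have hj6 : 6 ≤ j * (i + 2) := by nlinarith
  have hj7 : j * (i + 2) < 8 := by omega
  have hji : j = 2 ∧ i = 1 := by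
    constructor
    · by_contra hne
      have h4 : 3 ≤ j := by omega
      nlinarith
    · by_contra hne
      have h4 : 2 ≤ i := by omega
      nlinarith
  obtain ⟨rfl, rfl⟩ := hji
  have hS2 : ∑ l ∈ Finset.univ.erase i0, (μ l - 2) = 0 := by
    refine Finset.sum_eq_zero fun l hl => ?_
    have h5 : μ l - 1 ≤ ∑ l ∈ Finset.univ.erase i0, (μ l - 1) :=
      Finset.single_le_sum (f := fun l => μ l - 1) (fun _ _ => Nat.zero_le _) hl
    omega
  have hr2 : rk e 2 = μ i0 - 2 := by
    rw [hρ, ← Finset.add_sum_erase _ _ (Finset.mem_univ i0), hS2, add_zero]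
  have hr0 : rk e 0 = finrank k V := by
    rw [hρ, J.finrank_eq]
    exact Finset.sum_congr rfl fun l _ => Nat.sub_zero _
  change 2 * rk e 2 ≤ rk e 0
  rw [hr0, hr2]
  by_contra hcon
  have hS3 : ∑ l ∈ Finset.univ.erase i0, (μ l - 1) = 0 := by omega
  have hones : ∀ l, l ≠ i0 → μ l = 1 := by
    intro l hl
    have h5 := (Finset.sum_eq_zero_iff.1 hS3) l (Finset.mem_erase.2 ⟨hl, Finset.mem_univ l⟩)
    have h6 := J.pos l
    omega
  have hc2 : (Finset.univ.erase i0).card = 2 := by omega
  have hd : finrank k (cen e) = finrank k V + 6 := by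
    rw [J.finrank_cen, ← Finset.add_sum_erase _ _ (Finset.mem_univ i0)]
    have h5 : e ^ μ i0 = 0 := J.pow_eq_zero fun l => by
      by_cases hl : l = i0
      · rw [hl]
      · have := hones l hl
        have := J.pos i0
        omega
    have h6 : ∑ l ∈ Finset.univ.erase i0, finrank k (LinearMap.ker (e ^ μ l)) =
        ∑ l ∈ Finset.univ.erase i0, 3 := by
      refine Finset.sum_congr rfl fun l hl => ?_
      rw [hones l (Finset.ne_of_mem_erase hl), pow_one]
      omega
    rw [h5, LinearMap.ker_zero, finrank_top, h6, Finset.sum_const, hc2, smul_eq_mul]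
  have hr1 : rk e 1 = μ i0 - 1 := by
    rw [hρ, ← Finset.add_sum_erase _ _ (Finset.mem_univ i0), hS3, add_zero]
  rcases gap' hS with h5 | h5 | ⟨h5, W, hW, hWo⟩
  · omega
  · omega
  · exact no_open_two he (by omega) (by omega) (by omega) hW hWo

end Strange53
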