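import Pool.Agent.H53_Strange.DC

/-!
# Strange orbits in `sl_n`: nilpotent elements with at most two Jordan blocks, and small `n`
-/

set_option autoImplicit false
set_option linter.unusedSectionVars false

namespace Strange53

open Module

variable {k V : Type*} [Field k] [AddCommGroup V] [Module k V] [FiniteDimensional k V]

namespace JB

variable {e : Module.End k V} {I : Type} [Fintype I] [DecidableEq I] {μ : I → ℕ} {g : I → V}
  (J : JB e μ g)

include J

theorem pow_eq_zero {s : ℕ} (h : ∀ i, μ i ≤ s) : e ^ s = 0 := by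
  apply J.b.ext
  rintro ⟨i, r⟩
  rw [J.hb, pow_pow_apply, J.kill_of_le (J.kill i) (by have := h i; omega), LinearMap.zero_apply]

theorem card_eq : finrank k (LinearMap.ker e) = Fintype.card I := by
  have h := J.finrank_ker 1
  rw [pow_one] at h
  rw [h, Fintype.card, Finset.card_eq_sum_ones]
  exact Finset.sum_congr rfl fun i _ => by have := J.pos i; omega

theorem ker_le_range {m : ℕ} (h : ∀ i, m + 1 ≤ μ i) :
    LinearMap.ker e ≤ LinearMap.range (e ^ m) := by
  intro v hv
  have h1 : (e ^ 1) v = 0 := by rw [pow_one]; exact hv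
  rw [J.pow_eq_zero_iff] at h1
  refine ⟨∑ i, J.co i (μ i - 1) v • (e ^ (μ i - 1 - m)) (g i), ?_⟩
  rw [map_sum, ← sub_eq_zero]
  apply J.eq_zero_of_co
  intro l r hr
  rw [map_sub, map_sum, Finset.sum_eq_single l]
  · rw [map_smul, pow_pow_apply, map_smul, J.co_gen]
    have h2 : m + (μ l - 1 - m) = μ l - 1 := by have := h l; omega
    rw [h2]
    by_cases hrl : r = μ l - 1
    · rw [if_pos ⟨rfl, hrl, by omega⟩, hrl, smul_eq_mul, mul_one, sub_self]
    · rw [if_neg (fun h => hrl h.2.1), smul_zero, h1 l r (by omega), sub_self]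
  · intro j _ hj
    rw [map_smul, pow_pow_apply, map_smul, J.co_gen, if_neg (fun h => hj h.1.symm), smul_zero]
  · intro h
    exact absurd (Finset.mem_univ l) h

end JB

variable {e : Module.End k V} {I : Type} [Fintype I] [DecidableEq I] {μ : I → ℕ} {g : I → V}

theorem strange_two_le [CharZero k] (J : JB e μ g) {i j : I} (hij : i ≠ j)
    (huniv : ∀ l, l = i ∨ l = j) (h1 : μ j ≤ μ i) (h2 : μ i ≤ μ j + 3) : SG e := by
  have hpos := J.pos j
  rcases Nat.lt_or_ge (μ i) (μ j + 2) with h3 | h3
  · refine strange_A2 J (m := μ j - 1) (fun l => ?_) id (fun l hl => ?_) (fun l l' _ _ h => h)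
    · rcases huniv l with rfl | rfl <;> omega
    · rcases huniv l with rfl | rfl <;> omega
  rcases Nat.lt_or_ge (μ i) (μ j + 3) with h4 | h4
  · refine strange_A2 J (m := μ j) (fun l => ?_) (fun _ => i) (fun l hl => ?_)
      (fun l l' hl hl' _ => ?_)
    · rcases huniv l with rfl | rfl <;> omega
    · omega
    · rcases huniv l with rfl | rfl <;> rcases huniv l' with rfl | rfl <;> first | rfl | omega
  · exact strange_three J hij huniv (by omega)

theorem exists_pair (h : Fintype.card I = 2) : ∃ i j : I, i ≠ j ∧ (∀ l, l = i ∨ l = j) := by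
  have h1 : (Finset.univ : Finset I).card = 2 := h
  obtain ⟨i, j, hij, hu⟩ := Finset.card_eq_two.1 h1
  refine ⟨i, j, hij, fun l => ?_⟩
  have h2 : l ∈ (Finset.univ : Finset I) := Finset.mem_univ l
  rw [hu, Finset.mem_insert, Finset.mem_singleton] at h2
  exact h2

theorem exists_ordered (μ : I → ℕ) (h : Fintype.card I = 2) :
    ∃ i j : I, i ≠ j ∧ (∀ l, l = i ∨ l = j) ∧ μ j ≤ μ i := by
  obtain ⟨i, j, hij, hu⟩ := exists_pair h
  rcases Nat.le_total (μ j) (μ i) with h1 | h1
  · exact ⟨i, j, hij, hu, h1⟩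
  · exact ⟨j, i, hij.symm, fun l => (hu l).symm, h1⟩

theorem sum_pair {i j : I} (hij : i ≠ j) (hu : ∀ l, l = i ∨ l = j) (f : I → ℕ) :
    ∑ l, f l = f i + f j := by
  have h1 : (Finset.univ : Finset I) = {i, j} := by
    ext l
    simp [hu l]
  rw [h1, Finset.sum_pair hij]

/-- nilpotent elements with two Jordan blocks -/
theorem strange_two_iff [IsAlgClosed k] [CharZero k] (J : JB e μ g) {i j : I} (hij : i ≠ j)
    (hu : ∀ l, l = i ∨ l = j) (h1 : μ j ≤ μ i) : SG e ↔ μ i ≤ μ j + 3 := by
  refine ⟨fun hS => ?_, fun h => strange_two_le J hij hu h1 h⟩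
  have hpos := J.pos j
  have hn : finrank k V = μ i + μ j := by rw [J.finrank_eq, sum_pair hij hu]
  have hd : finrank k (cen e) = μ i + 3 * μ j := by
    rw [J.finrank_cen, sum_pair hij hu, J.finrank_ker, J.finrank_ker, sum_pair hij hu,
      sum_pair hij hu]
    omega
  rcases gap hS with h | h <;> omega

/-- **two Jordan blocks**: strange if and only if the sizes of the blocks differ by at most 3 -/
theorem strange_two [IsAlgClosed k] [CharZero k] (he : IsNilpotent e)
    (hk : finrank k (LinearMap.ker e) = 2) : SG e ↔ e ^ ((finrank k V + 3) / 2) = 0 := by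
  classical
  obtain ⟨I, _, _, μ, g, ⟨J⟩⟩ := exists_jb e he
  obtain ⟨i, j, hij, hu, h1⟩ := exists_ordered μ (J.card_eq.symm.trans hk)
  have hn : finrank k V = μ i + μ j := by rw [J.finrank_eq, sum_pair hij hu]
  have hpos := J.pos j
  rw [strange_two_iff J hij hu h1]
  constructor
  · intro h
    refine J.pow_eq_zero fun l => ?_
    rcases hu l with rfl | rfl <;> omega
  · intro h
    by_contra hcon
    have h2 : (e ^ ((finrank k V + 3) / 2)) (g i) = 0 := by rw [h, LinearMap.zero_apply]
    have h3 := J.co_gen i i ((finrank k V + 3) / 2) ((finrank k V + 3) / 2)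
    rw [h2, map_zero, if_pos ⟨rfl, rfl, by omega⟩] at h3
    exact zero_ne_one h3

/-- one Jordan block -/
theorem classC_one (he : IsNilpotent e) (hk : finrank k (LinearMap.ker e) ≤ 1) : ClassC e := by
  classical
  obtain ⟨I, _, _, μ, g, ⟨J⟩⟩ := exists_jb e he
  have hc : Fintype.card I ≤ 1 := J.card_eq.symm.trans_le hk
  intro i hi h1 h2
  exfalso
  have hρ : ∀ s, rk e s = ∑ l, (μ l - s) := fun s => J.finrank_range s
  rcases isEmpty_or_nonempty I with hI | hI
  · rw [hρ, Finset.univ_eq_empty, Finset.sum_empty] at h1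
    exact h1 rfl
  · have : Unique I := Fintype.card_eq_one_iff_nonempty_unique.1 (by
      have := Fintype.card_pos (α := I)
      omega) |>.some
    rw [hρ, Fintype.sum_unique] at h1
    rw [hρ, hρ, hρ, Fintype.sum_unique, Fintype.sum_unique, Fintype.sum_unique] at h2
    omega

/-- at most two Jordan blocks -/
theorem classC_ker_two [IsAlgClosed k] [CharZero k] (he : IsNilpotent e) (hS : SG e)
    (hk : finrank k (LinearMap.ker e) ≤ 2) {j : ℕ} (hj : 2 ≤ j) : ClassC (e ^ j) := by
  classical
  rcases Nat.lt_or_ge (finrank k (LinearMap.ker e)) 2 with h2 | h2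
  · exact classC_pow he (classC_one he (by omega)) (by omega)
  · obtain ⟨I, _, _, μ, g, ⟨J⟩⟩ := exists_jb e he
    obtain ⟨i, i', hij, hu, h1⟩ := exists_ordered μ (J.card_eq.symm.trans (le_antisymm hk h2))
    have h3 := (strange_two_iff J hij hu h1).1 hS
    have hpos := J.pos i'
    refine classC_spread he (m := μ i' - 1) (J.ker_le_range fun l => ?_)
      (J.pow_eq_zero fun l => ?_) hj
    · rcases hu l with rfl | rfl <;> omega
    · rcases hu l with rfl | rfl <;> omega

end Strange53
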